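import Pool.Agent.Helper54.Poly.Arith

namespace Pool.Agent.Helper54.Poly

open Turing Function TEnc

section out

variable {Γi : Type}

theorem RL.pushO (a : Option Bool) {σ : J → List Bool} {li : List Γi} {lo : List (Option Bool)} :
    RL (Γi := Γi) (Γo := Option Bool) (Prog.push Kk.out (a : Option Bool)) (mk σ li lo) 1
      (mk σ li (a :: lo)) := by
  refine ⟨1, le_rfl, ?_⟩
  have h := Run.push (Γ := Gm Γi (Option Bool)) Kk.out a (mk σ li lo)
  have h2 := upd_out σ li lo (a :: lo)
  exact h2 ▸ h

/-- output of one symbol; the symbol is on top of the stack -/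
def outO1 (Γi : Type) : Pg Γi (Option Bool) :=
  iteR J.d
    (Prog.seq (Q1 J.d) (iteR J.d
      (Prog.seq drp (Prog.seq drp (Prog.push Kk.out (some true : Option Bool))))
      (Prog.seq drp (Prog.seq drp (Prog.push Kk.out (some false : Option Bool))))))
    (Prog.seq drp (Prog.push Kk.out (none : Option Bool)))

theorem RL.outO1 (o : Option Bool) (x : Tr) (li : List Γi) (lo : List (Option Bool)) :
    RL (outO1 Γi) (mk (ws [enc o, x] []) li lo) 60 (mk (ws [x] []) li (o :: lo)) := by
  cases o with
  | none =>
    have h1 := (W.drp (Γi := Γi) (Γo := Option Bool) Tr.nil [x] []) li lo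
    have h2 := RL.pushO (Γi := Γi) none (σ := ws [x] []) (li := li) (lo := lo)
    exact (RL.iteF (l := x.enc) (by simp [ws, Tr.enc]) (h1.seq h2)).mono (by simp)
  | some b =>
    have h0 := (W.unCons (Γi := Γi) (Γo := Option Bool) (enc b) Tr.nil [x] []) li lo
    have h1 := (W.drp (Γi := Γi) (Γo := Option Bool) (enc b) [Tr.nil, x] []) li lo
    have h2 := (W.drp (Γi := Γi) (Γo := Option Bool) Tr.nil [x] []) li lo
    have h3 := RL.pushO (Γi := Γi) (some b) (σ := ws [x] []) (li := li) (lo := lo)
    have h4 := h1.seq (h2.seq h3)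
    cases b with
    | false =>
      have h5 := RL.iteF (σ := ws [enc false, Tr.nil, x] []) (j := J.d)
        (l := (Tr.nil).enc ++ x.enc)
        (p := Prog.seq drp (Prog.seq drp (Prog.push Kk.out (some true : Option Bool))))
        (by simp [ws, Tr.enc]) h4
      exact (RL.iteT (σ := ws [enc (some false), x] []) (j := J.d)
        (l := (enc false).enc ++ ((Tr.nil).enc ++ x.enc)) (by simp [ws, Tr.enc])
        (h0.seq h5)).mono (by simp)
    | true =>
      have h5 := RL.iteT (σ := ws [enc true, Tr.nil, x] []) (j := J.d)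
        (l := (Tr.nil).enc ++ ((Tr.nil).enc ++ ((Tr.nil).enc ++ x.enc)))
        (q := Prog.seq drp (Prog.seq drp (Prog.push Kk.out (some false : Option Bool))))
        (by simp [ws, Tr.enc]) h4
      exact (RL.iteT (σ := ws [enc (some true), x] []) (j := J.d)
        (l := (enc true).enc ++ ((Tr.nil).enc ++ x.enc)) (by simp [ws, Tr.enc])
        (h0.seq h5)).mono (by simp)

def outO (Γi : Type) : Pg Γi (Option Bool) :=
  Prog.seq (whlT J.d (Prog.seq (Q1 J.d) (outO1 Γi))) (Q1 J.d)

theorem RL.outOLoop (l : List (Option Bool)) : ∀ (li : List Γi) (lo : List (Option Bool)),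
    RL (whlT J.d (Prog.seq (Q1 J.d) (Poly.outO1 Γi))) (mk (ws [enc l] []) li lo)
      (62 * l.length + 1) (mk (ws [Tr.nil] []) li (l.reverse ++ lo)) := by
  induction l with
  | nil => intro li lo; exact W.whlN li lo
  | cons o l ih =>
    intro li lo
    have h3 := ih li (o :: lo)
    have e1 : l.reverse ++ o :: lo = (o :: l).reverse ++ lo := by simp
    rw [e1] at h3
    have a1 := (W.unCons (Γi := Γi) (Γo := Option Bool) (enc o) (enc l) [] []) li lo
    have a2 := RL.outO1 (Γi := Γi) o (enc l) li lo
    have a5 := RL.whlTT (σ := ws [enc (o :: l)] []) (j := J.d)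
      (l := (enc o).enc ++ (enc l).enc) (p := Prog.seq (Q1 J.d) (Poly.outO1 Γi))
      (by simp [ws, Tr.enc]) (a1.seq a2) h3
    exact a5.mono (by simp; omega)

theorem RL.outO (l : List (Option Bool)) (li : List Γi) :
    RL (outO Γi) (mk (ws [enc l] []) li []) (62 * l.length + 2)
      (mk (ws [] []) li l.reverse) := by
  have h1 := RL.outOLoop (Γi := Γi) l li []
  rw [List.append_nil] at h1
  have a2 := RL.pop (Γi := Γi) (Γo := Option Bool) (σ := ws [Tr.nil] []) (li := li)
    (lo := l.reverse) J.d
  have e2 : update (ws [Tr.nil] []) J.d (ws [Tr.nil] [] J.d).tail = ws [] [] := by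
    funext j; cases j <;> simp [ws, Tr.enc]
  rw [e2] at a2
  exact (h1.seq a2).mono (by omega)

end out

/-- `PT` functions with values in words over `Option Bool` are computable in polynomial time. -/
theorem polytime_olist {α β Γi : Type} [DecidableEq Γi] [Fintype Γi] [TEnc Γi]
    (ea : α → List Γi) (eb : β → List (Option Bool)) (f : α → β)
    (g : List Γi → List (Option Bool)) (hg : PT g) (hfg : ∀ a, g (ea a) = (eb (f a)).reverse) :
    Nonempty (TM2ComputableInPolyTime ea eb f) := by
  obtain ⟨F, hF, hFe⟩ := hg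
  obtain ⟨S, hS⟩ := hF.size
  obtain ⟨p, T, hT⟩ := hF.run Γi (Option Bool)
  obtain ⟨c, hc⟩ := enc_list_size (α := Γi)
  set l : List Γi := (Finset.univ : Finset Γi).toList with hl
  have hl' : ∀ a, a ∈ l := fun a => by simp [hl]
  let _ : Fintype ((Gm Γi (Option Bool)) Kk.inp) := inferInstanceAs (Fintype Γi)
  refine polytime_of_run (Γ := Gm Γi (Option Bool))
    (Prog.seq (load Γi (Option Bool) l) (Prog.seq p (outO Γi)))
    Kk.inp Kk.out ea eb f (Equiv.refl Γi) (Equiv.refl (Option Bool))
    (Polynomial.C (5 * symB l) * Polynomial.X + 3 + T.comp (Polynomial.C c * Polynomial.X + 1)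
      + 62 * S.comp (Polynomial.C c * Polynomial.X + 1) + 5 + 1) ?_
  intro a
  have h1 := RL.load (Γi := Γi) (Γo := Option Bool) l hl' (ea a) []
  have h2 := hT (enc (ea a)) ⟨_, rfl⟩ [] [] [] []
  rw [hFe, hfg] at h2
  have h3 := RL.outO (Γi := Γi) (eb (f a)).reverse []
  rw [List.reverse_reverse] at h3
  obtain ⟨t, ht, hr⟩ := h1.seq (h2.seq h3)
  refine ⟨t, ?_, ?_⟩
  · refine (Nat.add_le_add_right ht 1).trans ?_
    have h5 : T.eval (enc (ea a)).size ≤ T.eval (c * (ea a).length + 1) :=
      poly_mono T (hc _)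
    have h7 : S.eval (enc (ea a)).size ≤ S.eval (c * (ea a).length + 1) :=
      poly_mono S (hc _)
    have h8 := hS (enc (ea a)) ⟨_, rfl⟩
    rw [hFe, hfg] at h8
    have h10 : (eb (f a)).reverse.length ≤ (enc (eb (f a)).reverse).size :=
      length_le_sz (eb (f a)).reverse
    simp only [Polynomial.eval_add, Polynomial.eval_mul, Polynomial.eval_C, Polynomial.eval_X,
      Polynomial.eval_comp, Polynomial.eval_one, Polynomial.eval_ofNat]
    have h6 : 5 * ((ea a).length * symB l) = 5 * symB l * (ea a).length := by ring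
    rw [h6]
    omega
  · have e1 : List.map (Equiv.refl Γi).symm (ea a) = ea a := by
      simp
    have e2 : List.map (Equiv.refl (Option Bool)).symm (eb (f a)) = eb (f a) := by
      simp
    have e3 := upd_empty_inp (Γi := Γi) (Γo := Option Bool) (ea a)
    have e4 := upd_empty_out (Γi := Γi) (Γo := Option Bool) (eb (f a))
    rw [← e3, ← e4] at hr
    convert hr using 2
    · exact e1
    · exact e2

namespace PT

variable {α : Type} [TEnc α]

/-- evaluation of a fixed polynomial -/
theorem evalP (p : Polynomial ℕ) {n : α → ℕ} (hn : PT n) : PT (fun a => p.eval (n a)) := by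
  induction p using Polynomial.induction_on' with
  | add p q hp hq => exact (add hp hq).congr fun a => by rw [Polynomial.eval_add]
  | monomial k c =>
    exact (mul (const c) (pow hn k)).congr fun a => by rw [Polynomial.eval_monomial]

end PT

end Pool.Agent.Helper54.Poly
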