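import Pool.Agent.Helper54.Poly.Arith

namespace Pool.Agent.Helper54.Poly

open TEnc

variable {α β γ : Type} [TEnc α] [TEnc β] [TEnc γ]

theorem sz_append (l m : List α) : sz (l ++ m) + 1 = sz l + sz m := by
  induction l with
  | nil => rw [List.nil_append, sz_nil]; omega
  | cons a l ih => rw [List.cons_append, sz_cons, sz_cons]; omega

namespace PT

/-- flatMap with a context -/
theorem flatMap {f : α × β → List γ} (hf : PT f) {l : α → List β} (hl : PT l) :
    PT (fun a => (l a).flatMap fun b => f (a, b)) := by
  have h1 : PT (fun y : α × (List γ × β) => f (y.1, y.2.2) ++ y.2.1) :=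
    append (hf.comp (PT.id.fst.pair PT.id.snd.snd)) PT.id.snd.fst
  obtain ⟨L, hL⟩ := hl.bound
  obtain ⟨S, hS⟩ := hf.bound
  have h2 := foldl_add (β := α) (σ := List γ) (γ := β) h1 (l := fun a => (l a).reverse)
    (x := fun _ => []) hl.reverse (const []) (S.comp (Polynomial.X + L + 1)) (by
      intro b s c hc
      have h3 := sz_mem (List.mem_reverse.1 hc)
      have h4 := hL b
      have h5 := hS (b, c)
      rw [sz_pair] at h5
      have h6 := poly_mono S (show sz b + sz c + 1 ≤ sz b + L.eval (sz b) + 1 by omega)
      have h7 := sz_append (f (b, c)) s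
      simp only [Polynomial.eval_add, Polynomial.eval_one, Polynomial.eval_comp,
        Polynomial.eval_X]
      omega)
  refine h2.congr fun a => ?_
  have h3 : ∀ (l : List β), (l.reverse).foldl (fun s c => f (a, c) ++ s) [] =
      l.flatMap fun b => f (a, b) := by
    intro l
    rw [List.foldl_reverse]
    induction l with
    | nil => rfl
    | cons b l ih => rw [List.foldr_cons, ih, List.flatMap_cons]
  exact h3 (l a)

theorem range {n : α → ℕ} (hn : PT n) : PT (fun a => List.range (n a)) := by
  obtain ⟨S, hS⟩ := hn.nbound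
  have key : ∀ k, (fun s : ℕ × List ℕ => (s.1 + 1, s.1 :: s.2))^[k] (0, []) =
      (k, (List.range k).reverse) := by
    intro k
    induction k with
    | zero => rfl
    | succ k ih => rw [Function.iterate_succ_apply', ih, List.range_succ]; simp
  have hsz : ∀ k, sz (List.range k).reverse ≤ 2 * (k * k) + 1 := by
    intro k
    induction k with
    | zero => simp [sz_nil]
    | succ k ih =>
      rw [List.range_succ, List.reverse_append, List.reverse_singleton, List.singleton_append,
        sz_cons, sz_nat]
      nlinarith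
  have hstep : PT (fun y : α × (ℕ × List ℕ) => ((y.2.1 + 1, y.2.1 :: y.2.2) : ℕ × List ℕ)) :=
    (succ PT.id.snd.fst).pair (lcons PT.id.snd.fst PT.id.snd.snd)
  have h := iterN (β := α) (α := ℕ × List ℕ) (f := fun y => (y.2.1 + 1, y.2.1 :: y.2.2)) hstep
    (n := n) (x := fun _ => (0, [])) hn (const _) (2 * S + 2 * (S * S) + 5) (by
      intro a k hk
      have hk2 := hk.trans (hS a)
      have h4 := key k
      change sz ((fun s : ℕ × List ℕ => (s.1 + 1, s.1 :: s.2))^[k] (0, [])) ≤ _
      rw [h4, sz_pair, sz_nat]
      have h5 := hsz k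
      have h6 := Nat.mul_le_mul hk2 hk2
      simp only [Polynomial.eval_add, Polynomial.eval_mul, Polynomial.eval_ofNat]
      omega)
  refine (h.snd.reverse).congr fun a => ?_
  change ((fun s : ℕ × List ℕ => (s.1 + 1, s.1 :: s.2))^[n a] (0, [])).2.reverse = _
  rw [key, List.reverse_reverse]

theorem replicate {n : α → ℕ} {f : α → β} (hn : PT n) (hf : PT f) :
    PT (fun a => List.replicate (n a) (f a)) := by
  have h := map (f := fun y : α × Unit => f y.1) (hf.comp PT.id.fst) hn.toRep
  refine h.congr fun a => ?_
  simp

theorem sub {f g : α → ℕ} (hf : PT f) (hg : PT g) : PT (fun a => f a - g a) := by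
  apply ofRep
  refine (drop hg hf.toRep).congr fun a => ?_
  rw [List.drop_replicate]

theorem eqN {f g : α → ℕ} (hf : PT f) (hg : PT g) : PT (fun a => decide (f a = g a)) := by
  refine (and (leN hf hg) (leN hg hf)).congr fun a => ?_
  rw [Bool.eq_iff_iff]
  simp only [Bool.and_eq_true, decide_eq_true_eq]
  omega

end PT

end Pool.Agent.Helper54.Poly
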