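import Pool.Agent.Helper54.Rg.Gate2

open Finset

namespace Pool.Agent.Helper54.ETR

theorem conj_atoms (S : List Term) : ∀ t : Term,
    (conj t S).atoms = (t :: S).map fun s => (s, Term.zero) := by
  induction S with
  | nil => intro t; rfl
  | cons s S ih => intro t; simp only [conj, Form.atoms, ih s]; rfl

/-- system of basic equations for a conjunction of equations -/
def gateSys (t : Term) (S : List Term) : List Term :=
  (gf (S.length + 1) (conj t S) 0 ++ [gOne (S.length + 1 + 1)]) ++
    [gAdd (S.length + 1) (S.length + 1) (S.length + 1)]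

theorem gateSys_length (t : Term) (S : List Term) :
    (gateSys t S).length = S.length + 1 + 2 + (conj t S).toks.length := by
  simp only [gateSys, List.length_append, gf_length, conj_atoms, List.length_map,
    List.length_cons, List.length_nil]
  omega

theorem mem_gateSys (t : Term) (S : List Term) (Q : Term → Prop) :
    (∀ e ∈ gateSys t S, Q e) ↔ (∀ e ∈ gf (S.length + 1) (conj t S) 0, Q e) ∧
      Q (gOne (S.length + 1 + 1)) ∧ Q (gAdd (S.length + 1) (S.length + 1) (S.length + 1)) := by
  simp only [gateSys, List.mem_append, List.mem_singleton]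
  constructor
  · intro h
    exact ⟨fun e he => h e (Or.inl (Or.inl he)), h _ (Or.inl (Or.inr rfl)), h _ (Or.inr rfl)⟩
  · rintro ⟨h1, h2, h3⟩ e ((he | he) | he)
    · exact h1 e he
    · rw [he]; exact h2
    · rw [he]; exact h3

theorem gateSys_basic (t : Term) (S : List Term) : ∀ e ∈ gateSys t S, Basic e := by
  rw [mem_gateSys]
  exact ⟨gf_basic _ _ _, Or.inl ⟨_, rfl⟩, Or.inr (Or.inl ⟨_, _, _, rfl⟩)⟩

theorem conj_fbelow (t : Term) (S : List Term) (h : ∀ s ∈ t :: S, s.Below (S.length + 1)) :
    FBelow (S.length + 1) (conj t S) := by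
  intro a ha
  rw [conj_atoms, List.mem_map] at ha
  obtain ⟨s, hs, rfl⟩ := ha
  exact ⟨h s hs, trivial⟩

theorem conj_ev {R : Type} [CommRing R] (x : ℕ → R) (t : Term) (S : List Term) :
    (∀ a ∈ (conj t S).atoms, a.1.ev x = 0) ↔ ∀ s ∈ t :: S, s.ev x = 0 := by
  rw [conj_atoms]
  simp

theorem conj_der {R : Type} [CommRing R] (x v : ℕ → R) (t : Term) (S : List Term) :
    (∀ a ∈ (conj t S).atoms, a.1.der x v = 0) ↔ ∀ s ∈ t :: S, s.der x v = 0 := by
  rw [conj_atoms]
  simp

section

variable {R : Type} [CommRing R] {t : Term} {S : List Term}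

theorem gate_pins {x : ℕ → R} (h : ∀ e ∈ gateSys t S, e.ev x = 0) :
    x (S.length + 1) = 0 ∧ x (S.length + 1 + 1) = 1 := by
  rw [mem_gateSys] at h
  obtain ⟨-, h2, h3⟩ := h
  rw [ev_gOne] at h2
  rw [ev_gAdd] at h3
  exact ⟨by linear_combination h3, sub_eq_zero.1 h2⟩

theorem gate_sound {x : ℕ → R} (h : ∀ e ∈ gateSys t S, e.ev x = 0) :
    ∀ s ∈ t :: S, s.ev x = 0 := by
  obtain ⟨h0, h1⟩ := gate_pins h
  rw [mem_gateSys] at h
  rw [← conj_ev]
  exact gf_val _ x h0 h1 _ 0 h.1

theorem gate_complete (hS : ∀ s ∈ t :: S, s.Below (S.length + 1)) {y : ℕ → R}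
    (h : ∀ s ∈ t :: S, s.ev y = 0) : ∃ x : ℕ → R, ∀ e ∈ gateSys t S, e.ev x = 0 := by
  set n := S.length + 1 with hn
  refine ⟨fun i => if i < n then y i else if i = n then 0 else if i = n + 1 then 1 else
    wf y (conj t S) 0 (i - (n + 2)), ?_⟩
  rw [mem_gateSys]
  refine ⟨?_, ?_, ?_⟩
  · refine gf_ex _ y ?_ ?_ ?_ (conj t S) (conj_fbelow t S hS) ((conj_ev y t S).2 h) 0 ?_
    · simp [← hn]
    · simp [← hn]
    · intro i hi
      have hi : i < n := hi
      simp [hi]
    · intro q _ _
      have e1 : ¬ n + 2 + q < n := by omega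
      have e2 : ¬ n + 2 + q = n := by omega
      have e3 : ¬ n + 2 + q = n + 1 := by omega
      have e4 : n + 2 + q - (n + 2) = q := by omega
      simp only [← hn, e1, e2, e3, e4, if_false]
  · rw [ev_gOne]
    simp [← hn]
  · rw [ev_gAdd]
    simp [← hn]

end

theorem gate_regular {t : Term} {S : List Term} (hr : Regular (t :: S)) :
    Regular (gateSys t S) := by
  obtain ⟨hb, hf, hns⟩ := hr
  rw [List.length_cons] at hb hf hns
  set n := S.length + 1 with hn
  set L := (conj t S).toks.length with hL
  have hlen : (gateSys t S).length = n + 2 + L := gateSys_length t S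
  have hfb := conj_fbelow t S hb
  rw [← hn] at hfb
  refine ⟨?_, ?_, ?_⟩
  · rw [hlen, mem_gateSys, ← hn]
    exact ⟨gf_below n _ _ hfb 0 (by omega), gOne_below (by omega),
      gAdd_below (by omega) (by omega) (by omega)⟩
  · rw [hlen]
    refine Set.Finite.of_finite_image (f := fun (x : ℕ → ℂ) (i : ℕ) => if i < n then x i else 0)
      (hf.subset ?_) ?_
    · rintro _ ⟨x, ⟨hx, -⟩, rfl⟩
      refine ⟨fun s hs => ?_, fun i hi => ?_⟩
      · rw [← gate_sound hx s hs]
        refine ev_congr _ _ _ fun i hi => ?_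
        have : i < n := (below_iff _ _).1 (hb s hs) i hi
        simp [this]
      · simp [show ¬ i < n by omega]
    · rintro x ⟨hx, hx0⟩ y ⟨hy, hy0⟩ hxy
      have hxy' : ∀ i < n, x i = y i := by
        intro i hi
        have := congrFun hxy i
        simpa [hi] using this
      obtain ⟨a0, a1⟩ := gate_pins hx
      obtain ⟨b0, b1⟩ := gate_pins hy
      rw [← hn] at a0 a1 b0 b1
      rw [mem_gateSys, ← hn] at hx hy
      have hag := gf_agree n x y (a0.trans b0.symm) (a1.trans b1.symm) hxy' (conj t S) hfb 0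
        hx.1 hy.1
      funext i
      rcases Nat.lt_or_ge i n with h1 | h1
      · exact hxy' i h1
      · rcases Nat.lt_or_ge i (n + 2) with h2 | h2
        · have : i = n ∨ i = n + 1 := by omega
          rcases this with h3 | h3
          · rw [h3, a0, b0]
          · rw [h3, a1, b1]
        · rcases Nat.lt_or_ge i (n + 2 + L) with h3 | h3
          · have h4 := hag (i - (n + 2)) (by omega) (by omega)
            rwa [show n + 2 + (i - (n + 2)) = i by omega] at h4
          · rw [hx0 i h3, hy0 i h3]
  · rw [hlen]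
    intro x v hx hv
    obtain ⟨a0, a1⟩ := gate_pins hx
    have hsx := gate_sound hx
    rw [← hn] at a0 a1
    rw [mem_gateSys, ← hn] at hx hv
    have d0 : v n = 0 := by
      have := hv.2.2
      rw [der_gAdd] at this
      linear_combination this
    have d1 : v (n + 1) = 0 := by
      have := hv.2.1
      rwa [der_gOne] at this
    have hd := (conj_der x v t S).1 (gf_dval n x v a0 a1 d0 d1 (conj t S) 0 hx.1 hv.1)
    have hv0 := hns x v hsx hd
    have hker := gf_ker n x v d0 d1 hv0 (conj t S) hfb 0 hv.1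
    intro i hi
    rcases Nat.lt_or_ge i n with h1 | h1
    · exact hv0 i h1
    · rcases Nat.lt_or_ge i (n + 2) with h2 | h2
      · have : i = n ∨ i = n + 1 := by omega
        rcases this with h3 | h3
        · rw [h3, d0]
        · rw [h3, d1]
      · have h4 := hker (i - (n + 2)) (by omega) (by omega)
        rwa [show n + 2 + (i - (n + 2)) = i by omega] at h4

end Pool.Agent.Helper54.ETR
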