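import Pool.Agent.Helper54.ETRSem2

open Pool.Agent.Helper54.Poly

namespace Pool.Agent.Helper54.ETR

/-! ### evaluation of token lists in an arbitrary algebra -/

/-- values with a kind -/
abbrev SV (V : Type) := (Bool × Bool) × V

section defs

variable {V Cx : Type}

def skd (K : Bool × Bool) (v : SV V) : Bool := (v.1.1 == K.1) && (v.1.2 == K.2)

def gun (K K' : Bool × Bool) (F : V → V) (st : List (SV V)) : Option (List (SV V)) :=
  match st with
  | [] => none
  | v :: t => if skd K v then some ((K', F v.2) :: t) else none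

def gbin (K K' : Bool × Bool) (F : V → V → V) (st : List (SV V)) : Option (List (SV V)) :=
  match st with
  | [] => none
  | v :: t => match t with
    | [] => none
    | w :: t' => if skd K v && skd K w then some ((K', F v.2 w.2) :: t') else none

/-- the operations -/
structure Alg (Cx V : Type) where
  c0 : Tok → Cx → ℕ → V
  c1 : Tok → Cx → ℕ → V → V
  c2 : Tok → Cx → ℕ → V → V → V

def kN : Bool × Bool := (false, false)
def kT : Bool × Bool := (false, true)
def kF : Bool × Bool := (true, true)

def astep (A : Alg Cx V) (c : Cx) (k : ℕ) : Tok → List (SV V) → Option (List (SV V))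
  | Tok.zero, st => some ((kT, A.c0 Tok.zero c k) :: st)
  | Tok.one, st => some ((kT, A.c0 Tok.one c k) :: st)
  | Tok.e, st => some ((kN, A.c0 Tok.e c k) :: st)
  | Tok.s, st => gun kN kN (A.c1 Tok.s c k) st
  | Tok.x, st => gun kN kT (A.c1 Tok.x c k) st
  | Tok.not, st => gun kF kF (A.c1 Tok.not c k) st
  | Tok.add, st => gbin kT kT (A.c2 Tok.add c k) st
  | Tok.sub, st => gbin kT kT (A.c2 Tok.sub c k) st
  | Tok.mul, st => gbin kT kT (A.c2 Tok.mul c k) st
  | Tok.lt, st => gbin kT kF (A.c2 Tok.lt c k) st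
  | Tok.le, st => gbin kT kF (A.c2 Tok.le c k) st
  | Tok.eq, st => gbin kT kF (A.c2 Tok.eq c k) st
  | Tok.ge, st => gbin kT kF (A.c2 Tok.ge c k) st
  | Tok.gt, st => gbin kT kF (A.c2 Tok.gt c k) st
  | Tok.and, st => gbin kF kF (A.c2 Tok.and c k) st
  | Tok.or, st => gbin kF kF (A.c2 Tok.or c k) st

/-- kind of an object -/
def obk : Ob → Bool × Bool
  | Ob.num _ => kN
  | Ob.tm _ => kT
  | Ob.fm _ => kF

/-- semantics of the objects -/
structure Alg.Sem (A : Alg Cx V) (c : Cx) (sem : Ob → ℕ → V) : Prop where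
  zero : ∀ k, sem (Ob.tm Term.zero) k = A.c0 Tok.zero c k
  one : ∀ k, sem (Ob.tm Term.one) k = A.c0 Tok.one c k
  e : ∀ k, sem (Ob.num 0) k = A.c0 Tok.e c k
  s : ∀ i k, sem (Ob.num (i + 1)) k = A.c1 Tok.s c (i + 1 + k) (sem (Ob.num i) k)
  x : ∀ i k, sem (Ob.tm (Term.var i)) k = A.c1 Tok.x c (i + 1 + k) (sem (Ob.num i) k)
  not : ∀ p k, sem (Ob.fm (Form.not p)) k = A.c1 Tok.not c (p.toks.length + k) (sem (Ob.fm p) k)
  add : ∀ a b k, sem (Ob.tm (Term.add a b)) k = A.c2 Tok.add c
    (a.toks.length + b.toks.length + k) (sem (Ob.tm a) (b.toks.length + k)) (sem (Ob.tm b) k)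
  sub : ∀ a b k, sem (Ob.tm (Term.sub a b)) k = A.c2 Tok.sub c
    (a.toks.length + b.toks.length + k) (sem (Ob.tm a) (b.toks.length + k)) (sem (Ob.tm b) k)
  mul : ∀ a b k, sem (Ob.tm (Term.mul a b)) k = A.c2 Tok.mul c
    (a.toks.length + b.toks.length + k) (sem (Ob.tm a) (b.toks.length + k)) (sem (Ob.tm b) k)
  lt : ∀ a b k, sem (Ob.fm (Form.lt a b)) k = A.c2 Tok.lt c
    (a.toks.length + b.toks.length + k) (sem (Ob.tm a) (b.toks.length + k)) (sem (Ob.tm b) k)
  le : ∀ a b k, sem (Ob.fm (Form.le a b)) k = A.c2 Tok.le c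
    (a.toks.length + b.toks.length + k) (sem (Ob.tm a) (b.toks.length + k)) (sem (Ob.tm b) k)
  eq : ∀ a b k, sem (Ob.fm (Form.eq a b)) k = A.c2 Tok.eq c
    (a.toks.length + b.toks.length + k) (sem (Ob.tm a) (b.toks.length + k)) (sem (Ob.tm b) k)
  ge : ∀ a b k, sem (Ob.fm (Form.ge a b)) k = A.c2 Tok.ge c
    (a.toks.length + b.toks.length + k) (sem (Ob.tm a) (b.toks.length + k)) (sem (Ob.tm b) k)
  gt : ∀ a b k, sem (Ob.fm (Form.gt a b)) k = A.c2 Tok.gt c
    (a.toks.length + b.toks.length + k) (sem (Ob.tm a) (b.toks.length + k)) (sem (Ob.tm b) k)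
  and : ∀ a b k, sem (Ob.fm (Form.and a b)) k = A.c2 Tok.and c
    (a.toks.length + b.toks.length + k) (sem (Ob.fm a) (b.toks.length + k)) (sem (Ob.fm b) k)
  or : ∀ a b k, sem (Ob.fm (Form.or a b)) k = A.c2 Tok.or c
    (a.toks.length + b.toks.length + k) (sem (Ob.fm a) (b.toks.length + k)) (sem (Ob.fm b) k)

/-- number of symbols on a stack -/
def tlen (st : List Ob) : ℕ := (st.flatMap Ob.toks).length

theorem tlen_cons (o : Ob) (st : List Ob) : tlen (o :: st) = o.toks.length + tlen st := by
  simp [tlen]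

def asem (sem : Ob → ℕ → V) : List Ob → List (SV V)
  | [] => []
  | o :: st => (obk o, sem o (tlen st)) :: asem sem st

theorem gun_eq (K K' : Bool × Bool) (F : V → V) (v : V) (t : List (SV V)) :
    gun K K' F ((K, v) :: t) = some ((K', F v) :: t) := by
  simp [gun, skd]

theorem gun_ne (K K' K2 : Bool × Bool) (F : V → V) (v : V) (t : List (SV V)) (h : K2 ≠ K) :
    gun K K' F ((K2, v) :: t) = none := by
  have : skd K (K2, v) = false := by
    rcases K with ⟨a, b⟩
    rcases K2 with ⟨a', b'⟩
    simp only [skd, Bool.and_eq_false_iff, beq_eq_false_iff_ne]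
    by_cases h1 : a' = a
    · right
      intro h2
      exact h (Prod.ext h1 h2)
    · exact Or.inl h1
  simp [gun, this]

theorem gbin_eq (K K' : Bool × Bool) (F : V → V → V) (v w : V) (t : List (SV V)) :
    gbin K K' F ((K, v) :: (K, w) :: t) = some ((K', F v w) :: t) := by
  simp [gbin, skd]

theorem gbin_ne (K K' K1 K2 : Bool × Bool) (F : V → V → V) (v w : V) (t : List (SV V))
    (h : ¬ (K1 = K ∧ K2 = K)) : gbin K K' F ((K1, v) :: (K2, w) :: t) = none := by
  have : (skd K (K1, v) && skd K (K2, w)) = false := by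
    rw [Bool.eq_false_iff]
    intro h2
    simp only [skd, Bool.and_eq_true, beq_iff_eq] at h2
    exact h ⟨Prod.ext h2.1.1 h2.1.2, Prod.ext h2.2.1 h2.2.2⟩
  simp [gbin, this]

theorem astep_sem {A : Alg Cx V} {c : Cx} {sem : Ob → ℕ → V} (hs : A.Sem c sem) (t : Tok)
    (st : List Ob) : astep A c (tlen st) t (asem sem st) = (pstep t st).map (asem sem) := by
  have hk1 : kN ≠ kT := by decide
  have hk2 : kN ≠ kF := by decide
  have hk3 : kT ≠ kF := by decide
  have hk4 : kT ≠ kN := by decide
  have hk5 : kF ≠ kN := by decide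
  have hk6 : kF ≠ kT := by decide
  have lt1 : ∀ a b : Term, a.toks.length + (b.toks.length + tlen st) =
    a.toks.length + b.toks.length + tlen st := fun a b => by ring
  have hnl : ∀ i : ℕ, (Ob.num i).toks.length = i + 1 := fun i => by simp [Ob.toks]
  cases t with
  | zero => simp [astep, pstep, asem, obk, hs.zero]
  | one => simp [astep, pstep, asem, obk, hs.one]
  | e => simp [astep, pstep, asem, obk, hs.e]
  | s =>
    rcases st with _ | ⟨o, st⟩
    · rfl
    · cases o with
      | num i => simp only [astep, asem, obk, gun_eq, pstep, Option.map_some, hs.s, tlen_cons, hnl]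
      | tm t => simp only [astep, asem, obk, gun_ne _ _ _ _ _ _ hk4, pstep, Option.map_none]
      | fm t => simp only [astep, asem, obk, gun_ne _ _ _ _ _ _ hk5, pstep, Option.map_none]
  | x =>
    rcases st with _ | ⟨o, st⟩
    · rfl
    · cases o with
      | num i => simp only [astep, asem, obk, gun_eq, pstep, Option.map_some, hs.x, tlen_cons, hnl]
      | tm t => simp only [astep, asem, obk, gun_ne _ _ _ _ _ _ hk4, pstep, Option.map_none]
      | fm t => simp only [astep, asem, obk, gun_ne _ _ _ _ _ _ hk5, pstep, Option.map_none]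
  | not =>
    rcases st with _ | ⟨o, st⟩
    · rfl
    · cases o with
      | num i => simp only [astep, asem, obk, gun_ne _ _ _ _ _ _ hk2, pstep, Option.map_none]
      | tm t => simp only [astep, asem, obk, gun_ne _ _ _ _ _ _ hk3, pstep, Option.map_none]
      | fm t => simp only [astep, asem, obk, gun_eq, pstep, Option.map_some, hs.not, tlen_cons, Ob.toks]
  | add | sub | mul =>
    rcases st with _ | ⟨o, _ | ⟨o', st⟩⟩
    · rfl
    · cases o <;> rfl
    · cases o <;> cases o'
      case tm.tm a b =>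
        simp only [astep, asem, obk, gbin_eq, pstep, Option.map_some, hs.add, hs.sub, hs.mul,
          tlen_cons, Ob.toks]
        rw [add_assoc]
      all_goals
        simp only [astep, asem, obk, pstep, Option.map_none]
        exact gbin_ne _ _ _ _ _ _ _ _ (by decide)
  | lt | le | eq | ge | gt =>
    rcases st with _ | ⟨o, _ | ⟨o', st⟩⟩
    · rfl
    · cases o <;> rfl
    · cases o <;> cases o'
      case tm.tm a b =>
        simp only [astep, asem, obk, gbin_eq, pstep, Option.map_some, hs.lt, hs.le, hs.eq, hs.ge,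
          hs.gt, tlen_cons, Ob.toks]
        rw [add_assoc]
      all_goals
        simp only [astep, asem, obk, pstep, Option.map_none]
        exact gbin_ne _ _ _ _ _ _ _ _ (by decide)
  | and | or =>
    rcases st with _ | ⟨o, _ | ⟨o', st⟩⟩
    · rfl
    · cases o <;> rfl
    · cases o <;> cases o'
      case fm.fm a b =>
        simp only [astep, asem, obk, gbin_eq, pstep, Option.map_some, hs.and, hs.or,
          tlen_cons, Ob.toks]
        rw [add_assoc]
      all_goals
        simp only [astep, asem, obk, pstep, Option.map_none]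
        exact gbin_ne _ _ _ _ _ _ _ _ (by decide)

/-- the run of the stack machine -/
def astate (A : Alg Cx V) (c : Cx) (l : List Tok) : ℕ × Option (List (SV V)) :=
  l.foldr (fun t s => (s.1 + 1, s.2.bind (astep A c s.1 t))) (0, some [])

theorem astate_eq {A : Alg Cx V} {c : Cx} {sem : Ob → ℕ → V} (hs : A.Sem c sem)
    (l : List Tok) : astate A c l = (l.length, (parse l).map (asem sem)) := by
  induction l with
  | nil => rfl
  | cons t l ih =>
    change ((astate A c l).1 + 1, (astate A c l).2.bind (astep A c (astate A c l).1 t)) = _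
    rw [ih, parse_cons, List.length_cons]
    refine Prod.ext rfl ?_
    simp only
    cases h : parse l with
    | none => rfl
    | some st =>
      simp only [Option.map_some, Option.bind_some]
      have h1 : l.length = tlen st := by rw [tlen, ← parse_sound l st h]
      rw [h1, astep_sem hs]

end defs

section pt

variable {V Cx : Type} [TEnc V] [TEnc Cx] {α : Type} [TEnc α]

theorem PTskd (K : Bool × Bool) {v : α → SV V} (hv : PT v) : PT (fun x => skd K (v x)) :=
  PT.and (PT.beq hv.fst.fst (PT.const _)) (PT.beq hv.fst.snd (PT.const _))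

theorem PTgun (K K' : Bool × Bool) {F : α → V → V} {st : α → List (SV V)}
    (hF : PT (fun z : α × V => F z.1 z.2)) (hst : PT st) :
    PT (fun x => gun K K' (F x) (st x)) := by
  have h1 : PT (fun z : α × SV V × List (SV V) => if skd K z.2.1 then
      some ((K', F z.1 z.2.1.2) :: z.2.2) else (none : Option (List (SV V)))) := by
    refine PT.ite (PTskd K PT.id.snd.fst) ?_ (PT.const _)
    exact PT.osome (PT.lcons ((PT.const _).pair (hF.comp (PT.id.fst.pair PT.id.snd.fst.snd)))
      PT.id.snd.snd)
  have h3 := PT.listCase hst (PT.const (none : Option (List (SV V)))) h1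
  refine h3.congr fun x => ?_
  unfold gun
  rcases st x with _ | ⟨v, t⟩ <;> rfl

theorem PTgbin (K K' : Bool × Bool) {F : α → V → V → V} {st : α → List (SV V)}
    (hF : PT (fun z : α × (V × V) => F z.1 z.2.1 z.2.2)) (hst : PT st) :
    PT (fun x => gbin K K' (F x) (st x)) := by
  have h0 : PT (fun z : (α × SV V × List (SV V)) × SV V × List (SV V) =>
      if skd K z.1.2.1 && skd K z.2.1 then
        some ((K', F z.1.1 z.1.2.1.2 z.2.1.2) :: z.2.2)
      else (none : Option (List (SV V)))) := by
    refine PT.ite (PT.and (PTskd K PT.id.fst.snd.fst) (PTskd K PT.id.snd.fst)) ?_ (PT.const _)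
    exact PT.osome (PT.lcons ((PT.const _).pair (hF.comp (PT.id.fst.fst.pair
      (PT.id.fst.snd.fst.snd.pair PT.id.snd.fst.snd)))) PT.id.snd.snd)
  have h1 : PT (fun z : α × SV V × List (SV V) => match z.2.2 with
      | [] => (none : Option (List (SV V)))
      | w :: t' => if skd K z.2.1 && skd K w then
        some ((K', F z.1 z.2.1.2 w.2) :: t') else none) := by
    have h2 := PT.listCase (l := fun z : α × SV V × List (SV V) => z.2.2) PT.id.snd.snd
      (PT.const (none : Option (List (SV V)))) h0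
    refine h2.congr fun z => ?_
    rcases z.2.2 with _ | ⟨w, t⟩ <;> rfl
  have h3 := PT.listCase hst (PT.const (none : Option (List (SV V)))) h1
  refine h3.congr fun x => ?_
  unfold gbin
  rcases st x with _ | ⟨v, t⟩ <;> rfl

/-- the operations are polynomial-time -/
structure Alg.IsPT (A : Alg Cx V) : Prop where
  p0 : ∀ t, PT (fun z : Cx × ℕ => A.c0 t z.1 z.2)
  p1 : ∀ t, PT (fun z : (Cx × ℕ) × V => A.c1 t z.1.1 z.1.2 z.2)
  p2 : ∀ t, PT (fun z : (Cx × ℕ) × (V × V) => A.c2 t z.1.1 z.1.2 z.2.1 z.2.2)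

theorem PTastep {A : Alg Cx V} (hA : A.IsPT) :
    PT (fun z : (Cx × ℕ) × (Tok × List (SV V)) => astep A z.1.1 z.1.2 z.2.1 z.2.2) := by
  refine PTtok (α := (Cx × ℕ) × (Tok × List (SV V))) (t := fun z => z.2.1) PT.id.snd.fst
    (fun t z => astep A z.1.1 z.1.2 t z.2.2) ?_
  have hc : PT (fun z : (Cx × ℕ) × (Tok × List (SV V)) => z.1) := PT.id.fst
  have hs : PT (fun z : (Cx × ℕ) × (Tok × List (SV V)) => z.2.2) := PT.id.snd.snd
  have hp0 : ∀ (K : Bool × Bool) (t : Tok), PT (fun z : (Cx × ℕ) × (Tok × List (SV V)) =>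
      some ((K, A.c0 t z.1.1 z.1.2) :: z.2.2)) := fun K t =>
    PT.osome (PT.lcons ((PT.const _).pair ((hA.p0 t).comp hc)) hs)
  have hp1 : ∀ (K K' : Bool × Bool) (t : Tok), PT (fun z : (Cx × ℕ) × (Tok × List (SV V)) =>
      gun K K' (A.c1 t z.1.1 z.1.2) z.2.2) := fun K K' t =>
    PTgun (α := (Cx × ℕ) × (Tok × List (SV V))) K K' (F := fun z => A.c1 t z.1.1 z.1.2)
      ((hA.p1 t).comp (PT.id.fst.fst.pair PT.id.snd)) hs
  have hp2 : ∀ (K K' : Bool × Bool) (t : Tok), PT (fun z : (Cx × ℕ) × (Tok × List (SV V)) =>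
      gbin K K' (A.c2 t z.1.1 z.1.2) z.2.2) := fun K K' t =>
    PTgbin (α := (Cx × ℕ) × (Tok × List (SV V))) K K' (F := fun z => A.c2 t z.1.1 z.1.2)
      ((hA.p2 t).comp (PT.id.fst.fst.pair PT.id.snd)) hs
  intro t
  cases t with
  | zero => exact hp0 _ _
  | one => exact hp0 _ _
  | e => exact hp0 _ _
  | s => exact hp1 _ _ _
  | x => exact hp1 _ _ _
  | not => exact hp1 _ _ _
  | add => exact hp2 _ _ _
  | sub => exact hp2 _ _ _
  | mul => exact hp2 _ _ _
  | lt => exact hp2 _ _ _
  | le => exact hp2 _ _ _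
  | eq => exact hp2 _ _ _
  | ge => exact hp2 _ _ _
  | gt => exact hp2 _ _ _
  | and => exact hp2 _ _ _
  | or => exact hp2 _ _ _

theorem sz_kind (K : Bool × Bool) : sz K ≤ 7 := by
  rcases K with ⟨a, b⟩
  rw [sz_pair]
  have := sz_bool a
  have := sz_bool b
  omega

theorem ob_toks_pos (o : Ob) : 1 ≤ o.toks.length := by
  cases o with
  | num i => simp [Ob.toks]
  | tm t => cases t <;> simp [Ob.toks, Term.toks]
  | fm p => cases p <;> simp [Ob.toks, Form.toks]

theorem asem_sz (sem : Ob → ℕ → V) (M B : ℕ) (hB : ∀ o k, o.toks.length + k ≤ M →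
    sz (sem o k) ≤ B) : ∀ st : List Ob, tlen st ≤ M → sz (asem sem st) ≤ tlen st * (B + 9) + 1
  | [], _ => by simp [asem, sz_nil, tlen]
  | o :: st, h => by
    rw [tlen_cons] at h
    have ih := asem_sz sem M B hB st (by omega)
    have h1 := hB o (tlen st) h
    have h2 := ob_toks_pos o
    rw [asem, sz_cons, sz_pair, tlen_cons, Nat.add_mul]
    have h3 := sz_kind (obk o)
    have h4 : 1 * (B + 9) ≤ o.toks.length * (B + 9) := Nat.mul_le_mul_right _ h2
    omega

theorem PTastate {A : Alg Cx V} (hA : A.IsPT) {c : α → Cx} {l : α → List Tok} (hc : PT c)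
    (hl : PT l) (sem : Cx → Ob → ℕ → V) (hs : ∀ c, A.Sem c (sem c)) (S : Polynomial ℕ)
    (hS : ∀ a o k, o.toks.length + k ≤ (l a).length → sz (sem (c a) o k) ≤ S.eval (sz a)) :
    PT (fun a => astate A (c a) (l a)) := by
  have hf : PT (fun z : α × ((ℕ × Option (List (SV V))) × Tok) =>
      ((z.2.1.1 + 1, z.2.1.2.bind (astep A (c z.1) z.2.1.1 z.2.2)) :
        ℕ × Option (List (SV V)))) := by
    have h1 : PT (fun y : (α × ((ℕ × Option (List (SV V))) × Tok)) × List (SV V) =>
        astep A (c y.1.1) y.1.2.1.1 y.1.2.2 y.2) :=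
      (PTastep hA).comp (((hc.comp PT.id.fst.fst).pair PT.id.fst.snd.fst.fst).pair
        (PT.id.fst.snd.snd.pair PT.id.snd))
    have h2 := PT.optCase (l := fun z : α × ((ℕ × Option (List (SV V))) × Tok) => z.2.1.2)
      (f := fun _ => (none : Option (List (SV V)))) PT.id.snd.fst.snd (PT.const _) h1
    refine (PT.succ PT.id.snd.fst.fst).pair (h2.congr fun z => ?_)
    cases z.2.1.2 <;> rfl
  obtain ⟨L, hL⟩ := hl.bound
  have h := PT.foldl (β := α) (σ := ℕ × Option (List (SV V))) (γ := Tok) hf hl.reverse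
    (x := fun _ => (0, some [])) (PT.const _) (2 * L + L * (S + 9) + 5) (by
      intro a k hk
      have h1 : (l a).reverse.take k = ((l a).drop ((l a).length - k)).reverse := by
        rw [List.take_reverse]
      change sz (((l a).reverse.take k).foldl (fun s t =>
        (s.1 + 1, s.2.bind (astep A (c a) s.1 t))) (0, some [])) ≤ _
      rw [h1, List.foldl_reverse]
      change sz (astate A (c a) ((l a).drop ((l a).length - k))) ≤ _
      rw [astate_eq (hs (c a)), sz_pair, sz_nat]
      set l' := (l a).drop ((l a).length - k) with hl'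
      have h2 : l'.length ≤ (l a).length := by rw [hl', List.length_drop]; omega
      have h3 : (l a).length ≤ L.eval (sz a) := (length_le_sz _).trans (hL a)
      have h4 : sz ((parse l').map (asem (sem (c a)))) ≤ l'.length * (S.eval (sz a) + 9) + 3 := by
        cases hp : parse l' with
        | none => simp only [Option.map_none, sz_none]; omega
        | some st =>
          simp only [Option.map_some, sz_some]
          have h5 : l'.length = tlen st := by rw [tlen, ← parse_sound l' st hp]
          have h6 := asem_sz (sem (c a)) (l a).length (S.eval (sz a)) (hS a) st (by omega)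
          rw [h5]
          omega
      have h7 := Nat.mul_le_mul_right (S.eval (sz a) + 9) (h2.trans h3)
      simp only [Polynomial.eval_add, Polynomial.eval_mul, Polynomial.eval_ofNat]
      omega)
  exact h.congr fun a => by rw [List.foldl_reverse]; rfl

end pt

end Pool.Agent.Helper54.ETR
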