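import Pool.Agent.Helper54.Rg.Basic

open Finset

namespace Pool.Agent.Helper54.ETR

/-- square of a term -/
def tSq (a : Term) : Term := Term.mul a a
/-- zero iff `b - a > 0`, for some `u` -/
def tPos (a b u : Term) : Term :=
  tSq (Term.sub (Term.mul (Term.sub b a) (Term.mul u u)) Term.one)
/-- zero iff `b - a ≥ 0`, for some `u` -/
def tNn (a b u : Term) : Term := tSq (Term.sub (Term.sub b a) (Term.mul u u))
def tZr (a b : Term) : Term := tSq (Term.sub a b)
def tNz (a b u : Term) : Term := tSq (Term.sub (Term.mul (Term.sub a b) u) Term.one)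

/-- polynomial for an atom (with sign) -/
def atomT : Tok → Bool → Term → Term → Term → Term
  | Tok.lt, true, s, t, u => tPos s t u
  | Tok.lt, false, s, t, u => tNn t s u
  | Tok.le, true, s, t, u => tNn s t u
  | Tok.le, false, s, t, u => tPos t s u
  | Tok.eq, true, s, t, _ => tZr s t
  | Tok.eq, false, s, t, u => tNz s t u
  | Tok.ge, true, s, t, u => tNn t s u
  | Tok.ge, false, s, t, u => tPos s t u
  | _, true, s, t, u => tPos t s u
  | _, false, s, t, u => tNn s t u

/-- the relation tested by an atom -/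
def rel : Tok → ℝ → ℝ → Prop
  | Tok.lt, a, b => a < b
  | Tok.le, a, b => a ≤ b
  | Tok.eq, a, b => a = b
  | Tok.ge, a, b => a ≥ b
  | _, a, b => a > b

/-- truth with a sign -/
def sgn (b : Bool) (p : Prop) : Prop := if b then p else ¬ p

theorem ev_tPos (x : ℕ → ℝ) (a b u : Term) : (tPos a b u).ev x =
    ((b.ev x - a.ev x) * (u.ev x * u.ev x) - 1) * ((b.ev x - a.ev x) * (u.ev x * u.ev x) - 1) :=
  rfl
theorem ev_tNn (x : ℕ → ℝ) (a b u : Term) : (tNn a b u).ev x =
    (b.ev x - a.ev x - u.ev x * u.ev x) * (b.ev x - a.ev x - u.ev x * u.ev x) := rfl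
theorem ev_tZr (x : ℕ → ℝ) (a b : Term) : (tZr a b).ev x =
    (a.ev x - b.ev x) * (a.ev x - b.ev x) := rfl
theorem ev_tNz (x : ℕ → ℝ) (a b u : Term) : (tNz a b u).ev x =
    ((a.ev x - b.ev x) * u.ev x - 1) * ((a.ev x - b.ev x) * u.ev x - 1) := rfl

theorem atomT_nonneg (g : Tok) (b : Bool) (s t u : Term) (x : ℕ → ℝ) :
    0 ≤ (atomT g b s t u).ev x := by
  cases g <;> cases b <;> exact mul_self_nonneg _

theorem pos_iff (d u : ℝ) (h : (d * (u * u) - 1) * (d * (u * u) - 1) = 0) : 0 < d := by
  have h1 : d * (u * u) = 1 := by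
    have := mul_self_eq_zero.1 h
    linarith
  by_contra hd
  push Not at hd
  have : d * (u * u) ≤ 0 := mul_nonpos_of_nonpos_of_nonneg hd (mul_self_nonneg u)
  linarith

theorem nn_iff (d u : ℝ) (h : (d - u * u) * (d - u * u) = 0) : 0 ≤ d := by
  have h1 := mul_self_eq_zero.1 h
  have := mul_self_nonneg u
  linarith

theorem nz_iff (d u : ℝ) (h : (d * u - 1) * (d * u - 1) = 0) : d ≠ 0 := by
  have h1 := mul_self_eq_zero.1 h
  rintro rfl
  norm_num at h1

theorem atomT_sound (g : Tok) (b : Bool) (s t u : Term) (x : ℕ → ℝ)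
    (h : (atomT g b s t u).ev x = 0) : sgn b (rel g (s.ev x) (t.ev x)) := by
  cases g <;> cases b <;>
    simp only [atomT, ev_tPos, ev_tNn, ev_tZr, ev_tNz] at h <;>
    simp only [sgn, rel, if_true, Bool.false_eq_true, if_false, not_lt, not_le, ge_iff_le,
      gt_iff_lt] <;>
    first
      | (have := pos_iff _ _ h; linarith)
      | (have := nn_iff _ _ h; linarith)
      | (have := nz_iff _ _ h; intro h2; apply this; linarith)
      | (have := mul_self_eq_zero.1 h; linarith)

theorem atomT_complete (g : Tok) (b : Bool) (a c : ℝ) (h : sgn b (rel g a c)) :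
    ∃ w : ℝ, ∀ (s t u : Term) (x : ℕ → ℝ), s.ev x = a → t.ev x = c → u.ev x = w →
      (atomT g b s t u).ev x = 0 := by
  have e1 : ∀ d : ℝ, 0 < d → ∃ w : ℝ, (d * (w * w) - 1) * (d * (w * w) - 1) = 0 := by
    intro d hd
    refine ⟨1 / Real.sqrt d, ?_⟩
    have h1 : 1 / Real.sqrt d * (1 / Real.sqrt d) = 1 / d := by
      rw [div_mul_div_comm, one_mul, Real.mul_self_sqrt hd.le]
    rw [h1, mul_one_div_cancel hd.ne']; ring
  have e2 : ∀ d : ℝ, 0 ≤ d → ∃ w : ℝ, (d - w * w) * (d - w * w) = 0 := by
    intro d hd
    exact ⟨Real.sqrt d, by rw [Real.mul_self_sqrt hd]; ring⟩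
  have e3 : ∀ d : ℝ, d ≠ 0 → ∃ w : ℝ, (d * w - 1) * (d * w - 1) = 0 := by
    intro d hd
    exact ⟨1 / d, by rw [mul_one_div_cancel hd]; ring⟩
  cases g <;> cases b <;>
    simp only [sgn, rel, if_true, Bool.false_eq_true, if_false, not_lt, not_le, ge_iff_le,
      gt_iff_lt] at h <;>
    first
      | (obtain ⟨w, hw⟩ := e1 (c - a) (by linarith)
         refine ⟨w, fun s t u x hs ht hu => ?_⟩
         simp only [atomT, ev_tPos, hs, ht, hu]; exact hw)
      | (obtain ⟨w, hw⟩ := e1 (a - c) (by linarith)
         refine ⟨w, fun s t u x hs ht hu => ?_⟩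
         simp only [atomT, ev_tPos, hs, ht, hu]; exact hw)
      | (obtain ⟨w, hw⟩ := e2 (c - a) (by linarith)
         refine ⟨w, fun s t u x hs ht hu => ?_⟩
         simp only [atomT, ev_tNn, hs, ht, hu]; exact hw)
      | (obtain ⟨w, hw⟩ := e2 (a - c) (by linarith)
         refine ⟨w, fun s t u x hs ht hu => ?_⟩
         simp only [atomT, ev_tNn, hs, ht, hu]; exact hw)
      | (obtain ⟨w, hw⟩ := e3 (a - c) (sub_ne_zero.2 h)
         refine ⟨w, fun s t u x hs ht hu => ?_⟩
         simp only [atomT, ev_tNz, hs, ht, hu]; exact hw)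
      | (refine ⟨0, fun s t u x hs ht hu => ?_⟩
         simp only [atomT, ev_tZr, hs, ht, h]; ring)

section

variable (rI Z N : ℕ)

/-- scaled variables -/
def sc : Term → Term
  | Term.zero => Term.zero
  | Term.one => Term.one
  | Term.var i => Term.mul (Term.var rI) (Term.var (Z + i))
  | Term.add s t => Term.add (sc s) (sc t)
  | Term.sub s t => Term.sub (sc s) (sc t)
  | Term.mul s t => Term.mul (sc s) (sc t)

/-- slack variable -/
def sl (k : ℕ) : Term := Term.mul (Term.var rI) (Term.var (Z + (N + k)))

/-- the polynomial attached to a formula, a sign, and the number of symbols to the right -/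
def pol : Bool → Form → ℕ → Term
  | b, Form.lt s t, k => atomT Tok.lt b (sc rI Z s) (sc rI Z t) (sl rI Z N (s.toks.length + t.toks.length + k))
  | b, Form.le s t, k => atomT Tok.le b (sc rI Z s) (sc rI Z t) (sl rI Z N (s.toks.length + t.toks.length + k))
  | b, Form.eq s t, k => atomT Tok.eq b (sc rI Z s) (sc rI Z t) (sl rI Z N (s.toks.length + t.toks.length + k))
  | b, Form.ge s t, k => atomT Tok.ge b (sc rI Z s) (sc rI Z t) (sl rI Z N (s.toks.length + t.toks.length + k))
  | b, Form.gt s t, k => atomT Tok.gt b (sc rI Z s) (sc rI Z t) (sl rI Z N (s.toks.length + t.toks.length + k))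
  | true, Form.and p q, k => Term.add (pol true p (q.toks.length + k)) (pol true q k)
  | false, Form.and p q, k => Term.mul (pol false p (q.toks.length + k)) (pol false q k)
  | true, Form.or p q, k => Term.mul (pol true p (q.toks.length + k)) (pol true q k)
  | false, Form.or p q, k => Term.add (pol false p (q.toks.length + k)) (pol false q k)
  | b, Form.not p, k => pol (!b) p k

theorem ev_sc (x : ℕ → ℝ) (t : Term) : (sc rI Z t).ev x =
    t.eval (fun i => x rI * x (Z + i)) := by
  induction t with
  | zero => rfl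
  | one => rfl
  | var i => rfl
  | add s t ihs iht | sub s t ihs iht | mul s t ihs iht =>
    simp only [sc, Term.ev, Term.eval, ihs, iht]

theorem ev_sl (x : ℕ → ℝ) (k : ℕ) : (sl rI Z N k).ev x = x rI * x (Z + (N + k)) := rfl

theorem pol_nonneg (x : ℕ → ℝ) (p : Form) : ∀ (b : Bool) (k : ℕ),
    0 ≤ (pol rI Z N b p k).ev x := by
  induction p with
  | lt s t | le s t | eq s t | ge s t | gt s t =>
    intro b k
    cases b <;> exact atomT_nonneg _ _ _ _ _ _
  | and p q ihp ihq =>
    intro b k
    cases b
    · exact mul_nonneg (ihp _ _) (ihq _ _)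
    · exact add_nonneg (ihp _ _) (ihq _ _)
  | or p q ihp ihq =>
    intro b k
    cases b
    · exact add_nonneg (ihp _ _) (ihq _ _)
    · exact mul_nonneg (ihp _ _) (ihq _ _)
  | not p ih =>
    intro b k
    cases b <;> exact ih _ _

theorem pol_sound (x : ℕ → ℝ) (p : Form) : ∀ (b : Bool) (k : ℕ),
    (pol rI Z N b p k).ev x = 0 → sgn b (p.Holds (fun i => x rI * x (Z + i))) := by
  have hat : ∀ (g : Tok) (b : Bool) (s t u : Term), (atomT g b (sc rI Z s) (sc rI Z t) u).ev x = 0 →
      sgn b (rel g (s.eval (fun i => x rI * x (Z + i))) (t.eval (fun i => x rI * x (Z + i)))) := by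
    intro g b s t u h
    have := atomT_sound _ _ _ _ _ _ h
    rwa [ev_sc, ev_sc] at this
  induction p with
  | lt s t => intro b k h; cases b <;> exact hat Tok.lt _ s t _ h
  | le s t => intro b k h; cases b <;> exact hat Tok.le _ s t _ h
  | eq s t => intro b k h; cases b <;> exact hat Tok.eq _ s t _ h
  | ge s t => intro b k h; cases b <;> exact hat Tok.ge _ s t _ h
  | gt s t => intro b k h; cases b <;> exact hat Tok.gt _ s t _ h
  | and p q ihp ihq =>
    intro b k h
    have hp := pol_nonneg rI Z N x p b (q.toks.length + k)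
    have hq := pol_nonneg rI Z N x q b k
    cases b
    · simp only [pol, Term.ev] at h
      simp only [sgn, Bool.false_eq_true, if_false, Form.Holds] at *
      rcases mul_eq_zero.1 h with h | h
      · exact fun hc => ihp false _ h hc.1
      · exact fun hc => ihq false _ h hc.2
    · simp only [pol, Term.ev] at h
      simp only [sgn, if_true, Form.Holds] at *
      exact ⟨ihp true _ (by linarith), ihq true _ (by linarith)⟩
  | or p q ihp ihq =>
    intro b k h
    have hp := pol_nonneg rI Z N x p b (q.toks.length + k)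
    have hq := pol_nonneg rI Z N x q b k
    cases b
    · simp only [pol, Term.ev] at h
      simp only [sgn, Bool.false_eq_true, if_false, Form.Holds] at *
      rintro (hc | hc)
      · exact ihp false _ (by linarith) hc
      · exact ihq false _ (by linarith) hc
    · simp only [pol, Term.ev] at h
      simp only [sgn, if_true, Form.Holds] at *
      rcases mul_eq_zero.1 h with h | h
      · exact Or.inl (ihp true _ h)
      · exact Or.inr (ihq true _ h)
  | not p ih =>
    intro b k h
    cases b
    · have := ih true k h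
      simp only [sgn, if_true, Bool.false_eq_true, if_false, Form.Holds, not_not] at *
      exact this
    · have := ih false k h
      simp only [sgn, if_true, Bool.false_eq_true, if_false, Form.Holds, not_not] at *
      exact this

theorem eval_agree (x y : ℕ → ℝ) (t : Term) (h : ∀ i < t.toks.length, x i = y i) :
    t.eval x = t.eval y := by
  induction t with
  | zero => rfl
  | one => rfl
  | var i => exact h i (by simp [Term.toks])
  | add s t ihs iht | sub s t ihs iht | mul s t ihs iht =>
    simp only [Term.toks, List.length_cons, List.length_append] at h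
    simp only [Term.eval, ihs fun i hi => h i (by omega), iht fun i hi => h i (by omega)]

theorem pol_complete (y : ℕ → ℝ) (p : Form) : ∀ (b : Bool) (k : ℕ), sgn b (p.Holds y) →
    ∃ u : ℕ → ℝ, ∀ x : ℕ → ℝ, (∀ i < p.toks.length, x rI * x (Z + i) = y i) →
      (∀ j, k ≤ j → j < k + p.toks.length → x rI * x (Z + (N + j)) = u j) →
      (pol rI Z N b p k).ev x = 0 := by
  have hatom : ∀ (g : Tok) (F : Form) (b : Bool) (s t : Term) (k : ℕ),
      pol rI Z N b F k = atomT g b (sc rI Z s) (sc rI Z t)
        (sl rI Z N (s.toks.length + t.toks.length + k)) →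
      F.toks.length = s.toks.length + t.toks.length + 1 →
      sgn b (rel g (s.eval y) (t.eval y)) →
      ∃ u : ℕ → ℝ, ∀ x : ℕ → ℝ,
      (∀ i < F.toks.length, x rI * x (Z + i) = y i) →
      (∀ j, k ≤ j → j < k + F.toks.length → x rI * x (Z + (N + j)) = u j) →
      (pol rI Z N b F k).ev x = 0 := by
    intro g F b s t k hF hlen h
    obtain ⟨w, hw⟩ := atomT_complete g b _ _ h
    rw [hlen, hF]
    refine ⟨fun _ => w, fun x hx hu => hw _ _ _ _ ?_ ?_ ?_⟩
    · rw [ev_sc]
      exact eval_agree _ _ _ (fun i hi => hx i (by omega))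
    · rw [ev_sc]
      exact eval_agree _ _ _ (fun i hi => hx i (by omega))
    · rw [ev_sl]
      exact hu _ (by omega) (by omega)
  have hbin : ∀ (p q : Form) (b b' : Bool) (k : ℕ),
      (∃ u : ℕ → ℝ, ∀ x : ℕ → ℝ, (∀ i < p.toks.length, x rI * x (Z + i) = y i) →
        (∀ j, q.toks.length + k ≤ j → j < q.toks.length + k + p.toks.length →
          x rI * x (Z + (N + j)) = u j) → (pol rI Z N b p (q.toks.length + k)).ev x = 0) →
      (∃ u : ℕ → ℝ, ∀ x : ℕ → ℝ, (∀ i < q.toks.length, x rI * x (Z + i) = y i) →
        (∀ j, k ≤ j → j < k + q.toks.length → x rI * x (Z + (N + j)) = u j) →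
        (pol rI Z N b' q k).ev x = 0) →
      ∃ u : ℕ → ℝ, ∀ x : ℕ → ℝ,
        (∀ i < p.toks.length + q.toks.length + 1, x rI * x (Z + i) = y i) →
        (∀ j, k ≤ j → j < k + (p.toks.length + q.toks.length + 1) →
          x rI * x (Z + (N + j)) = u j) →
        (pol rI Z N b p (q.toks.length + k)).ev x = 0 ∧ (pol rI Z N b' q k).ev x = 0 := by
    rintro p q b b' k ⟨u1, h1⟩ ⟨u2, h2⟩
    refine ⟨fun j => if j < k + q.toks.length then u2 j else u1 j, fun x hx hu => ⟨?_, ?_⟩⟩
    · refine h1 x (fun i hi => hx i (by omega)) fun j hj1 hj2 => ?_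
      rw [hu j (by omega) (by omega)]
      exact if_neg (by omega)
    · refine h2 x (fun i hi => hx i (by omega)) fun j hj1 hj2 => ?_
      rw [hu j (by omega) (by omega)]
      exact if_pos (by omega)
  have hone1 : ∀ (p q : Form) (b : Bool) (k : ℕ),
      (∃ u : ℕ → ℝ, ∀ x : ℕ → ℝ, (∀ i < p.toks.length, x rI * x (Z + i) = y i) →
        (∀ j, q.toks.length + k ≤ j → j < q.toks.length + k + p.toks.length →
          x rI * x (Z + (N + j)) = u j) → (pol rI Z N b p (q.toks.length + k)).ev x = 0) →
      ∃ u : ℕ → ℝ, ∀ x : ℕ → ℝ,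
        (∀ i < p.toks.length + q.toks.length + 1, x rI * x (Z + i) = y i) →
        (∀ j, k ≤ j → j < k + (p.toks.length + q.toks.length + 1) →
          x rI * x (Z + (N + j)) = u j) →
        (pol rI Z N b p (q.toks.length + k)).ev x = 0 := by
    rintro p q b k ⟨u1, h1⟩
    refine ⟨u1, fun x hx hu => ?_⟩
    exact h1 x (fun i hi => hx i (by omega)) fun j hj1 hj2 => hu j (by omega) (by omega)
  have hone2 : ∀ (p q : Form) (b : Bool) (k : ℕ),
      (∃ u : ℕ → ℝ, ∀ x : ℕ → ℝ, (∀ i < q.toks.length, x rI * x (Z + i) = y i) →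
        (∀ j, k ≤ j → j < k + q.toks.length → x rI * x (Z + (N + j)) = u j) →
        (pol rI Z N b q k).ev x = 0) →
      ∃ u : ℕ → ℝ, ∀ x : ℕ → ℝ,
        (∀ i < p.toks.length + q.toks.length + 1, x rI * x (Z + i) = y i) →
        (∀ j, k ≤ j → j < k + (p.toks.length + q.toks.length + 1) →
          x rI * x (Z + (N + j)) = u j) →
        (pol rI Z N b q k).ev x = 0 := by
    rintro p q b k ⟨u1, h1⟩
    refine ⟨u1, fun x hx hu => ?_⟩
    exact h1 x (fun i hi => hx i (by omega)) fun j hj1 hj2 => hu j (by omega) (by omega)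
  induction p with
  | lt s t => intro b k h; exact hatom Tok.lt _ b s t k (by cases b <;> rfl) (by simp [Form.toks]) h
  | le s t => intro b k h; exact hatom Tok.le _ b s t k (by cases b <;> rfl) (by simp [Form.toks]) h
  | eq s t => intro b k h; exact hatom Tok.eq _ b s t k (by cases b <;> rfl) (by simp [Form.toks]) h
  | ge s t => intro b k h; exact hatom Tok.ge _ b s t k (by cases b <;> rfl) (by simp [Form.toks]) h
  | gt s t => intro b k h; exact hatom Tok.gt _ b s t k (by cases b <;> rfl) (by simp [Form.toks]) h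
  | and p q ihp ihq =>
    intro b k h
    have hlen : (Form.and p q).toks.length = p.toks.length + q.toks.length + 1 := by
      simp [Form.toks]
    rw [hlen]
    cases b
    · simp only [sgn, Bool.false_eq_true, if_false, Form.Holds] at h
      simp only [pol, Term.ev]
      by_cases hp : p.Holds y
      · have hq : ¬ q.Holds y := fun hq => h ⟨hp, hq⟩
        obtain ⟨u, hu⟩ := hone2 p q false k (ihq false k (by simpa [sgn] using hq))
        exact ⟨u, fun x hx hu' => by rw [hu x hx hu', mul_zero]⟩
      · obtain ⟨u, hu⟩ := hone1 p q false k (ihp false _ (by simpa [sgn] using hp))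
        exact ⟨u, fun x hx hu' => by rw [hu x hx hu', zero_mul]⟩
    · simp only [sgn, if_true, Form.Holds] at h
      simp only [pol, Term.ev]
      obtain ⟨u, hu⟩ := hbin p q true true k (ihp true _ (by simpa [sgn] using h.1))
        (ihq true k (by simpa [sgn] using h.2))
      exact ⟨u, fun x hx hu' => by rw [(hu x hx hu').1, (hu x hx hu').2, add_zero]⟩
  | or p q ihp ihq =>
    intro b k h
    have hlen : (Form.or p q).toks.length = p.toks.length + q.toks.length + 1 := by
      simp [Form.toks]
    rw [hlen]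
    cases b
    · simp only [sgn, Bool.false_eq_true, if_false, Form.Holds] at h
      push Not at h
      simp only [pol, Term.ev]
      obtain ⟨u, hu⟩ := hbin p q false false k (ihp false _ (by simpa [sgn] using h.1))
        (ihq false k (by simpa [sgn] using h.2))
      exact ⟨u, fun x hx hu' => by rw [(hu x hx hu').1, (hu x hx hu').2, add_zero]⟩
    · simp only [sgn, if_true, Form.Holds] at h
      simp only [pol, Term.ev]
      rcases h with hp | hq
      · obtain ⟨u, hu⟩ := hone1 p q true k (ihp true _ (by simpa [sgn] using hp))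
        exact ⟨u, fun x hx hu' => by rw [hu x hx hu', zero_mul]⟩
      · obtain ⟨u, hu⟩ := hone2 p q true k (ihq true k (by simpa [sgn] using hq))
        exact ⟨u, fun x hx hu' => by rw [hu x hx hu', mul_zero]⟩
  | not p ih =>
    intro b k h
    have hlen : (Form.not p).toks.length = p.toks.length + 1 := by simp [Form.toks]
    rw [hlen]
    have h2 : sgn (!b) (p.Holds y) := by
      cases b
      · simpa [sgn, Form.Holds] using h
      · simpa [sgn, Form.Holds] using h
    obtain ⟨u, hu⟩ := ih (!b) k h2
    refine ⟨u, fun x hx hu' => ?_⟩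
    have := hu x (fun i hi => hx i (by omega)) (fun j hj1 hj2 => hu' j (by omega) (by omega))
    cases b <;> exact this

theorem occ_sc (i : ℕ) (t : Term) (h : (sc rI Z t).Occ i) :
    i = rI ∨ ∃ j < t.toks.length, i = Z + j := by
  induction t with
  | zero => exact absurd h (by simp [sc, Term.Occ])
  | one => exact absurd h (by simp [sc, Term.Occ])
  | var j =>
    rcases h with h | h
    · exact Or.inl h.symm
    · exact Or.inr ⟨j, by simp [Term.toks], h.symm⟩
  | add s t ihs iht | sub s t ihs iht | mul s t ihs iht =>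
    simp only [Term.toks, List.length_cons, List.length_append]
    rcases h with h | h
    · rcases ihs h with h | ⟨j, hj, h⟩
      · exact Or.inl h
      · exact Or.inr ⟨j, by omega, h⟩
    · rcases iht h with h | ⟨j, hj, h⟩
      · exact Or.inl h
      · exact Or.inr ⟨j, by omega, h⟩

theorem occ_atomT (g : Tok) (b : Bool) (s t u : Term) (i : ℕ) (h : (atomT g b s t u).Occ i) :
    s.Occ i ∨ t.Occ i ∨ u.Occ i := by
  cases g <;> cases b <;>
    simp only [atomT, tPos, tNn, tZr, tNz, tSq, Term.Occ, or_self, or_false] at h <;> tauto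

theorem occ_pol (i : ℕ) (p : Form) : ∀ (b : Bool) (k : ℕ), (pol rI Z N b p k).Occ i →
    i = rI ∨ (∃ j < p.toks.length, i = Z + j) ∨
      ∃ j, k ≤ j ∧ j < k + p.toks.length ∧ i = Z + (N + j) := by
  have hat : ∀ (g : Tok) (F : Form) (b : Bool) (s t : Term) (k : ℕ),
      pol rI Z N b F k = atomT g b (sc rI Z s) (sc rI Z t)
        (sl rI Z N (s.toks.length + t.toks.length + k)) →
      F.toks.length = s.toks.length + t.toks.length + 1 →
      (pol rI Z N b F k).Occ i →
      i = rI ∨ (∃ j < F.toks.length, i = Z + j) ∨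
      ∃ j, k ≤ j ∧ j < k + F.toks.length ∧ i = Z + (N + j) := by
    intro g F b s t k hF hlen h
    rw [hF] at h
    rw [hlen]
    rcases occ_atomT _ _ _ _ _ _ h with h | h | h
    · rcases occ_sc _ _ _ _ h with h | ⟨j, hj, h⟩
      · exact Or.inl h
      · exact Or.inr (Or.inl ⟨j, by omega, h⟩)
    · rcases occ_sc _ _ _ _ h with h | ⟨j, hj, h⟩
      · exact Or.inl h
      · exact Or.inr (Or.inl ⟨j, by omega, h⟩)
    · rcases h with h | h
      · exact Or.inl h.symm
      · exact Or.inr (Or.inr ⟨_, by omega, by omega, h.symm⟩)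
  have hbin : ∀ (p q : Form) (b b' : Bool) (k : ℕ)
      (_ : (pol rI Z N b p (q.toks.length + k)).Occ i → i = rI ∨ (∃ j < p.toks.length, i = Z + j) ∨
        ∃ j, q.toks.length + k ≤ j ∧ j < q.toks.length + k + p.toks.length ∧ i = Z + (N + j))
      (_ : (pol rI Z N b' q k).Occ i → i = rI ∨ (∃ j < q.toks.length, i = Z + j) ∨
        ∃ j, k ≤ j ∧ j < k + q.toks.length ∧ i = Z + (N + j)),
      ((pol rI Z N b p (q.toks.length + k)).Occ i ∨ (pol rI Z N b' q k).Occ i) →
      i = rI ∨ (∃ j < p.toks.length + q.toks.length + 1, i = Z + j) ∨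
        ∃ j, k ≤ j ∧ j < k + (p.toks.length + q.toks.length + 1) ∧ i = Z + (N + j) := by
    rintro p q b b' k hp hq (h | h)
    · rcases hp h with h | ⟨j, hj, h⟩ | ⟨j, hj, hj', h⟩
      · exact Or.inl h
      · exact Or.inr (Or.inl ⟨j, by omega, h⟩)
      · exact Or.inr (Or.inr ⟨j, by omega, by omega, h⟩)
    · rcases hq h with h | ⟨j, hj, h⟩ | ⟨j, hj, hj', h⟩
      · exact Or.inl h
      · exact Or.inr (Or.inl ⟨j, by omega, h⟩)
      · exact Or.inr (Or.inr ⟨j, by omega, by omega, h⟩)
  induction p with
  | lt s t => intro b k h; exact hat Tok.lt _ b s t k (by cases b <;> rfl) (by simp [Form.toks]) h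
  | le s t => intro b k h; exact hat Tok.le _ b s t k (by cases b <;> rfl) (by simp [Form.toks]) h
  | eq s t => intro b k h; exact hat Tok.eq _ b s t k (by cases b <;> rfl) (by simp [Form.toks]) h
  | ge s t => intro b k h; exact hat Tok.ge _ b s t k (by cases b <;> rfl) (by simp [Form.toks]) h
  | gt s t => intro b k h; exact hat Tok.gt _ b s t k (by cases b <;> rfl) (by simp [Form.toks]) h
  | and p q ihp ihq =>
    intro b k h
    have hlen : (Form.and p q).toks.length = p.toks.length + q.toks.length + 1 := by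
      simp [Form.toks]
    rw [hlen]
    refine hbin p q b b k (ihp b _) (ihq b k) ?_
    cases b <;> exact h
  | or p q ihp ihq =>
    intro b k h
    have hlen : (Form.or p q).toks.length = p.toks.length + q.toks.length + 1 := by
      simp [Form.toks]
    rw [hlen]
    refine hbin p q b b k (ihp b _) (ihq b k) ?_
    cases b <;> exact h
  | not p ih =>
    intro b k h
    have hlen : (Form.not p).toks.length = p.toks.length + 1 := by simp [Form.toks]
    rw [hlen]
    have h2 : (pol rI Z N (!b) p k).Occ i := by cases b <;> exact h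
    rcases ih (!b) k h2 with h | ⟨j, hj, h⟩ | ⟨j, hj, hj', h⟩
    · exact Or.inl h
    · exact Or.inr (Or.inl ⟨j, by omega, h⟩)
    · exact Or.inr (Or.inr ⟨j, by omega, by omega, h⟩)

theorem nd_sc (t : Term) : (sc rI Z t).nd ≤ 3 * t.toks.length := by
  induction t with
  | zero => simp [sc, Term.nd, Term.toks]
  | one => simp [sc, Term.nd, Term.toks]
  | var i => simp only [sc, Term.nd, Term.toks, List.length_cons]; omega
  | add s t ihs iht | sub s t ihs iht | mul s t ihs iht =>
    simp only [sc, Term.nd, Term.toks, List.length_cons, List.length_append]; omega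

theorem nd_atomT (g : Tok) (b : Bool) (s t u : Term) :
    (atomT g b s t u).nd ≤ 2 * (s.nd + t.nd) + 4 * u.nd + 15 := by
  cases g <;> cases b <;> simp only [atomT, tPos, tNn, tZr, tNz, tSq, Term.nd] <;> omega

theorem nd_pol (p : Form) : ∀ (b : Bool) (k : ℕ),
    (pol rI Z N b p k).nd ≤ 27 * p.toks.length := by
  have hat : ∀ (g : Tok) (b : Bool) (s t : Term) (k : ℕ),
      (atomT g b (sc rI Z s) (sc rI Z t) (sl rI Z N k)).nd ≤
        27 * (s.toks.length + t.toks.length + 1) := by
    intro g b s t k
    have h1 := nd_atomT g b (sc rI Z s) (sc rI Z t) (sl rI Z N k)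
    have h2 := nd_sc rI Z s
    have h3 := nd_sc rI Z t
    have h4 : (sl rI Z N k).nd = 3 := rfl
    omega
  induction p with
  | lt s t | le s t | eq s t | ge s t | gt s t =>
    intro b k
    simp only [Form.toks, List.length_cons, List.length_append]
    cases b <;> exact hat _ _ s t _
  | and p q ihp ihq | or p q ihp ihq =>
    intro b k
    simp only [Form.toks, List.length_cons, List.length_append]
    have h1 := ihp b (q.toks.length + k)
    have h2 := ihq b k
    cases b <;> simp only [pol, Term.nd] <;> omega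
  | not p ih =>
    intro b k
    simp only [Form.toks, List.length_cons]
    have h1 := ih (!b) k
    cases b
    · have : (pol rI Z N false (Form.not p) k).nd = (pol rI Z N true p k).nd := rfl
      simp only [Bool.not_false] at h1
      omega
    · have : (pol rI Z N true (Form.not p) k).nd = (pol rI Z N false p k).nd := rfl
      simp only [Bool.not_true] at h1
      omega

end

end Pool.Agent.Helper54.ETR
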