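import Pool.Agent.Helper54.Rg.Basic

open Finset

namespace Pool.Agent.Helper54.ETR

/-- index of the `k`-th parameter in the chain of repeated squares -/
def cv (M0 M1 k : ℕ) : ℕ := M0 + k * M1

/-- `∑_{j<k} x_{Z+j}^2` -/
def sqs (Z : ℕ) : ℕ → Term
  | 0 => Term.zero
  | j + 1 => Term.add (sqs Z j) (Term.mul (Term.var (Z + j)) (Term.var (Z + j)))

/-- `∑_{j<k} x_{b j} * x_{Z+j}` -/
def lin (b : ℕ → ℕ) (Z : ℕ) : ℕ → Term
  | 0 => Term.zero
  | j + 1 => Term.add (lin b Z j) (Term.mul (Term.var (b j)) (Term.var (Z + j)))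

/-- number of chain variables -/
def zz (m M0 M1 : ℕ) : ℕ := cv M0 M1 (m + 3) + 1

/-- the objective function -/
def TG (P : Term) (m M0 M1 : ℕ) : Term :=
  Term.add (Term.mul (Term.var (cv M0 M1 (m + 3)))
      (Term.add P (Term.mul (Term.sub (sqs (zz m M0 M1) m) Term.one)
        (Term.sub (sqs (zz m M0 M1) m) Term.one))))
    (Term.mul (Term.var (cv M0 M1 (m + 1))) (sqs (zz m M0 M1) m))

/-- the `i`-th equation of the chain -/
def chainT : ℕ → Term
  | 0 => Term.sub (Term.var 0) (Term.add Term.one Term.one)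
  | i + 1 => Term.sub (Term.var (i + 1)) (Term.mul (Term.var i) (Term.var i))

/-- the `j`-th gradient equation -/
def gradT (P : Term) (m M0 M1 j : ℕ) : Term :=
  Term.sub ((TG P m M0 M1).dv (zz m M0 M1 + j)) (Term.var (cv M0 M1 (j + 1)))

/-- the last equation -/
def lastT (P : Term) (m M0 M1 : ℕ) : Term :=
  Term.sub (Term.add (Term.sub (TG P m M0 M1) (lin (fun j => cv M0 M1 (j + 1)) (zz m M0 M1) m))
    (Term.mul (Term.var (zz m M0 M1 + m)) (Term.var (zz m M0 M1 + m))))
    (Term.var (cv M0 M1 (m + 2)))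

/-- the square system -/
def sysT (P : Term) (m M0 M1 : ℕ) : List Term :=
  (List.range (zz m M0 M1)).map chainT ++ ((List.range m).map (gradT P m M0 M1) ++
    [lastT P m M0 M1])

theorem sysT_length (P : Term) (m M0 M1 : ℕ) :
    (sysT P m M0 M1).length = zz m M0 M1 + m + 1 := by
  simp [sysT]; ring

theorem mem_sysT (P : Term) (m M0 M1 : ℕ) (t : Term) : t ∈ sysT P m M0 M1 ↔
    (∃ i < zz m M0 M1, chainT i = t) ∨ (∃ j < m, gradT P m M0 M1 j = t) ∨
      t = lastT P m M0 M1 := by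
  simp [sysT]

theorem forall_sysT (P : Term) (m M0 M1 : ℕ) (Q : Term → Prop) :
    (∀ t ∈ sysT P m M0 M1, Q t) ↔ (∀ i < zz m M0 M1, Q (chainT i)) ∧
      (∀ j < m, Q (gradT P m M0 M1 j)) ∧ Q (lastT P m M0 M1) := by
  constructor
  · intro h
    exact ⟨fun i hi => h _ ((mem_sysT _ _ _ _ _).2 (Or.inl ⟨i, hi, rfl⟩)),
      fun j hj => h _ ((mem_sysT _ _ _ _ _).2 (Or.inr (Or.inl ⟨j, hj, rfl⟩))),
      h _ ((mem_sysT _ _ _ _ _).2 (Or.inr (Or.inr rfl)))⟩
  · rintro ⟨h1, h2, h3⟩ t ht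
    rcases (mem_sysT _ _ _ _ _).1 ht with ⟨i, hi, rfl⟩ | ⟨j, hj, rfl⟩ | rfl
    · exact h1 i hi
    · exact h2 j hj
    · exact h3

section ring

variable {R : Type} [CommRing R]

theorem ev_sqs (x : ℕ → R) (Z : ℕ) : ∀ k, (sqs Z k).ev x = ∑ j ∈ range k, x (Z + j) ^ 2
  | 0 => by simp [sqs, Term.ev]
  | k + 1 => by
    rw [Finset.sum_range_succ, ← ev_sqs x Z k]
    simp only [sqs, Term.ev]
    ring

theorem ev_lin (x : ℕ → R) (b : ℕ → ℕ) (Z : ℕ) : ∀ k, (lin b Z k).ev x =
    ∑ j ∈ range k, x (b j) * x (Z + j)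
  | 0 => by simp [lin, Term.ev]
  | k + 1 => by
    rw [Finset.sum_range_succ, ← ev_lin x b Z k]
    simp only [lin, Term.ev]

theorem ev_dv_sqs (x : ℕ → R) (Z i : ℕ) : ∀ k, ((sqs Z k).dv (Z + i)).ev x =
    if i < k then 2 * x (Z + i) else 0
  | 0 => by simp [sqs, Term.dv, Term.ev]
  | k + 1 => by
    simp only [sqs, Term.dv, Term.ev, ev_dv_sqs x Z i k]
    by_cases h1 : i < k
    · have h2 : ¬ k = i := by omega
      simp [h1, h2, Term.ev, show i < k + 1 by omega]
    · by_cases h3 : i = k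
      · subst h3; simp [Term.ev]; ring
      · have h2 : ¬ k = i := by omega
        simp [h1, h2, Term.ev, show ¬ i < k + 1 by omega]

theorem ev_dv2_sqs (x : ℕ → R) (Z i j : ℕ) : ∀ k, (((sqs Z k).dv (Z + i)).dv (Z + j)).ev x =
    if i < k ∧ i = j then 2 else 0
  | 0 => by simp [sqs, Term.dv, Term.ev]
  | k + 1 => by
    simp only [sqs, Term.dv, Term.ev, ev_dv2_sqs x Z i j k]
    by_cases h1 : i < k
    · have h2 : ¬ Z + k = Z + i := by omega
      simp only [h1, h2, if_false, Term.dv, Term.ev, show i < k + 1 by omega, true_and]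
      simp
    · by_cases h3 : i = k
      · subst h3
        by_cases h4 : i = j
        · subst h4; simp [Term.ev, Term.dv]; norm_num
        · have h5 : ¬ Z + i = Z + j := by omega
          simp [Term.ev, Term.dv, h4, h5]
      · have h2 : ¬ Z + k = Z + i := by omega
        simp only [h1, h2, if_false, Term.dv, Term.ev, show ¬ i < k + 1 by omega, false_and]
        simp

theorem occ_sqs (Z i : ℕ) : ∀ k, (sqs Z k).Occ i → ∃ j < k, i = Z + j
  | 0 => fun h => absurd h (by simp [sqs, Term.Occ])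
  | k + 1 => by
    intro h
    rcases h with h | h
    · obtain ⟨j, hj, hi⟩ := occ_sqs Z i k h
      exact ⟨j, by omega, hi⟩
    · rcases h with h | h
      · exact ⟨k, by omega, h.symm⟩
      · exact ⟨k, by omega, h.symm⟩

theorem occ_lin (b : ℕ → ℕ) (Z i : ℕ) : ∀ k, (lin b Z k).Occ i →
    (∃ j < k, i = b j) ∨ ∃ j < k, i = Z + j
  | 0 => fun h => absurd h (by simp [lin, Term.Occ])
  | k + 1 => by
    intro h
    rcases h with h | h
    · rcases occ_lin b Z i k h with ⟨j, hj, hi⟩ | ⟨j, hj, hi⟩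
      · exact Or.inl ⟨j, by omega, hi⟩
      · exact Or.inr ⟨j, by omega, hi⟩
    · rcases h with h | h
      · exact Or.inl ⟨k, by omega, h.symm⟩
      · exact Or.inr ⟨k, by omega, h.symm⟩

theorem nd_sqs (Z : ℕ) : ∀ k, (sqs Z k).nd = 4 * k + 1
  | 0 => rfl
  | k + 1 => by simp only [sqs, Term.nd, nd_sqs Z k]; ring

end ring

theorem nd_TG (P : Term) (m M0 M1 : ℕ) : (TG P m M0 M1).nd = P.nd + 12 * m + 14 := by
  simp only [TG, Term.nd, nd_sqs]; ring

theorem cv_lt {M0 M1 k l : ℕ} (hM : 1 ≤ M1) (h : k < l) : cv M0 M1 k < cv M0 M1 l := by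
  unfold cv
  have : k * M1 < l * M1 := Nat.mul_lt_mul_of_pos_right h hM
  omega

theorem cv_lt_zz {m M0 M1 k : ℕ} (h : k ≤ m + 3) : cv M0 M1 k < zz m M0 M1 := by
  unfold zz cv
  have : k * M1 ≤ (m + 3) * M1 := Nat.mul_le_mul_right _ h
  omega

theorem occ_TG {P : Term} {m M0 M1 : ℕ} (hP : ∀ i, P.Occ i → i = cv M0 M1 0 ∨
      ∃ j < m, i = zz m M0 M1 + j) (i : ℕ) (h : (TG P m M0 M1).Occ i) :
    (i = cv M0 M1 0 ∨ i = cv M0 M1 (m + 1) ∨ i = cv M0 M1 (m + 3)) ∨
      ∃ j < m, i = zz m M0 M1 + j := by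
  rcases h with (h | (h | ((h | h) | (h | h)))) | (h | h)
  · exact Or.inl (Or.inr (Or.inr h.symm))
  · rcases hP i h with h | h
    · exact Or.inl (Or.inl h)
    · exact Or.inr h
  · exact Or.inr (occ_sqs _ _ _ h)
  · exact absurd h (by simp [Term.Occ])
  · exact Or.inr (occ_sqs _ _ _ h)
  · exact absurd h (by simp [Term.Occ])
  · exact Or.inl (Or.inr (Or.inl h.symm))
  · exact Or.inr (occ_sqs _ _ _ h)

/-- all variables are below the number of equations -/
theorem below_sysT {P : Term} {m M0 M1 : ℕ} (hP : ∀ i, P.Occ i → i = cv M0 M1 0 ∨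
      ∃ j < m, i = zz m M0 M1 + j) : ∀ t ∈ sysT P m M0 M1, t.Below (sysT P m M0 M1).length := by
  rw [sysT_length]
  have hTG : ∀ i, (TG P m M0 M1).Occ i → i < zz m M0 M1 + m + 1 := by
    intro i h
    rcases occ_TG hP i h with (h | h | h) | ⟨j, hj, h⟩
    · rw [h]; have := cv_lt_zz (M0 := M0) (M1 := M1) (show 0 ≤ m + 3 by omega); omega
    · rw [h]; have := cv_lt_zz (M0 := M0) (M1 := M1) (show m + 1 ≤ m + 3 by omega); omega
    · rw [h]; have := cv_lt_zz (M0 := M0) (M1 := M1) (show m + 3 ≤ m + 3 by omega); omega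
    · omega
  rw [forall_sysT]
  refine ⟨fun i hi => ?_, fun j hj => ?_, ?_⟩
  · cases i with
    | zero => exact ⟨show 0 < _ by omega, trivial, trivial⟩
    | succ i => exact ⟨show i + 1 < _ by omega, show i < _ by omega, show i < _ by omega⟩
  · refine ⟨(below_iff _ _).2 fun i hi => hTG i (occ_dv _ _ _ hi), ?_⟩
    show cv M0 M1 (j + 1) < _
    have := cv_lt_zz (M0 := M0) (M1 := M1) (show j + 1 ≤ m + 3 by omega)
    omega
  · refine ⟨⟨⟨(below_iff _ _).2 hTG, (below_iff _ _).2 ?_⟩, show zz m M0 M1 + m < _ by omega,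
      show zz m M0 M1 + m < _ by omega⟩, ?_⟩
    · intro i hi
      rcases occ_lin _ _ _ _ hi with ⟨j, hj, h⟩ | ⟨j, hj, h⟩
      · rw [h]
        have := cv_lt_zz (M0 := M0) (M1 := M1) (show j + 1 ≤ m + 3 by omega)
        omega
      · omega
    · show cv M0 M1 (m + 2) < _
      have := cv_lt_zz (M0 := M0) (M1 := M1) (show m + 2 ≤ m + 3 by omega)
      omega

/-! ### the chain -/

theorem chain_val {x : ℕ → ℂ} {n : ℕ} (h : ∀ i < n, (chainT i).ev x = 0) :
    ∀ i < n, x i = 2 ^ 2 ^ i := by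
  intro i
  induction i with
  | zero =>
    intro hi
    have := h 0 hi
    simp only [chainT, Term.ev] at this
    rw [pow_zero, pow_one]
    have h2 : x 0 = 1 + 1 := sub_eq_zero.1 this
    rw [h2]; norm_num
  | succ i ih =>
    intro hi
    have := h (i + 1) hi
    simp only [chainT, Term.ev] at this
    rw [sub_eq_zero.1 this, ih (by omega), ← pow_add]
    congr 1
    rw [pow_succ]; ring

theorem chain_valR {x : ℕ → ℝ} {n : ℕ} (h : ∀ i < n, (chainT i).ev x = 0) :
    ∀ i < n, x i = 2 ^ 2 ^ i := by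
  intro i
  induction i with
  | zero =>
    intro hi
    have := h 0 hi
    simp only [chainT, Term.ev] at this
    rw [pow_zero, pow_one]
    have h2 : x 0 = 1 + 1 := sub_eq_zero.1 this
    rw [h2]; norm_num
  | succ i ih =>
    intro hi
    have := h (i + 1) hi
    simp only [chainT, Term.ev] at this
    rw [sub_eq_zero.1 this, ih (by omega), ← pow_add]
    congr 1
    rw [pow_succ]; ring

theorem chain_sat {R : Type} [CommRing R] {x : ℕ → R} {n : ℕ} (h : ∀ i < n, x i = 2 ^ 2 ^ i) :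
    ∀ i < n, (chainT i).ev x = 0 := by
  intro i hi
  cases i with
  | zero => simp only [chainT, Term.ev, h 0 hi]; norm_num
  | succ i =>
    simp only [chainT, Term.ev, h (i + 1) hi, h i (by omega)]
    rw [pow_succ 2 i, pow_mul]; ring

theorem chain_ker {x v : ℕ → ℂ} {n : ℕ} (h : ∀ i < n, (chainT i).der x v = 0) :
    ∀ i < n, v i = 0 := by
  intro i
  induction i with
  | zero =>
    intro hi
    have := h 0 hi
    simp only [chainT, Term.der, add_zero, sub_zero] at this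
    exact this
  | succ i ih =>
    intro hi
    have := h (i + 1) hi
    simp only [chainT, Term.der, ih (by omega), mul_zero, zero_mul, add_zero, sub_zero] at this
    exact this

end Pool.Agent.Helper54.ETR
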