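import Pool.Agent.Helper54.ETRSys
import Pool.Agent.Helper54.Poly.Arith
import Pool.Agent.Helper54.Rg.Sys

open Pool.Agent.Helper54.Poly

namespace Pool.Agent.Helper54.ETR

/-- the symbols of a variable -/
def vt (i : ℕ) : List Tok := Tok.x :: (List.replicate i Tok.s ++ [Tok.e])

theorem vt_eq (i : ℕ) : (Term.var i).toks = vt i := rfl

/-- symbols of a sum of products -/
def sumK (k : ℕ) (f g : ℕ → List Tok) : List Tok :=
  List.replicate k Tok.add ++ (Tok.zero :: (List.range k).flatMap fun j => Tok.mul :: (f j ++ g j))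

theorem sumK_succ (k : ℕ) (f g : ℕ → List Tok) : sumK (k + 1) f g =
    Tok.add :: (sumK k f g ++ (Tok.mul :: (f k ++ g k))) := by
  simp [sumK, List.range_succ, List.replicate_succ]

theorem sqs_toks (Z : ℕ) : ∀ k, (sqs Z k).toks = sumK k (fun j => vt (Z + j)) (fun j => vt (Z + j))
  | 0 => rfl
  | k + 1 => by rw [sumK_succ, ← sqs_toks Z k]; rfl

theorem lin_toks (b : ℕ → ℕ) (Z : ℕ) : ∀ k, (lin b Z k).toks =
    sumK k (fun j => vt (b j)) (fun j => vt (Z + j))
  | 0 => rfl
  | k + 1 => by rw [sumK_succ, ← lin_toks b Z k]; rfl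

/-- symbols of the sum of squares -/
def sqK (Z k : ℕ) : List Tok := sumK k (fun j => vt (Z + j)) (fun j => vt (Z + j))

def TGK (P : List Tok) (m M0 M1 : ℕ) : List Tok :=
  Tok.add :: ((Tok.mul :: (vt (cv M0 M1 (m + 3)) ++
      (Tok.add :: (P ++ (Tok.mul :: ((Tok.sub :: (sqK (zz m M0 M1) m ++ [Tok.one])) ++
        (Tok.sub :: (sqK (zz m M0 M1) m ++ [Tok.one])))))))) ++
    (Tok.mul :: (vt (cv M0 M1 (m + 1)) ++ sqK (zz m M0 M1) m)))

theorem TG_toks (P : Term) (m M0 M1 : ℕ) : (TG P m M0 M1).toks = TGK P.toks m M0 M1 := by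
  simp only [TG, Term.toks, sqs_toks, TGK, sqK, vt]

def chainK (i : ℕ) : List Tok :=
  Tok.sub :: (vt i ++ (if i = 0 then [Tok.add, Tok.one, Tok.one] else
    Tok.mul :: (vt (i - 1) ++ vt (i - 1))))

theorem chain_toks (i : ℕ) : (chainT i).toks = chainK i := by
  cases i with
  | zero => rfl
  | succ i => rfl

def lastK (G : List Tok) (m M0 M1 : ℕ) : List Tok :=
  Tok.sub :: ((Tok.add :: ((Tok.sub :: (G ++ sumK m (fun j => vt (cv M0 M1 (j + 1)))
      (fun j => vt (zz m M0 M1 + j)))) ++
    (Tok.mul :: (vt (zz m M0 M1 + m) ++ vt (zz m M0 M1 + m))))) ++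
    vt (cv M0 M1 (m + 2)))

theorem last_toks (P : Term) (m M0 M1 : ℕ) :
    (lastT P m M0 M1).toks = lastK (TGK P.toks m M0 M1) m M0 M1 := by
  rw [← TG_toks]
  simp only [lastT, Term.toks, lin_toks, lastK, vt]

/-- the conjunction, at the level of symbols -/
def conjK (init : List (List Tok)) (last : List Tok) : List Tok :=
  init.flatMap (fun l => Tok.and :: Tok.eq :: (l ++ [Tok.zero])) ++
    (Tok.eq :: (last ++ [Tok.zero]))

theorem conj_toks (init : List Term) : ∀ (last t : Term) (S : List Term),
    t :: S = init ++ [last] → (conj t S).toks = conjK (init.map Term.toks) last.toks := by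
  induction init with
  | nil =>
    intro last t S h
    simp only [List.nil_append, List.cons.injEq] at h
    obtain ⟨rfl, rfl⟩ := h
    rfl
  | cons a init ih =>
    intro last t S h
    simp only [List.cons_append, List.cons.injEq] at h
    obtain ⟨rfl, rfl⟩ := h
    cases hS : init ++ [last] with
    | nil => simp at hS
    | cons b S' =>
      have h1 := ih last b S' hS.symm
      change Tok.and :: ((Form.eq t Term.zero).toks ++ (conj b S').toks) = _
      rw [h1]
      simp [conjK, Form.toks, Term.toks]

/-! ### sizes -/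

theorem toks_le (B : ℕ) (t : Term) (h : ∀ i, t.Occ i → i ≤ B) :
    t.toks.length ≤ t.nd * (B + 2) := by
  induction t with
  | zero => simp [Term.toks, Term.nd]
  | one => simp [Term.toks, Term.nd]
  | var i =>
    have := h i rfl
    simp only [Term.toks, Term.nd, List.length_cons, List.length_append, List.length_replicate,
      List.length_nil]
    omega
  | add s t ihs iht | sub s t ihs iht | mul s t ihs iht =>
    simp only [Term.toks, Term.nd, List.length_cons, List.length_append]
    have h1 := ihs fun i hi => h i (Or.inl hi)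
    have h2 := iht fun i hi => h i (Or.inr hi)
    rw [Nat.add_mul, Nat.add_mul]
    omega

theorem dv_toks_le (J : ℕ) (t : Term) : (t.dv J).toks.length ≤ t.toks.length ^ 2 := by
  have hpos : ∀ t : Term, 1 ≤ t.toks.length := fun t => by cases t <;> simp [Term.toks]
  induction t with
  | zero => simp [Term.dv, Term.toks]
  | one => simp [Term.dv, Term.toks]
  | var i =>
    simp only [Term.dv]
    have h1 : 1 ≤ (Term.var i).toks.length ^ 2 := Nat.one_le_pow _ _ (hpos _)
    split
    · exact h1
    · exact h1
  | add s t ihs iht | sub s t ihs iht =>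
    have h1 := hpos s
    have h2 := hpos t
    simp only [Term.dv, Term.toks, List.length_cons, List.length_append] at *
    nlinarith
  | mul s t ihs iht =>
    have h1 := hpos s
    have h2 := hpos t
    simp only [Term.dv, Term.toks, List.length_cons, List.length_append] at *
    nlinarith

end Pool.Agent.Helper54.ETR
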