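import Pool.Agent.Helper54.ETRMain
import Pool.Agent.Helper54.Rg.Alg
import Pool.Agent.Helper54.Rg.Lib2
import Pool.Agent.Helper54.Rg.Toks
import Pool.Agent.Helper54.Rg.Pol

section
open Pool.Agent.Helper54.Poly

namespace Pool.Agent.Helper54.ETR

/-! ### the algebra computing derivatives -/

abbrev V2 := List Tok × List Tok

def dC0 : Tok → V2
  | Tok.e => ([Tok.e], [])
  | t => ([t], [Tok.zero])

def dC1 (t : Tok) (J : ℕ) (_ : ℕ) (v : V2) : V2 :=
  (t :: v.1, match t with
    | Tok.x => if decide (v.1.length = J + 1) then [Tok.one] else [Tok.zero]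
    | _ => [])

def dC2 (t : Tok) (v w : V2) : V2 :=
  (t :: (v.1 ++ w.1), match t with
    | Tok.add => Tok.add :: (v.2 ++ w.2)
    | Tok.sub => Tok.sub :: (v.2 ++ w.2)
    | Tok.mul => Tok.add :: ((Tok.mul :: (v.1 ++ w.2)) ++ (Tok.mul :: (v.2 ++ w.1)))
    | _ => [])

def A2 : Alg ℕ V2 where
  c0 t _ _ := dC0 t
  c1 := dC1
  c2 t _ _ := dC2 t

def sem2 (J : ℕ) : Ob → ℕ → V2
  | Ob.num i, _ => (List.replicate i Tok.s ++ [Tok.e], [])
  | Ob.tm t, _ => (t.toks, (t.dv J).toks)
  | Ob.fm p, _ => (p.toks, [])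

theorem sem2_ok (J : ℕ) : A2.Sem J (sem2 J) where
  zero _ := rfl
  one _ := rfl
  e _ := rfl
  s i k := by
    simp only [sem2, A2, dC1, List.replicate_succ, List.cons_append]
  x i k := by
    simp only [sem2, A2, dC1, Term.toks, Term.dv]
    by_cases h : i = J
    · subst h; simp [Term.toks]
    · simp [h, Term.toks]
  not _ _ := rfl
  add _ _ _ := rfl
  sub _ _ _ := rfl
  mul _ _ _ := rfl
  lt _ _ _ := rfl
  le _ _ _ := rfl
  eq _ _ _ := rfl
  ge _ _ _ := rfl
  gt _ _ _ := rfl
  and _ _ _ := rfl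
  or _ _ _ := rfl

theorem A2_pt : A2.IsPT where
  p0 t := PT.const _
  p1 t := by
    have h1 : PT (fun z : (ℕ × ℕ) × V2 => z.2.1) := PT.id.snd.fst
    have h2 : PT (fun z : (ℕ × ℕ) × V2 => z.1.1) := PT.id.fst.fst
    have h3 : ∀ t : Tok, PT (fun z : (ℕ × ℕ) × V2 => ((t :: z.2.1, []) : V2)) := fun t =>
      (PT.lcons (PT.const t) h1).pair (PT.const [])
    cases t
    case x =>
      exact (PT.lcons (PT.const _) h1).pair (PT.ite (PT.eqN (PT.length h1) (PT.succ h2))
        (PT.const _) (PT.const _))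
    all_goals exact h3 _
  p2 t := by
    have v1 : PT (fun z : (ℕ × ℕ) × (V2 × V2) => z.2.1.1) := PT.id.snd.fst.fst
    have v2 : PT (fun z : (ℕ × ℕ) × (V2 × V2) => z.2.1.2) := PT.id.snd.fst.snd
    have w1 : PT (fun z : (ℕ × ℕ) × (V2 × V2) => z.2.2.1) := PT.id.snd.snd.fst
    have w2 : PT (fun z : (ℕ × ℕ) × (V2 × V2) => z.2.2.2) := PT.id.snd.snd.snd
    have h3 : ∀ t : Tok, PT (fun z : (ℕ × ℕ) × (V2 × V2) => (t :: (z.2.1.1 ++ z.2.2.1) : List Tok)) :=
      fun t => PT.lcons (PT.const t) (PT.append v1 w1)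
    have h4 : ∀ t : Tok, PT (fun z : (ℕ × ℕ) × (V2 × V2) => (t :: (z.2.1.2 ++ z.2.2.2) : List Tok)) :=
      fun t => PT.lcons (PT.const t) (PT.append v2 w2)
    cases t
    case add => exact (h3 _).pair (h4 _)
    case sub => exact (h3 _).pair (h4 _)
    case mul =>
      exact (h3 _).pair (PT.lcons (PT.const _) (PT.append (PT.lcons (PT.const _)
        (PT.append v1 w2)) (PT.lcons (PT.const _) (PT.append v2 w1))))
    all_goals exact (h3 _).pair (PT.const [])

/-- first component of the top of the stack -/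
def topV {V : Type} (d : V) (o : ℕ × Option (List (SV V))) : V :=
  match o.2 with
  | none => d
  | some l => match l with
    | [] => d
    | v :: _ => v.2

theorem PTtopV {α V : Type} [TEnc α] [TEnc V] (d : V) {o : α → ℕ × Option (List (SV V))}
    (ho : PT o) : PT (fun a => topV d (o a)) := by
  have h0 : PT (fun z : α × List (SV V) => match z.2 with
      | [] => d
      | v :: _ => v.2) := by
    refine (PT.listCase (l := fun z : α × List (SV V) => z.2) PT.id.snd (PT.const d)
      (g := fun y => y.2.1.2) PT.id.snd.fst.snd).congr fun z => ?_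
    rcases z.2 with _ | ⟨v, t⟩ <;> rfl
  refine (PT.optCase ho.snd (PT.const d) h0).congr fun a => ?_
  unfold topV
  cases (o a).2 <;> rfl

/-- derivative at the level of symbols -/
def dvK (J : ℕ) (l : List Tok) : List Tok := (topV ([], []) (astate A2 J l)).2

theorem dvK_eq (J : ℕ) (t : Term) : dvK J t.toks = (t.dv J).toks := by
  unfold dvK
  have h := parse_term t [] [] rfl
  rw [List.append_nil] at h
  rw [astate_eq (sem2_ok J), h]
  rfl

theorem sem2_sz (J : ℕ) (o : Ob) (k : ℕ) :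
    sz (sem2 J o k) ≤ 18 * (o.toks.length + o.toks.length ^ 2) + 3 := by
  cases o with
  | num i =>
    have h1 := sz_toks (List.replicate i Tok.s ++ [Tok.e])
    simp only [sem2, sz_pair, sz_nil, Ob.toks]
    have h2 := Nat.zero_le ((List.replicate i Tok.s ++ [Tok.e]).length ^ 2)
    omega
  | tm t =>
    have h1 := sz_toks t.toks
    have h2 := sz_toks (t.dv J).toks
    have h3 := dv_toks_le J t
    simp only [sem2, sz_pair, Ob.toks]
    omega
  | fm p =>
    have h1 := sz_toks p.toks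
    simp only [sem2, sz_pair, sz_nil, Ob.toks]
    have h2 := Nat.zero_le (p.toks.length ^ 2)
    omega

theorem PTdvK {α : Type} [TEnc α] {J : α → ℕ} {l : α → List Tok} (hJ : PT J) (hl : PT l) :
    PT (fun a => dvK (J a) (l a)) := by
  obtain ⟨L, hL⟩ := hl.bound
  refine (PTtopV _ (PTastate A2_pt hJ hl sem2 sem2_ok (18 * (L + L ^ 2) + 3) ?_)).snd
  intro a o k hk
  refine (sem2_sz _ _ _).trans ?_
  have h1 : o.toks.length ≤ L.eval (sz a) := by
    have := (length_le_sz (l a)).trans (hL a)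
    omega
  have h2 := Nat.pow_le_pow_left h1 2
  simp only [Polynomial.eval_add, Polynomial.eval_mul, Polynomial.eval_ofNat,
    Polynomial.eval_pow]
  omega

end Pool.Agent.Helper54.ETR
end

section
open Pool.Agent.Helper54.Poly

namespace Pool.Agent.Helper54.ETR

/-! ### the algebra computing the polynomial of a formula -/

abbrev V1 := List Tok × (List Tok × List Tok)
abbrev C1 := ℕ × (ℕ × ℕ)

def qSq (a : List Tok) : List Tok := Tok.mul :: (a ++ a)
def qSub (a b : List Tok) : List Tok := Tok.sub :: (a ++ b)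
def qMul (a b : List Tok) : List Tok := Tok.mul :: (a ++ b)
def qPos (a b u : List Tok) : List Tok := qSq (qSub (qMul (qSub b a) (qMul u u)) [Tok.one])
def qNn (a b u : List Tok) : List Tok := qSq (qSub (qSub b a) (qMul u u))
def qZr (a b : List Tok) : List Tok := qSq (qSub a b)
def qNz (a b u : List Tok) : List Tok := qSq (qSub (qMul (qSub a b) u) [Tok.one])

/-- symbols of the polynomial of an atom -/
def atomK : Tok → Bool → List Tok → List Tok → List Tok → List Tok
  | Tok.lt, true, s, t, u => qPos s t u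
  | Tok.lt, false, s, t, u => qNn t s u
  | Tok.le, true, s, t, u => qNn s t u
  | Tok.le, false, s, t, u => qPos t s u
  | Tok.eq, true, s, t, _ => qZr s t
  | Tok.eq, false, s, t, u => qNz s t u
  | Tok.ge, true, s, t, u => qNn t s u
  | Tok.ge, false, s, t, u => qPos s t u
  | _, true, s, t, u => qPos t s u
  | _, false, s, t, u => qNn s t u

theorem atomK_eq (g : Tok) (b : Bool) (s t u : Term) :
    (atomT g b s t u).toks = atomK g b s.toks t.toks u.toks := by
  cases g <;> cases b <;> rfl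

/-- symbols of the slack variable -/
def slK (c : C1) (k : ℕ) : List Tok := qMul (vt c.1) (vt (c.2.1 + (c.2.2 + k)))

def pC0 (t : Tok) (c : C1) (_ : ℕ) : V1 :=
  match t with
  | Tok.e => (List.replicate c.2.1 Tok.s ++ [Tok.e], ([], []))
  | t => ([t], ([], []))

def pC1 (t : Tok) (c : C1) (_ : ℕ) (v : V1) : V1 :=
  match t with
  | Tok.s => (Tok.s :: v.1, ([], []))
  | Tok.x => (qMul (vt c.1) (Tok.x :: v.1), ([], []))
  | _ => ([], (v.2.2, v.2.1))

def pC2 (t : Tok) (c : C1) (k : ℕ) (v w : V1) : V1 :=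
  match t with
  | Tok.add => (Tok.add :: (v.1 ++ w.1), ([], []))
  | Tok.sub => (Tok.sub :: (v.1 ++ w.1), ([], []))
  | Tok.mul => (Tok.mul :: (v.1 ++ w.1), ([], []))
  | Tok.and => ([], (Tok.add :: (v.2.1 ++ w.2.1), Tok.mul :: (v.2.2 ++ w.2.2)))
  | Tok.or => ([], (Tok.mul :: (v.2.1 ++ w.2.1), Tok.add :: (v.2.2 ++ w.2.2)))
  | g => ([], (atomK g true v.1 w.1 (slK c k), atomK g false v.1 w.1 (slK c k)))

def A1 : Alg C1 V1 where
  c0 := pC0
  c1 := pC1
  c2 := pC2

def sem1 (c : C1) : Ob → ℕ → V1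
  | Ob.num i, _ => (List.replicate (c.2.1 + i) Tok.s ++ [Tok.e], ([], []))
  | Ob.tm t, _ => ((sc c.1 c.2.1 t).toks, ([], []))
  | Ob.fm p, k => ([], ((pol c.1 c.2.1 c.2.2 true p k).toks, (pol c.1 c.2.1 c.2.2 false p k).toks))

theorem slK_eq (c : C1) (k : ℕ) : (sl c.1 c.2.1 c.2.2 k).toks = slK c k := rfl

theorem sem1_atom (c : C1) (g : Tok) (a b : Term) (k : ℕ) :
    (([], ((atomT g true (sc c.1 c.2.1 a) (sc c.1 c.2.1 b) (sl c.1 c.2.1 c.2.2 k)).toks,
      (atomT g false (sc c.1 c.2.1 a) (sc c.1 c.2.1 b) (sl c.1 c.2.1 c.2.2 k)).toks)) : V1) =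
    ([], (atomK g true (sc c.1 c.2.1 a).toks (sc c.1 c.2.1 b).toks (slK c k),
      atomK g false (sc c.1 c.2.1 a).toks (sc c.1 c.2.1 b).toks (slK c k))) := by
  rw [atomK_eq, atomK_eq, slK_eq]

theorem sem1_ok (c : C1) : A1.Sem c (sem1 c) where
  zero _ := rfl
  one _ := rfl
  e _ := rfl
  s i k := by
    simp only [sem1, A1, pC1, ← Nat.add_assoc, List.replicate_succ, List.cons_append]
  x _ _ := rfl
  not _ _ := rfl
  add _ _ _ := rfl
  sub _ _ _ := rfl
  mul _ _ _ := rfl
  lt a b k := sem1_atom c Tok.lt a b _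
  le a b k := sem1_atom c Tok.le a b _
  eq a b k := sem1_atom c Tok.eq a b _
  ge a b k := sem1_atom c Tok.ge a b _
  gt a b k := sem1_atom c Tok.gt a b _
  and _ _ _ := rfl
  or _ _ _ := rfl

section pts

variable {α : Type} [TEnc α]

theorem PTvt {i : α → ℕ} (hi : PT i) : PT (fun a => vt (i a)) :=
  PT.lcons (PT.const _) (PT.append (PT.replicate hi (PT.const _)) (PT.const _))

theorem PTqb (t : Tok) {a b : α → List Tok} (ha : PT a) (hb : PT b) :
    PT (fun x => t :: (a x ++ b x)) := PT.lcons (PT.const _) (PT.append ha hb)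

theorem PTqPos {a b u : α → List Tok} (ha : PT a) (hb : PT b) (hu : PT u) :
    PT (fun x => qPos (a x) (b x) (u x)) := by
  have h := PTqb Tok.sub (PTqb Tok.mul (PTqb Tok.sub hb ha) (PTqb Tok.mul hu hu))
    (PT.const [Tok.one])
  exact PTqb Tok.mul h h

theorem PTqNn {a b u : α → List Tok} (ha : PT a) (hb : PT b) (hu : PT u) :
    PT (fun x => qNn (a x) (b x) (u x)) := by
  have h := PTqb Tok.sub (PTqb Tok.sub hb ha) (PTqb Tok.mul hu hu)
  exact PTqb Tok.mul h h

theorem PTqZr {a b : α → List Tok} (ha : PT a) (hb : PT b) :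
    PT (fun x => qZr (a x) (b x)) := by
  have h := PTqb Tok.sub ha hb
  exact PTqb Tok.mul h h

theorem PTqNz {a b u : α → List Tok} (ha : PT a) (hb : PT b) (hu : PT u) :
    PT (fun x => qNz (a x) (b x) (u x)) := by
  have h := PTqb Tok.sub (PTqb Tok.mul (PTqb Tok.sub ha hb) hu) (PT.const [Tok.one])
  exact PTqb Tok.mul h h

theorem PTatomK (g : Tok) (b : Bool) {s t u : α → List Tok} (hs : PT s) (ht : PT t) (hu : PT u) :
    PT (fun x => atomK g b (s x) (t x) (u x)) := by
  cases g <;> cases b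
  case lt.true => exact PTqPos hs ht hu
  case lt.false => exact PTqNn ht hs hu
  case le.true => exact PTqNn hs ht hu
  case le.false => exact PTqPos ht hs hu
  case eq.true => exact PTqZr hs ht
  case eq.false => exact PTqNz hs ht hu
  case ge.true => exact PTqNn ht hs hu
  case ge.false => exact PTqPos hs ht hu
  all_goals first | exact PTqPos ht hs hu | exact PTqNn hs ht hu

theorem PTslK {c : α → C1} {k : α → ℕ} (hc : PT c) (hk : PT k) :
    PT (fun x => slK (c x) (k x)) :=
  PTqb Tok.mul (PTvt hc.fst) (PTvt (PT.add hc.snd.fst (PT.add hc.snd.snd hk)))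

end pts

theorem A1_pt : A1.IsPT where
  p0 t := by
    have h : ∀ t : Tok, PT (fun _ : C1 × ℕ => (([t], ([], [])) : V1)) := fun t => PT.const _
    cases t
    case e =>
      exact (PT.append (PT.replicate PT.id.fst.snd.fst (PT.const _)) (PT.const _)).pair
        (PT.const _)
    all_goals exact h _
  p1 t := by
    have h1 : PT (fun z : (C1 × ℕ) × V1 => z.2.1) := PT.id.snd.fst
    have hd : PT (fun z : (C1 × ℕ) × V1 => (([], (z.2.2.2, z.2.2.1)) : V1)) :=
      (PT.const _).pair (PT.id.snd.snd.snd.pair PT.id.snd.snd.fst)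
    cases t
    case s => exact (PT.lcons (PT.const _) h1).pair (PT.const _)
    case x =>
      exact (PTqb Tok.mul (PTvt PT.id.fst.fst.fst) (PT.lcons (PT.const _) h1)).pair
        (PT.const _)
    all_goals exact hd
  p2 t := by
    have hc : PT (fun z : (C1 × ℕ) × (V1 × V1) => z.1.1) := PT.id.fst.fst
    have hk : PT (fun z : (C1 × ℕ) × (V1 × V1) => z.1.2) := PT.id.fst.snd
    have v1 : PT (fun z : (C1 × ℕ) × (V1 × V1) => z.2.1.1) := PT.id.snd.fst.fst
    have v2 : PT (fun z : (C1 × ℕ) × (V1 × V1) => z.2.1.2.1) := PT.id.snd.fst.snd.fst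
    have v3 : PT (fun z : (C1 × ℕ) × (V1 × V1) => z.2.1.2.2) := PT.id.snd.fst.snd.snd
    have w1 : PT (fun z : (C1 × ℕ) × (V1 × V1) => z.2.2.1) := PT.id.snd.snd.fst
    have w2 : PT (fun z : (C1 × ℕ) × (V1 × V1) => z.2.2.2.1) := PT.id.snd.snd.snd.fst
    have w3 : PT (fun z : (C1 × ℕ) × (V1 × V1) => z.2.2.2.2) := PT.id.snd.snd.snd.snd
    have hat : ∀ g : Tok, PT (fun z : (C1 × ℕ) × (V1 × V1) =>
        (([], (atomK g true z.2.1.1 z.2.2.1 (slK z.1.1 z.1.2),
          atomK g false z.2.1.1 z.2.2.1 (slK z.1.1 z.1.2))) : V1)) := fun g =>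
      (PT.const _).pair ((PTatomK g true v1 w1 (PTslK hc hk)).pair
        (PTatomK g false v1 w1 (PTslK hc hk)))
    cases t
    case add => exact (PTqb Tok.add v1 w1).pair (PT.const _)
    case sub => exact (PTqb Tok.sub v1 w1).pair (PT.const _)
    case mul => exact (PTqb Tok.mul v1 w1).pair (PT.const _)
    case and => exact (PT.const _).pair ((PTqb Tok.add v2 w2).pair (PTqb Tok.mul v3 w3))
    case or => exact (PT.const _).pair ((PTqb Tok.mul v2 w2).pair (PTqb Tok.add v3 w3))
    all_goals exact hat _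

/-- symbols of the polynomial of the formula with symbols `l` -/
def polK (c : C1) (l : List Tok) : List Tok := (topV ([], ([], [])) (astate A1 c l)).2.1

theorem polK_eq (c : C1) (p : Form) : polK c p.toks = (pol c.1 c.2.1 c.2.2 true p 0).toks := by
  unfold polK
  have h := parse_form p [] [] rfl
  rw [List.append_nil] at h
  rw [astate_eq (sem1_ok c), h]
  rfl

theorem sc_toks_le (c : C1) (t : Term) : (sc c.1 c.2.1 t).toks.length ≤
    3 * t.toks.length * (c.1 + c.2.1 + t.toks.length + 2) := by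
  have h1 := toks_le (c.1 + c.2.1 + t.toks.length) (sc c.1 c.2.1 t) (by
    intro i hi
    rcases occ_sc _ _ _ _ hi with h | ⟨j, hj, h⟩ <;> omega)
  exact h1.trans (Nat.mul_le_mul_right _ (nd_sc _ _ _))

theorem pol_toks_le (c : C1) (b : Bool) (p : Form) (k : ℕ) :
    (pol c.1 c.2.1 c.2.2 b p k).toks.length ≤
    27 * p.toks.length * (c.1 + c.2.1 + c.2.2 + k + p.toks.length + 2) := by
  have h1 := toks_le (c.1 + c.2.1 + c.2.2 + k + p.toks.length) (pol c.1 c.2.1 c.2.2 b p k) (by
    intro i hi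
    rcases occ_pol _ _ _ _ _ _ _ hi with h | ⟨j, hj, h⟩ | ⟨j, hj, hj', h⟩ <;> omega)
  exact h1.trans (Nat.mul_le_mul_right _ (nd_pol _ _ _ _ _ _))

theorem sem1_sz (c : C1) (o : Ob) (k M : ℕ) (h : o.toks.length + k ≤ M) :
    sz (sem1 c o k) ≤ 18 * (2 * (27 * M * (c.1 + c.2.1 + c.2.2 + M + 2)) + c.2.1 + M) + 9 := by
  cases o with
  | num i =>
    have h1 := sz_toks (List.replicate (c.2.1 + i) Tok.s ++ [Tok.e])
    simp only [List.length_append, List.length_replicate, List.length_singleton] at h1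
    simp only [sem1, sz_pair, sz_nil]
    simp only [Ob.toks, List.length_append, List.length_replicate, List.length_singleton] at h
    have h2 := Nat.zero_le (27 * M * (c.1 + c.2.1 + c.2.2 + M + 2))
    omega
  | tm t =>
    have h1 := sz_toks (sc c.1 c.2.1 t).toks
    have h2 := sc_toks_le c t
    simp only [Ob.toks] at h
    have h3 : 3 * t.toks.length * (c.1 + c.2.1 + t.toks.length + 2) ≤
        27 * M * (c.1 + c.2.1 + c.2.2 + M + 2) := Nat.mul_le_mul (by omega) (by omega)
    simp only [sem1, sz_pair, sz_nil]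
    omega
  | fm p =>
    have h1 := sz_toks (pol c.1 c.2.1 c.2.2 true p k).toks
    have h2 := sz_toks (pol c.1 c.2.1 c.2.2 false p k).toks
    have h3 := pol_toks_le c true p k
    have h4 := pol_toks_le c false p k
    simp only [Ob.toks] at h
    have h5 : 27 * p.toks.length * (c.1 + c.2.1 + c.2.2 + k + p.toks.length + 2) ≤
        27 * M * (c.1 + c.2.1 + c.2.2 + M + 2) := Nat.mul_le_mul (by omega) (by omega)
    simp only [sem1, sz_pair, sz_nil]
    omega

theorem PTpolK {α : Type} [TEnc α] {c : α → C1} {l : α → List Tok} (hc : PT c) (hl : PT l) :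
    PT (fun a => polK (c a) (l a)) := by
  obtain ⟨L, hL⟩ := hl.bound
  obtain ⟨S, hS⟩ := hc.bound
  refine (PTtopV _ (PTastate A1_pt hc hl sem1 sem1_ok
    (18 * (2 * (27 * L * (S + L + 2)) + S + L) + 9) ?_)).snd.fst
  intro a o k hk
  have h1 : (l a).length ≤ L.eval (sz a) := (length_le_sz (l a)).trans (hL a)
  refine (sem1_sz _ _ _ _ (hk.trans h1)).trans ?_
  have h2 := hS a
  have h3 : sz (c a) = sz (c a).1 + (sz (c a).2.1 + sz (c a).2.2 + 1) + 1 := by
    rw [← sz_pair, ← sz_pair]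
  rw [sz_nat, sz_nat, sz_nat] at h3
  have h4 : (c a).1 + (c a).2.1 + (c a).2.2 ≤ S.eval (sz a) := by omega
  have h5 : 27 * L.eval (sz a) * ((c a).1 + (c a).2.1 + (c a).2.2 + L.eval (sz a) + 2) ≤
    27 * L.eval (sz a) * (S.eval (sz a) + L.eval (sz a) + 2) :=
    Nat.mul_le_mul_left _ (by omega)
  simp only [Polynomial.eval_add, Polynomial.eval_mul, Polynomial.eval_ofNat]
  omega

end Pool.Agent.Helper54.ETR
end
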