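import Pool.Agent.Helper54.Rg.Params
import Pool.Agent.Helper54.Rg.AlgP

open Pool.Agent.Helper54.Poly

namespace Pool.Agent.Helper54.ETR

/-- symbols of all but the last equation -/
def initK (G : List Tok) (m M0 M1 : ℕ) : List (List Tok) :=
  (List.range (zz m M0 M1)).map chainK ++
    (List.range m).map fun j => Tok.sub :: (dvK (zz m M0 M1 + j) G ++ vt (cv M0 M1 (j + 1)))

/-- symbols of the conjunction of all equations -/
def sysK (G : List Tok) (m M0 M1 : ℕ) : List Tok :=
  conjK (initK G m M0 M1) (lastK G m M0 M1)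

theorem initK_eq (P : Term) (m M0 M1 : ℕ) : initK (TGK P.toks m M0 M1) m M0 M1 =
    ((List.range (zz m M0 M1)).map chainT ++ (List.range m).map (gradT P m M0 M1)).map
      Term.toks := by
  rw [← TG_toks]
  unfold initK
  rw [List.map_append, List.map_map, List.map_map]
  congr 1
  · exact List.map_congr_left fun i _ => (chain_toks i).symm
  · refine List.map_congr_left fun j _ => ?_
    rw [dvK_eq]
    rfl

theorem sysK_eq (P : Term) (m M0 M1 : ℕ) (t : Term) (S : List Term)
    (h : t :: S = sysT P m M0 M1) : (conj t S).toks = sysK (TGK P.toks m M0 M1) m M0 M1 := by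
  have h1 : t :: S = ((List.range (zz m M0 M1)).map chainT ++
      (List.range m).map (gradT P m M0 M1)) ++ [lastT P m M0 M1] := by
    rw [h, sysT, List.append_assoc]
  rw [conj_toks _ _ _ _ h1, sysK, initK_eq, last_toks]

/-- symbols of the objective function of a formula -/
def objK (l : List Tok) : List Tok :=
  TGK (polK (cv (pM0 l.length) (pM1 l.length) 0,
      (zz (2 * l.length + 1) (pM0 l.length) (pM1 l.length), l.length)) l)
    (2 * l.length + 1) (pM0 l.length) (pM1 l.length)

/-- the reduction, at the level of symbols -/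
def redK (l : List Tok) : List Tok :=
  sysK (objK l) (2 * l.length + 1) (pM0 l.length) (pM1 l.length)

theorem redK_eq (φ : Form) (t : Term) (S : List Term) (h : t :: S = mainSys φ) :
    (conj t S).toks = redK φ.toks := by
  rw [sysK_eq _ _ _ _ t S h, redK, objK, polK_eq]
  rfl

/-- is the parsed stack a single formula? -/
def isForm (o : ℕ × Option (List (SV V2))) : Bool :=
  match o.2 with
  | none => false
  | some l => match l with
    | [] => false
    | v :: t => match t with
      | [] => skd kF v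
      | _ :: _ => false

theorem isForm_iff (l : List Tok) : isForm (astate A2 0 l) = true ↔
    ∃ φ : Form, parse l = some [Ob.fm φ] := by
  rw [astate_eq (sem2_ok 0)]
  unfold isForm
  cases h : parse l with
  | none => simp
  | some st =>
    rcases st with _ | ⟨o, _ | ⟨o', st⟩⟩
    · simp [asem]
    · cases o with
      | num i => simp [asem, obk, skd, kN, kF]
      | tm t => simp [asem, obk, skd, kT, kF]
      | fm φ => simp [asem, obk, skd, kF]
    · simp [asem]

/-- code of the unsatisfiable system -/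
def badCode : List Bool := (conj badT []).code

/-- the reduction -/
def red (u : List Bool) : List Bool :=
  if (tk u).1.isEmpty && isForm (astate A2 0 (tk u).2) then (redK (tk u).2).flatMap Tok.bits
  else badCode

theorem red_spec (u : List Bool) : ∃ (t : Term) (S : List Term), Regular (t :: S) ∧
    red u = (conj t S).code ∧
    ((∃ φ : Form, u = φ.code ∧ ∃ x : ℕ → ℝ, φ.Holds x) ↔
      ∃ x : ℕ → ℝ, ∀ s ∈ t :: S, s.eval x = 0) := by
  by_cases h : ((tk u).1.isEmpty && isForm (astate A2 0 (tk u).2)) = true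
  · have h0 := h
    rw [Bool.and_eq_true, List.isEmpty_iff, isForm_iff] at h
    obtain ⟨h1, φ, h2⟩ := h
    have hu : u = φ.code := (decode_iff u φ).2 ⟨h1, h2⟩
    have hts : (tk u).2 = φ.toks := by rw [hu, Form.code, tk_complete]
    have hne : mainSys φ ≠ [] := by
      intro h3
      have h4 := congrArg List.length h3
      unfold mainSys at h4
      rw [sysT_length] at h4
      simp at h4
    obtain ⟨t, S, hS⟩ : ∃ t S, t :: S = mainSys φ := by
      cases h3 : mainSys φ with
      | nil => exact absurd h3 hne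
      | cons t S => exact ⟨t, S, rfl⟩
    refine ⟨t, S, ?_, ?_, ?_⟩
    · rw [hS]; exact mainSys_regular φ
    · unfold red
      rw [if_pos h0, hts, ← redK_eq φ t S hS]
      rfl
    · rw [hS, ← mainSys_iff]
      constructor
      · rintro ⟨ψ, hψ, x, hx⟩
        have : ψ = φ := code_injective (hψ.symm.trans hu)
        subst this
        exact ⟨x, hx⟩
      · rintro ⟨x, hx⟩
        exact ⟨φ, hu, x, hx⟩
  · refine ⟨badT, [], bad_regular, ?_, ?_⟩
    · unfold red
      rw [if_neg h]
      rfl
    · constructor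
      · rintro ⟨φ, hφ, -⟩
        exfalso
        apply h
        have h1 := (decode_iff u φ).1 hφ
        rw [Bool.and_eq_true, List.isEmpty_iff, isForm_iff]
        exact ⟨h1.1, φ, h1.2⟩
      · rintro ⟨x, hx⟩
        exact absurd hx (bad_real x)

/-! ### polynomial time -/

section pts

variable {α : Type} [TEnc α]

theorem PTlinN {N : α → ℕ} (hN : PT N) (a b : ℕ) : PT (fun x => a * N x + b) :=
  PT.add (PT.mul (PT.const a) hN) (PT.const b)

theorem PTpT {N : α → ℕ} (hN : PT N) : PT (fun x => pT (N x)) := by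
  unfold pT T0
  have hm := PTlinN hN 2 1
  have hP := PT.mul (PT.const 27) hN
  exact PT.mul (PT.add hm (PT.const 1)) (PT.add (PT.add hm (PT.pow (PT.add (PT.add hP
    (PT.mul (PT.const 12) hm)) (PT.const 14)) 4)) (PT.const 2))

theorem PTpQ {N : α → ℕ} (hN : PT N) : PT (fun x => pQ (N x)) := by
  unfold pQ Qb
  have hm := PT.add (PTlinN hN 2 1) (PT.const 1)
  have hn : PT (fun x => n1b (N x)) := by
    unfold n1b
    exact PT.add (PT.add (PT.mul (PT.const 27) hN) (PT.mul (PT.const 12) (PTlinN hN 2 1)))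
      (PT.const 14)
  have h1 := PT.add (PT.mul (PT.const 6) (PT.add hn (PT.const 2))) (PT.const 1)
  exact PT.add (PT.mul h1 hm) (PT.add (PT.const 1) (PT.mul (PT.add (PT.const 9)
    (PT.mul (PT.const 6) (PT.add (PT.add hn (PT.const 2)) (PT.add hn (PT.const 3)))))
    (PT.mul hm h1)))

theorem PTpM1 {N : α → ℕ} (hN : PT N) : PT (fun x => pM1 (N x)) := by
  unfold pM1
  have hm := PTlinN hN 2 5
  exact PT.add (PT.mul hm (PT.add (PT.mul hm (PTpT hN)) (PT.const 1)))
    (PT.add (PTpQ hN) (PTlinN hN 2 4))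

theorem PTpM0 {N : α → ℕ} (hN : PT N) : PT (fun x => pM0 (N x)) := by
  unfold pM0
  have hm := PTlinN hN 2 5
  exact PT.add (PT.add (PT.mul (PT.const 2) (PT.mul (PTpM1 hN) hm)) (PT.mul (PTpT hN) hm))
    (PT.add (PTpM1 hN) (PT.add (PT.const 2) (PTpQ hN)))

theorem PTcv {M0 M1 k : α → ℕ} (h0 : PT M0) (h1 : PT M1) (hk : PT k) :
    PT (fun x => cv (M0 x) (M1 x) (k x)) := PT.add h0 (PT.mul hk h1)

theorem PTzz {m M0 M1 : α → ℕ} (hm : PT m) (h0 : PT M0) (h1 : PT M1) :
    PT (fun x => zz (m x) (M0 x) (M1 x)) :=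
  PT.add (PTcv h0 h1 (PT.add hm (PT.const 3))) (PT.const 1)

theorem PTsumK {k : α → ℕ} {f g : α → ℕ → List Tok} (hk : PT k)
    (hf : PT (fun z : α × ℕ => f z.1 z.2)) (hg : PT (fun z : α × ℕ => g z.1 z.2)) :
    PT (fun x => sumK (k x) (f x) (g x)) := by
  have h1 : PT (fun z : α × ℕ => (Tok.mul :: (f z.1 z.2 ++ g z.1 z.2) : List Tok)) :=
    PTqb Tok.mul hf hg
  exact PT.append (PT.replicate hk (PT.const _)) (PT.lcons (PT.const _)
    (PT.flatMap h1 (PT.range hk)))

theorem PTsqK {Z k : α → ℕ} (hZ : PT Z) (hk : PT k) : PT (fun x => sqK (Z x) (k x)) := by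
  have h1 : PT (fun z : α × ℕ => vt (Z z.1 + z.2)) :=
    PTvt (PT.add (hZ.comp PT.id.fst) PT.id.snd)
  exact PTsumK (f := fun x j => vt (Z x + j)) (g := fun x j => vt (Z x + j)) hk h1 h1

theorem PTTGK {P : α → List Tok} {m M0 M1 : α → ℕ} (hP : PT P) (hm : PT m) (h0 : PT M0)
    (h1 : PT M1) : PT (fun x => TGK (P x) (m x) (M0 x) (M1 x)) := by
  have hz := PTzz hm h0 h1
  have hs := PTsqK hz hm
  have hs1 := PTqb Tok.sub hs (PT.const [Tok.one])
  exact PTqb Tok.add (PTqb Tok.mul (PTvt (PTcv h0 h1 (PT.add hm (PT.const 3))))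
    (PTqb Tok.add hP (PTqb Tok.mul hs1 hs1)))
    (PTqb Tok.mul (PTvt (PTcv h0 h1 (PT.add hm (PT.const 1)))) hs)

theorem PTchainK {i : α → ℕ} (hi : PT i) : PT (fun x => chainK (i x)) := by
  have h1 : PT (fun x => if decide (i x = 0) then [Tok.add, Tok.one, Tok.one] else
      Tok.mul :: (vt (i x - 1) ++ vt (i x - 1))) :=
    PT.ite (PT.eqN hi (PT.const 0)) (PT.const _)
      (PTqb Tok.mul (PTvt (PT.sub hi (PT.const 1))) (PTvt (PT.sub hi (PT.const 1))))
  refine (PTqb Tok.sub (PTvt hi) h1).congr fun x => ?_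
  unfold chainK
  by_cases h : i x = 0 <;> simp [h]

theorem PTinitK {G : α → List Tok} {m M0 M1 : α → ℕ} (hG : PT G) (hm : PT m) (h0 : PT M0)
    (h1 : PT M1) : PT (fun x => initK (G x) (m x) (M0 x) (M1 x)) := by
  have hz := PTzz hm h0 h1
  have a1 : PT (fun z : α × ℕ => chainK z.2) := PTchainK PT.id.snd
  have a2 : PT (fun z : α × ℕ => (Tok.sub :: (dvK (zz (m z.1) (M0 z.1) (M1 z.1) + z.2) (G z.1) ++
      vt (cv (M0 z.1) (M1 z.1) (z.2 + 1))) : List Tok)) :=
    PTqb Tok.sub (PTdvK (PT.add (hz.comp PT.id.fst) PT.id.snd) (hG.comp PT.id.fst))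
      (PTvt (PTcv (h0.comp PT.id.fst) (h1.comp PT.id.fst) (PT.succ PT.id.snd)))
  exact PT.append (PT.map a1 (PT.range hz)) (PT.map a2 (PT.range hm))

theorem PTlastK {G : α → List Tok} {m M0 M1 : α → ℕ} (hG : PT G) (hm : PT m) (h0 : PT M0)
    (h1 : PT M1) : PT (fun x => lastK (G x) (m x) (M0 x) (M1 x)) := by
  have hz := PTzz hm h0 h1
  have a1 : PT (fun z : α × ℕ => vt (cv (M0 z.1) (M1 z.1) (z.2 + 1))) :=
    PTvt (PTcv (h0.comp PT.id.fst) (h1.comp PT.id.fst) (PT.succ PT.id.snd))
  have a2 : PT (fun z : α × ℕ => vt (zz (m z.1) (M0 z.1) (M1 z.1) + z.2)) :=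
    PTvt (PT.add (hz.comp PT.id.fst) PT.id.snd)
  have hl := PTsumK (f := fun x j => vt (cv (M0 x) (M1 x) (j + 1)))
    (g := fun x j => vt (zz (m x) (M0 x) (M1 x) + j)) hm a1 a2
  have hv := PTvt (PT.add hz hm)
  exact PTqb Tok.sub (PTqb Tok.add (PTqb Tok.sub hG hl) (PTqb Tok.mul hv hv))
    (PTvt (PTcv h0 h1 (PT.add hm (PT.const 2))))

theorem PTconjK {i : α → List (List Tok)} {l : α → List Tok} (hi : PT i) (hl : PT l) :
    PT (fun x => conjK (i x) (l x)) := by
  have a1 : PT (fun z : α × List Tok => (Tok.and :: Tok.eq :: (z.2 ++ [Tok.zero]) : List Tok)) :=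
    PT.lcons (PT.const _) (PT.lcons (PT.const _) (PT.append PT.id.snd (PT.const _)))
  exact PT.append (PT.flatMap a1 hi) (PT.lcons (PT.const _) (PT.append hl (PT.const _)))

theorem PTredK {l : α → List Tok} (hl : PT l) : PT (fun x => redK (l x)) := by
  have hN := PT.length hl
  have hm := PTlinN hN 2 1
  have h0 := PTpM0 hN
  have h1 := PTpM1 hN
  have hobj : PT (fun x => objK (l x)) :=
    PTTGK (PTpolK ((PTcv h0 h1 (PT.const 0)).pair ((PTzz hm h0 h1).pair hN)) hl) hm h0 h1
  exact PTconjK (PTinitK hobj hm h0 h1) (PTlastK hobj hm h0 h1)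

theorem PTisForm {o : α → ℕ × Option (List (SV V2))} (ho : PT o) :
    PT (fun x => isForm (o x)) := by
  have h0 : PT (fun z : (α × List (SV V2)) × (SV V2 × List (SV V2)) => match z.2.2 with
      | [] => skd kF z.2.1
      | _ :: _ => false) := by
    refine (PT.listCase (l := fun z : (α × List (SV V2)) × (SV V2 × List (SV V2)) => z.2.2)
      PT.id.snd.snd (f := fun z => skd kF z.2.1) (PTskd kF PT.id.snd.fst)
      (g := fun _ => false) (PT.const _)).congr fun z => ?_
    rcases z.2.2 with _ | ⟨v, t⟩ <;> rfl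
  have h1 : PT (fun z : α × List (SV V2) => match z.2 with
      | [] => false
      | v :: t => match t with
        | [] => skd kF v
        | _ :: _ => false) := by
    refine (PT.listCase (l := fun z : α × List (SV V2) => z.2) PT.id.snd (PT.const false)
      h0).congr fun z => ?_
    rcases z.2 with _ | ⟨v, t⟩ <;> rfl
  refine (PT.optCase ho.snd (PT.const false) h1).congr fun a => ?_
  unfold isForm
  cases (o a).2 <;> rfl

theorem PTbits {l : α → List Tok} (hl : PT l) : PT (fun x => (l x).flatMap Tok.bits) := by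
  have h : PT (fun z : α × Tok => z.2.bits) := PTtok PT.id.snd (fun t _ => t.bits)
    fun t => PT.const _
  exact PT.flatMap h hl

theorem PTred {u : α → List Bool} (hu : PT u) : PT (fun x => red (u x)) := by
  have hk := PTtk hu
  have h2 : PT (fun x => astate A2 0 (tk (u x)).2) := by
    obtain ⟨L, hL⟩ := hk.snd.bound
    refine PTastate (c := fun _ => 0) A2_pt (PT.const 0) hk.snd sem2 sem2_ok
      (18 * (L + L ^ 2) + 3) ?_
    intro a o k hk
    refine (sem2_sz _ _ _).trans ?_
    have h1 : o.toks.length ≤ L.eval (sz a) := by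
      have := (length_le_sz (tk (u a)).2).trans (hL a)
      omega
    have h2 := Nat.pow_le_pow_left h1 2
    simp only [Polynomial.eval_add, Polynomial.eval_mul, Polynomial.eval_ofNat,
      Polynomial.eval_pow]
    omega
  exact PT.ite (PT.and (PT.isEmpty hk.fst) (PTisForm h2)) (PTbits (PTredK hk.snd)) (PT.const _)

end pts

theorem red_polytime :
    Nonempty (Turing.TM2ComputableInPolyTime (fun l : List Bool => l) (fun l => l) red) :=
  polytime_list (fun l : List Bool => l) red (fun l => (red l).reverse) (PT.reverse (PTred PT.id))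
    fun _ => rfl

end Pool.Agent.Helper54.ETR
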