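import Pool.Agent.Helper54.Rg.AlgG
import Pool.Agent.Helper54.Rg.Gate3
import Pool.Agent.Helper54.Rg.Red
import Pool.Agent.Helper54.Rg.IO2
import Pool.Agent.Helper55.Compose

section
open Pool.Agent.Helper54.Poly

namespace Pool.Agent.Helper54.ETR

/-- symbols of the conjunction of the basic equations -/
def gateK (n : ℕ) (l : List Tok) : List Tok := conjK (gfK n l ++ [oneK (n + 1)]) (addK n n n)

theorem gateK_eq (t : Term) (S : List Term) (t' : Term) (S' : List Term)
    (h : t' :: S' = gateSys t S) :
    (conj t' S').toks = gateK (S.length + 1) (conj t S).toks := by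
  rw [conj_toks _ _ _ _ h, gateK, gfK_eq, List.map_append]
  rfl

/-- number of equations of the system of a formula -/
def nEq (N : ℕ) : ℕ := zz (2 * N + 1) (pM0 N) (pM1 N) + (2 * N + 1) + 1

/-- a regular system of basic equations without real solution -/
def badT2 : Term := (gateSys badT []).headD Term.zero
def badS2 : List Term := (gateSys badT []).tail

theorem bad2_eq : badT2 :: badS2 = gateSys badT [] := by
  unfold badT2 badS2
  cases h : gateSys badT [] with
  | nil =>
    have := congrArg List.length h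
    rw [gateSys_length] at this
    simp at this
  | cons a l => rfl

/-- the reduction to basic equations -/
def red2 (u : List Bool) : List Bool :=
  if (tk u).1.isEmpty && isForm (astate A2 0 (tk u).2) then
    (gateK (nEq (tk u).2.length) (redK (tk u).2)).flatMap Tok.bits
  else (conj badT2 badS2).code

theorem exists_cons_gate (t : Term) (S : List Term) : ∃ t' S', t' :: S' = gateSys t S := by
  cases h : gateSys t S with
  | nil =>
    have := congrArg List.length h
    rw [gateSys_length] at this
    simp at this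
  | cons a l => exact ⟨a, l, rfl⟩

/-- the gate system has a real solution iff the original one has -/
theorem gate_real {t : Term} {S : List Term} (hr : Regular (t :: S)) :
    (∃ x : ℕ → ℝ, ∀ s ∈ t :: S, s.eval x = 0) ↔
      ∃ x : ℕ → ℝ, ∀ s ∈ gateSys t S, s.eval x = 0 := by
  have e1 : ∀ (l : List Term) (x : ℕ → ℝ), (∀ s ∈ l, s.eval x = 0) ↔ ∀ s ∈ l, s.ev x = 0 := by
    intro l x
    constructor
    · intro h s hs; rw [ev_real]; exact h s hs
    · intro h s hs; rw [← ev_real]; exact h s hs
  simp only [e1]
  constructor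
  · rintro ⟨y, hy⟩
    exact gate_complete hr.below hy
  · rintro ⟨x, hx⟩
    exact ⟨x, gate_sound hx⟩

theorem red2_spec (u : List Bool) : ∃ (t : Term) (S : List Term), Regular (t :: S) ∧
    (∀ s ∈ t :: S, Basic s) ∧ red2 u = (conj t S).code ∧
    ((∃ φ : Form, u = φ.code ∧ ∃ x : ℕ → ℝ, φ.Holds x) ↔
      ∃ x : ℕ → ℝ, ∀ s ∈ t :: S, s.eval x = 0) := by
  by_cases h : ((tk u).1.isEmpty && isForm (astate A2 0 (tk u).2)) = true
  · have h0 := h
    rw [Bool.and_eq_true, List.isEmpty_iff, isForm_iff] at h
    obtain ⟨h1, φ, h2⟩ := h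
    have hu : u = φ.code := (decode_iff u φ).2 ⟨h1, h2⟩
    have hts : (tk u).2 = φ.toks := by rw [hu, Form.code, tk_complete]
    have hlen : (mainSys φ).length = nEq φ.toks.length := by
      unfold mainSys nEq
      rw [sysT_length]
    obtain ⟨t, S, hS⟩ : ∃ t S, t :: S = mainSys φ := by
      cases h3 : mainSys φ with
      | nil =>
        rw [h3] at hlen
        simp [nEq] at hlen
      | cons t S => exact ⟨t, S, rfl⟩
    have hSl : S.length + 1 = nEq φ.toks.length := by
      rw [← hlen, ← hS, List.length_cons]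
    have hr : Regular (t :: S) := by rw [hS]; exact mainSys_regular φ
    obtain ⟨t', S', hS'⟩ := exists_cons_gate t S
    refine ⟨t', S', ?_, ?_, ?_, ?_⟩
    · rw [hS']; exact gate_regular hr
    · rw [hS']; exact gateSys_basic t S
    · unfold red2
      rw [if_pos h0, hts, Form.code, gateK_eq t S t' S' hS', ← redK_eq φ t S hS, hSl]
    · rw [hS', ← gate_real hr, hS, ← mainSys_iff]
      constructor
      · rintro ⟨ψ, hψ, x, hx⟩
        have : ψ = φ := code_injective (hψ.symm.trans hu)
        subst this
        exact ⟨x, hx⟩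
      · rintro ⟨x, hx⟩
        exact ⟨φ, hu, x, hx⟩
  · refine ⟨badT2, badS2, ?_, ?_, ?_, ?_⟩
    · rw [bad2_eq]; exact gate_regular bad_regular
    · rw [bad2_eq]; exact gateSys_basic _ _
    · unfold red2
      rw [if_neg h]
    · rw [bad2_eq, ← gate_real bad_regular]
      constructor
      · rintro ⟨φ, hφ, -⟩
        exfalso
        apply h
        have h1 := (decode_iff u φ).1 hφ
        rw [Bool.and_eq_true, List.isEmpty_iff, isForm_iff]
        exact ⟨h1.1, φ, h1.2⟩
      · rintro ⟨x, hx⟩
        exact absurd hx (bad_real x)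

section pts

variable {α : Type} [TEnc α]

theorem PTisValid {u : α → List Bool} (hu : PT u) :
    PT (fun x => (tk (u x)).1.isEmpty && isForm (astate A2 0 (tk (u x)).2)) := by
  have hk := PTtk hu
  have h2 : PT (fun x => astate A2 0 (tk (u x)).2) := by
    obtain ⟨L, hL⟩ := hk.snd.bound
    refine PTastate (c := fun _ => 0) A2_pt (PT.const 0) hk.snd sem2 sem2_ok
      (18 * (L + L ^ 2) + 3) ?_
    intro a o k hk
    refine (sem2_sz _ _ _).trans ?_
    have h1 : o.toks.length ≤ L.eval (sz a) := by
      have := (length_le_sz (tk (u a)).2).trans (hL a)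
      omega
    have h2 := Nat.pow_le_pow_left h1 2
    simp only [Polynomial.eval_add, Polynomial.eval_mul, Polynomial.eval_ofNat,
      Polynomial.eval_pow]
    omega
  exact PT.and (PT.isEmpty hk.fst) (PTisForm h2)

theorem PTgateK {n : α → ℕ} {l : α → List Tok} (hn : PT n) (hl : PT l) :
    PT (fun x => gateK (n x) (l x)) :=
  PTconjK (PT.append (PTgfK hn hl) (PT.lcons (PToneK (PT.succ hn)) (PT.const [])))
    (PTaddK hn hn hn)

theorem PTred2 {u : α → List Bool} (hu : PT u) : PT (fun x => red2 (u x)) := by
  have hk := (PTtk hu).snd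
  have hN := PT.length hk
  have hm := PTlinN hN 2 1
  have hn : PT (fun x => nEq (tk (u x)).2.length) :=
    PT.succ (PT.add (PTzz hm (PTpM0 hN) (PTpM1 hN)) hm)
  exact PT.ite (PTisValid hu) (PTbits (PTgateK hn (PTredK hk))) (PT.const _)

end pts

theorem red2_polytime :
    Nonempty (Turing.TM2ComputableInPolyTime (fun l : List Bool => l) (fun l => l) red2) :=
  polytime_list (fun l : List Bool => l) red2 (fun l => (red2 l).reverse)
    (PT.reverse (PTred2 PT.id)) fun _ => rfl

end Pool.Agent.Helper54.ETR
end

section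
open Pool.Agent.Helper54.Poly

namespace Pool.Agent.Helper54.ETR

theorem PTencPair {α : Type} [TEnc α] {f g : α → List Bool} (hf : PT f) (hg : PT g) :
    PT (fun a => encPair (f a, g a)) := by
  have h1 : PT (fun z : α × Bool => some z.2) := PT.osome PT.id.snd
  exact PT.append (PT.map h1 hf) (PT.lcons (PT.const none) (PT.map h1 hg))

/-- NP is closed under polynomial-time reductions. -/
theorem inNP_reduce {L : Set (List Bool)} (hL : InNP L) {f : List Bool → List Bool} (hf : PT f) :
    InNP {u | f u ∈ L} := by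
  obtain ⟨V, p, ⟨hV⟩, hp⟩ := hL
  obtain ⟨S, hS⟩ := hf.bound
  set F : List Bool × List Bool → List Bool × List Bool :=
    fun y => (f y.1, y.2.take (p.eval (f y.1).length)) with hF
  have hs : PT (fun l : List (Option Bool) => (split l).2) := (PTsplit PT.id).snd
  have hfu : PT (fun l : List (Option Bool) => f (split l).2.1) := hf.comp hs.fst
  have hG : PT (fun l : List (Option Bool) => (encPair (F (split l).2)).reverse) :=
    PT.reverse (PTencPair hfu (PT.take (PT.evalP p (PT.length hfu)) hs.snd))
  obtain ⟨hFp⟩ := polytime_olist encPair encPair F _ hG (by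
    rintro ⟨u, w⟩
    rw [split_pair])
  refine ⟨V ∘ F, p.comp (S.comp (4 * Polynomial.X + 1)),
    Pool.Agent.Helper55.Compose.comp_polytime hFp hV, ?_⟩
  intro u
  change f u ∈ L ↔ _
  rw [hp]
  constructor
  · rintro ⟨w, hw, hVw⟩
    refine ⟨w, ?_, ?_⟩
    · refine hw.trans ?_
      rw [Polynomial.eval_comp]
      apply poly_mono
      rw [Polynomial.eval_comp]
      refine (length_le_sz (f u)).trans ((hS u).trans (poly_mono S ?_))
      have := PT.sz_boolList u
      simp only [Polynomial.eval_add, Polynomial.eval_mul, Polynomial.eval_ofNat,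
        Polynomial.eval_X, Polynomial.eval_one]
      omega
    · simp only [Function.comp, hF]
      rw [List.take_of_length_le hw]
      exact hVw
  · rintro ⟨w, -, hVw⟩
    refine ⟨w.take (p.eval (f u).length), ?_, hVw⟩
    rw [List.length_take]
    exact min_le_left _ _

theorem conj_holds (x : ℕ → ℝ) (S : List Term) : ∀ t : Term,
    (conj t S).Holds x ↔ ∀ s ∈ t :: S, s.eval x = 0 := by
  induction S with
  | nil => intro t; simp [conj, Form.Holds, Term.eval]
  | cons s S ih =>
    intro t
    rw [conj, Form.Holds, ih s]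
    simp [Form.Holds, Term.eval]

/-- ETR reduces in polynomial time to regular square systems of basic equations. -/
theorem etr_reduces :
    ∃ f : List Bool → List Bool,
      Nonempty (Turing.TM2ComputableInPolyTime (fun l : List Bool => l) (fun l => l) f) ∧
      ∀ u, ∃ (t : Term) (S : List Term), Regular (t :: S) ∧ (∀ s ∈ t :: S, Basic s) ∧
        f u = (conj t S).code ∧
        ((∃ φ : Form, u = φ.code ∧ ∃ x : ℕ → ℝ, φ.Holds x) ↔
          ∃ x : ℕ → ℝ, ∀ s ∈ t :: S, s.eval x = 0) :=
  ⟨red2, red2_polytime, red2_spec⟩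

/-- ETR is in NP iff the promise problem for regular square systems of basic equations is. -/
theorem etr_inNP_iff :
    InNP {u | ∃ φ : Form, u = φ.code ∧ ∃ x : ℕ → ℝ, φ.Holds x} ↔
      ∃ L, InNP L ∧ ∀ (t : Term) (S : List Term), Regular (t :: S) →
        (∀ s ∈ t :: S, Basic s) →
        ((conj t S).code ∈ L ↔ ∃ x : ℕ → ℝ, ∀ s ∈ t :: S, s.eval x = 0) := by
  constructor
  · intro h
    refine ⟨_, h, fun t S _ _ => ?_⟩
    constructor
    · rintro ⟨φ, hφ, x, hx⟩
      rw [← code_injective hφ] at hx
      exact ⟨x, (conj_holds x S t).1 hx⟩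
    · rintro ⟨x, hx⟩
      exact ⟨conj t S, rfl, x, (conj_holds x S t).2 hx⟩
  · rintro ⟨L, hL, h⟩
    have h1 := inNP_reduce hL (f := red2) (PTred2 PT.id)
    have h2 : {u | red2 u ∈ L} = {u | ∃ φ : Form, u = φ.code ∧ ∃ x : ℕ → ℝ, φ.Holds x} := by
      ext u
      obtain ⟨t, S, hr, hb, hu, hiff⟩ := red2_spec u
      change red2 u ∈ L ↔ ∃ φ : Form, u = φ.code ∧ ∃ x : ℕ → ℝ, φ.Holds x
      rw [hu, h t S hr hb, hiff]
    rwa [h2] at h1

end Pool.Agent.Helper54.ETR
end
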