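import Pool.Agent.Helper54.Rg.Basic

open Finset

namespace Pool.Agent.Helper54.ETR

/-- the equation `x_i = 1`, written as a term `x_i - 1` -/
def gOne (i : ℕ) : Term := Term.sub (Term.var i) Term.one
/-- the equation `x_i + x_j = x_k` -/
def gAdd (i j k : ℕ) : Term := Term.sub (Term.add (Term.var i) (Term.var j)) (Term.var k)
/-- the equation `x_i x_j = x_k` -/
def gMul (i j k : ℕ) : Term := Term.sub (Term.mul (Term.var i) (Term.var j)) (Term.var k)

/-- one of the three basic equations `x_i = 1`, `x_i + x_j = x_k`, `x_i x_j = x_k` -/
def Basic (t : Term) : Prop :=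
  (∃ i, t = gOne i) ∨ (∃ i j k, t = gAdd i j k) ∨ ∃ i j k, t = gMul i j k

section

variable (n : ℕ)

/-- index of the variable holding the value of a term -/
def ix : Term → ℕ → ℕ
  | Term.zero, _ => n
  | Term.one, _ => n + 1
  | Term.var i, _ => i
  | Term.add s t, k => n + 2 + (s.toks.length + t.toks.length + k)
  | Term.sub s t, k => n + 2 + (s.toks.length + t.toks.length + k)
  | Term.mul s t, k => n + 2 + (s.toks.length + t.toks.length + k)

/-- pins for the symbols of a number -/
def gn : ℕ → ℕ → List Term
  | 0, k => [gOne (n + 2 + k)]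
  | i + 1, k => gOne (n + 2 + (i + 1 + k)) :: gn i k

/-- equations of a term -/
def ge : Term → ℕ → List Term
  | Term.zero, k => [gOne (n + 2 + k)]
  | Term.one, k => [gOne (n + 2 + k)]
  | Term.var i, k => gOne (n + 2 + (i + 1 + k)) :: gn n i k
  | Term.add s t, k => gAdd (ix n s (t.toks.length + k)) (ix n t k)
      (n + 2 + (s.toks.length + t.toks.length + k)) :: (ge s (t.toks.length + k) ++ ge t k)
  | Term.sub s t, k => gAdd (n + 2 + (s.toks.length + t.toks.length + k)) (ix n t k)
      (ix n s (t.toks.length + k)) :: (ge s (t.toks.length + k) ++ ge t k)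
  | Term.mul s t, k => gMul (ix n s (t.toks.length + k)) (ix n t k)
      (n + 2 + (s.toks.length + t.toks.length + k)) :: (ge s (t.toks.length + k) ++ ge t k)

/-- equations of an atom -/
def ga (s t : Term) (k : ℕ) : List Term :=
  gOne (n + 2 + (s.toks.length + t.toks.length + k)) ::
    gAdd (ix n s (t.toks.length + k)) (ix n s (t.toks.length + k)) (ix n s (t.toks.length + k)) ::
    (ge n s (t.toks.length + k) ++ ge n t k)

/-- equations of a formula -/
def gf : Form → ℕ → List Term
  | Form.lt s t, k => ga n s t k
  | Form.le s t, k => ga n s t k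
  | Form.eq s t, k => ga n s t k
  | Form.ge s t, k => ga n s t k
  | Form.gt s t, k => ga n s t k
  | Form.and p q, k => gOne (n + 2 + (p.toks.length + q.toks.length + k)) ::
      (gf p (q.toks.length + k) ++ gf q k)
  | Form.or p q, k => gOne (n + 2 + (p.toks.length + q.toks.length + k)) ::
      (gf p (q.toks.length + k) ++ gf q k)
  | Form.not p, k => gOne (n + 2 + (p.toks.length + k)) :: gf p k

/-! ### shape -/

theorem gn_basic (i k : ℕ) : ∀ e ∈ gn n i k, Basic e := by
  induction i with
  | zero => intro e he; simp only [gn, List.mem_singleton] at he; exact Or.inl ⟨_, he⟩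
  | succ i ih =>
    intro e he
    simp only [gn, List.mem_cons] at he
    rcases he with he | he
    · exact Or.inl ⟨_, he⟩
    · exact ih e he

theorem ge_basic (t : Term) : ∀ k, ∀ e ∈ ge n t k, Basic e := by
  induction t with
  | zero | one => intro k e he; simp only [ge, List.mem_singleton] at he; exact Or.inl ⟨_, he⟩
  | var i =>
    intro k e he
    simp only [ge, List.mem_cons] at he
    rcases he with he | he
    · exact Or.inl ⟨_, he⟩
    · exact gn_basic n i k e he
  | add s t ihs iht | sub s t ihs iht =>
    intro k e he
    simp only [ge, List.mem_cons, List.mem_append] at he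
    rcases he with he | he | he
    · exact Or.inr (Or.inl ⟨_, _, _, he⟩)
    · exact ihs _ e he
    · exact iht _ e he
  | mul s t ihs iht =>
    intro k e he
    simp only [ge, List.mem_cons, List.mem_append] at he
    rcases he with he | he | he
    · exact Or.inr (Or.inr ⟨_, _, _, he⟩)
    · exact ihs _ e he
    · exact iht _ e he

theorem ga_basic (s t : Term) (k : ℕ) : ∀ e ∈ ga n s t k, Basic e := by
  intro e he
  simp only [ga, List.mem_cons, List.mem_append] at he
  rcases he with he | he | he | he
  · exact Or.inl ⟨_, he⟩
  · exact Or.inr (Or.inl ⟨_, _, _, he⟩)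
  · exact ge_basic n s _ e he
  · exact ge_basic n t _ e he

theorem gf_basic (p : Form) : ∀ k, ∀ e ∈ gf n p k, Basic e := by
  induction p with
  | lt s t | le s t | eq s t | ge s t | gt s t => intro k; exact ga_basic n s t k
  | and p q ihp ihq | or p q ihp ihq =>
    intro k e he
    simp only [gf, List.mem_cons, List.mem_append] at he
    rcases he with he | he | he
    · exact Or.inl ⟨_, he⟩
    · exact ihp _ e he
    · exact ihq _ e he
  | not p ih =>
    intro k e he
    simp only [gf, List.mem_cons] at he
    rcases he with he | he
    · exact Or.inl ⟨_, he⟩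
    · exact ih _ e he

theorem gn_length (i k : ℕ) : (gn n i k).length = i + 1 := by
  induction i with
  | zero => rfl
  | succ i ih => simp [gn, ih]

theorem ge_length (t : Term) : ∀ k, (ge n t k).length = t.toks.length := by
  induction t with
  | zero | one => intro k; rfl
  | var i => intro k; simp [ge, gn_length, Term.toks]
  | add s t ihs iht | sub s t ihs iht | mul s t ihs iht =>
    intro k
    simp only [ge, Term.toks, List.length_cons, List.length_append, ihs, iht]

theorem gf_length (p : Form) : ∀ k, (gf n p k).length = p.toks.length + p.atoms.length := by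
  have hga : ∀ (s t : Term) (k : ℕ), (ga n s t k).length =
      s.toks.length + t.toks.length + 1 + 1 := by
    intro s t k
    simp only [ga, List.length_cons, List.length_append, ge_length]
  induction p with
  | lt s t | le s t | eq s t | ge s t | gt s t =>
    intro k
    simp only [gf, hga, Form.toks, Form.atoms, List.length_cons, List.length_append,
      List.length_nil]
  | and p q ihp ihq | or p q ihp ihq =>
    intro k
    simp only [gf, Form.toks, Form.atoms, List.length_cons, List.length_append, ihp, ihq]
    omega
  | not p ih =>
    intro k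
    simp only [gf, Form.toks, Form.atoms, List.length_cons, ih]
    omega

theorem ix_lt (t : Term) (ht : t.Below n) (k : ℕ) : ix n t k < n + 2 + (t.toks.length + k) := by
  cases t with
  | zero => simp only [ix]; omega
  | one => simp only [ix, Term.toks, List.length_singleton]; omega
  | var i =>
    have : i < n := ht
    simp only [ix]; omega
  | add s t | sub s t | mul s t =>
    simp only [ix, Term.toks, List.length_cons, List.length_append]; omega

theorem gOne_below {i M : ℕ} (h : i < M) : (gOne i).Below M := ⟨h, trivial⟩
theorem gAdd_below {i j k M : ℕ} (hi : i < M) (hj : j < M) (hk : k < M) : (gAdd i j k).Below M :=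
  ⟨⟨hi, hj⟩, hk⟩
theorem gMul_below {i j k M : ℕ} (hi : i < M) (hj : j < M) (hk : k < M) : (gMul i j k).Below M :=
  ⟨⟨hi, hj⟩, hk⟩

theorem gn_below (i k M : ℕ) (h : n + 2 + (i + 1 + k) ≤ M) : ∀ e ∈ gn n i k, e.Below M := by
  induction i with
  | zero =>
    intro e he
    simp only [gn, List.mem_singleton] at he
    rw [he]; exact gOne_below (by omega)
  | succ i ih =>
    intro e he
    simp only [gn, List.mem_cons] at he
    rcases he with he | he
    · rw [he]; exact gOne_below (by omega)
    · exact ih (by omega) e he

theorem ge_below (M : ℕ) (t : Term) (ht : t.Below n) : ∀ k, n + 2 + (t.toks.length + k) ≤ M →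
    ∀ e ∈ ge n t k, e.Below M := by
  induction t with
  | zero | one =>
    intro k hk e he
    simp only [Term.toks, List.length_singleton] at hk
    simp only [ge, List.mem_singleton] at he
    rw [he]; exact gOne_below (by omega)
  | var i =>
    intro k hk e he
    simp only [Term.toks, List.length_cons, List.length_append, List.length_replicate,
      List.length_nil] at hk
    simp only [ge, List.mem_cons] at he
    rcases he with he | he
    · rw [he]; exact gOne_below (by omega)
    · exact gn_below n i k M (by omega) e he
  | add s t ihs iht | sub s t ihs iht =>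
    intro k hk e he
    simp only [Term.toks, List.length_cons, List.length_append] at hk
    have h1 := ix_lt n s ht.1 (t.toks.length + k)
    have h2 := ix_lt n t ht.2 k
    simp only [ge, List.mem_cons, List.mem_append] at he
    rcases he with he | he | he
    · rw [he]; exact gAdd_below (by omega) (by omega) (by omega)
    · exact ihs ht.1 _ (by omega) e he
    · exact iht ht.2 _ (by omega) e he
  | mul s t ihs iht =>
    intro k hk e he
    simp only [Term.toks, List.length_cons, List.length_append] at hk
    have h1 := ix_lt n s ht.1 (t.toks.length + k)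
    have h2 := ix_lt n t ht.2 k
    simp only [ge, List.mem_cons, List.mem_append] at he
    rcases he with he | he | he
    · rw [he]; exact gMul_below (by omega) (by omega) (by omega)
    · exact ihs ht.1 _ (by omega) e he
    · exact iht ht.2 _ (by omega) e he

/-- all atoms are below `n` -/
def FBelow (p : Form) : Prop := ∀ a ∈ p.atoms, a.1.Below n ∧ a.2.Below n

theorem ga_below (M : ℕ) (s t : Term) (hs : s.Below n) (ht : t.Below n) (k : ℕ)
    (hk : n + 2 + (s.toks.length + t.toks.length + 1 + k) ≤ M) :
    ∀ e ∈ ga n s t k, e.Below M := by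
  intro e he
  have h1 := ix_lt n s hs (t.toks.length + k)
  simp only [ga, List.mem_cons, List.mem_append] at he
  rcases he with he | he | he | he
  · rw [he]; exact gOne_below (by omega)
  · rw [he]; exact gAdd_below (by omega) (by omega) (by omega)
  · exact ge_below n M s hs _ (by omega) e he
  · exact ge_below n M t ht _ (by omega) e he

theorem gf_below (M : ℕ) (p : Form) (hp : FBelow n p) : ∀ k,
    n + 2 + (p.toks.length + k) ≤ M → ∀ e ∈ gf n p k, e.Below M := by
  induction p with
  | lt s t | le s t | eq s t | ge s t | gt s t =>
    intro k hk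
    have h := hp (s, t) (by simp [Form.atoms])
    simp only [Form.toks, List.length_cons, List.length_append] at hk
    exact ga_below n M s t h.1 h.2 k (by omega)
  | and p q ihp ihq | or p q ihp ihq =>
    intro k hk e he
    have h1 : FBelow n p := fun a ha => hp a (by simp [Form.atoms, ha])
    have h2 : FBelow n q := fun a ha => hp a (by simp [Form.atoms, ha])
    simp only [Form.toks, List.length_cons, List.length_append] at hk
    simp only [gf, List.mem_cons, List.mem_append] at he
    rcases he with he | he | he
    · rw [he]; exact gOne_below (by omega)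
    · exact ihp h1 _ (by omega) e he
    · exact ihq h2 _ (by omega) e he
  | not p ih =>
    intro k hk e he
    simp only [Form.toks, List.length_cons] at hk
    simp only [gf, List.mem_cons] at he
    rcases he with he | he
    · rw [he]; exact gOne_below (by omega)
    · exact ih hp _ (by omega) e he

end

/-! ### values -/

section ring

variable {R : Type} [CommRing R] (n : ℕ)

theorem ev_gOne (x : ℕ → R) (i : ℕ) : (gOne i).ev x = x i - 1 := rfl
theorem ev_gAdd (x : ℕ → R) (i j k : ℕ) : (gAdd i j k).ev x = x i + x j - x k := rfl
theorem ev_gMul (x : ℕ → R) (i j k : ℕ) : (gMul i j k).ev x = x i * x j - x k := rfl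
theorem der_gOne (x v : ℕ → R) (i : ℕ) : (gOne i).der x v = v i := sub_zero _
theorem der_gAdd (x v : ℕ → R) (i j k : ℕ) : (gAdd i j k).der x v = v i + v j - v k := rfl
theorem der_gMul (x v : ℕ → R) (i j k : ℕ) : (gMul i j k).der x v =
  x i * v j + v i * x j - v k := rfl

/-- solutions compute the values of the terms -/
theorem ge_val (x : ℕ → R) (h0 : x n = 0) (h1 : x (n + 1) = 1) (t : Term) : ∀ k,
    (∀ e ∈ ge n t k, e.ev x = 0) → x (ix n t k) = t.ev x := by
  induction t with
  | zero => intro k _; exact h0
  | one => intro k _; exact h1
  | var i => intro k _; rfl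
  | add s t ihs iht =>
    intro k h
    simp only [ge, List.mem_cons, List.mem_append] at h
    have a := h _ (Or.inl rfl)
    have b := ihs _ fun e he => h e (Or.inr (Or.inl he))
    have c := iht _ fun e he => h e (Or.inr (Or.inr he))
    rw [ev_gAdd, b, c] at a
    exact (sub_eq_zero.1 a).symm
  | sub s t ihs iht =>
    intro k h
    simp only [ge, List.mem_cons, List.mem_append] at h
    have a := h _ (Or.inl rfl)
    have b := ihs _ fun e he => h e (Or.inr (Or.inl he))
    have c := iht _ fun e he => h e (Or.inr (Or.inr he))
    rw [ev_gAdd, b, c] at a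
    simp only [ix, Term.ev]
    linear_combination a
  | mul s t ihs iht =>
    intro k h
    simp only [ge, List.mem_cons, List.mem_append] at h
    have a := h _ (Or.inl rfl)
    have b := ihs _ fun e he => h e (Or.inr (Or.inl he))
    have c := iht _ fun e he => h e (Or.inr (Or.inr he))
    rw [ev_gMul, b, c] at a
    exact (sub_eq_zero.1 a).symm

theorem ge_dval (x v : ℕ → R) (h0 : x n = 0) (h1 : x (n + 1) = 1) (d0 : v n = 0)
    (d1 : v (n + 1) = 0) (t : Term) : ∀ k, (∀ e ∈ ge n t k, e.ev x = 0) →
    (∀ e ∈ ge n t k, e.der x v = 0) → v (ix n t k) = t.der x v := by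
  induction t with
  | zero => intro k _ _; exact d0
  | one => intro k _ _; exact d1
  | var i => intro k _ _; rfl
  | add s t ihs iht =>
    intro k h hd
    simp only [ge, List.mem_cons, List.mem_append] at h hd
    have a := hd _ (Or.inl rfl)
    have b := ihs _ (fun e he => h e (Or.inr (Or.inl he))) fun e he => hd e (Or.inr (Or.inl he))
    have c := iht _ (fun e he => h e (Or.inr (Or.inr he))) fun e he => hd e (Or.inr (Or.inr he))
    rw [der_gAdd, b, c] at a
    exact (sub_eq_zero.1 a).symm
  | sub s t ihs iht =>
    intro k h hd
    simp only [ge, List.mem_cons, List.mem_append] at h hd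
    have a := hd _ (Or.inl rfl)
    have b := ihs _ (fun e he => h e (Or.inr (Or.inl he))) fun e he => hd e (Or.inr (Or.inl he))
    have c := iht _ (fun e he => h e (Or.inr (Or.inr he))) fun e he => hd e (Or.inr (Or.inr he))
    rw [der_gAdd, b, c] at a
    simp only [ix, Term.der]
    linear_combination a
  | mul s t ihs iht =>
    intro k h hd
    simp only [ge, List.mem_cons, List.mem_append] at h hd
    have a := hd _ (Or.inl rfl)
    have b := ihs _ (fun e he => h e (Or.inr (Or.inl he))) fun e he => hd e (Or.inr (Or.inl he))
    have c := iht _ (fun e he => h e (Or.inr (Or.inr he))) fun e he => hd e (Or.inr (Or.inr he))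
    have b' := ge_val n x h0 h1 s _ fun e he => h e (Or.inr (Or.inl he))
    have c' := ge_val n x h0 h1 t _ fun e he => h e (Or.inr (Or.inr he))
    rw [der_gMul, b, c, b', c'] at a
    exact (sub_eq_zero.1 a).symm

/-- two solutions with the same values of the first variables agree -/
theorem gn_agree (x y : ℕ → R) (i : ℕ) : ∀ k, (∀ e ∈ gn n i k, e.ev x = 0) →
    (∀ e ∈ gn n i k, e.ev y = 0) → ∀ q, k ≤ q → q < i + 1 + k → x (n + 2 + q) = y (n + 2 + q) := by
  induction i with
  | zero =>
    intro k hx hy q hq hq'
    have h := hx _ (List.mem_singleton.2 rfl)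
    have h' := hy _ (List.mem_singleton.2 rfl)
    rw [ev_gOne, sub_eq_zero] at h h'
    have : q = k := by omega
    rw [this, h, h']
  | succ i ih =>
    intro k hx hy q hq hq'
    simp only [gn, List.mem_cons] at hx hy
    by_cases hc : q = i + 1 + k
    · have h := hx _ (Or.inl rfl)
      have h' := hy _ (Or.inl rfl)
      rw [ev_gOne, sub_eq_zero] at h h'
      rw [hc, h, h']
    · exact ih k (fun e he => hx e (Or.inr he)) (fun e he => hy e (Or.inr he)) q hq (by omega)

theorem ge_agree (x y : ℕ → R) (h0 : x n = y n) (h1 : x (n + 1) = y (n + 1))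
    (hxy : ∀ i < n, x i = y i) (t : Term) (ht : t.Below n) : ∀ k, (∀ e ∈ ge n t k, e.ev x = 0) →
    (∀ e ∈ ge n t k, e.ev y = 0) → x (ix n t k) = y (ix n t k) ∧
      ∀ q, k ≤ q → q < t.toks.length + k → x (n + 2 + q) = y (n + 2 + q) := by
  induction t with
  | zero =>
    intro k hx hy
    refine ⟨h0, fun q hq hq' => ?_⟩
    have h := hx _ (List.mem_singleton.2 rfl)
    have h' := hy _ (List.mem_singleton.2 rfl)
    rw [ev_gOne, sub_eq_zero] at h h'
    simp only [Term.toks, List.length_singleton] at hq'
    have : q = k := by omega
    rw [this, h, h']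
  | one =>
    intro k hx hy
    refine ⟨h1, fun q hq hq' => ?_⟩
    have h := hx _ (List.mem_singleton.2 rfl)
    have h' := hy _ (List.mem_singleton.2 rfl)
    rw [ev_gOne, sub_eq_zero] at h h'
    simp only [Term.toks, List.length_singleton] at hq'
    have : q = k := by omega
    rw [this, h, h']
  | var i =>
    intro k hx hy
    refine ⟨hxy i ht, fun q hq hq' => ?_⟩
    simp only [ge, List.mem_cons] at hx hy
    simp only [Term.toks, List.length_cons, List.length_append, List.length_replicate,
      List.length_nil] at hq'
    by_cases hc : q = i + 1 + k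
    · have h := hx _ (Or.inl rfl)
      have h' := hy _ (Or.inl rfl)
      rw [ev_gOne, sub_eq_zero] at h h'
      rw [hc, h, h']
    · exact gn_agree n x y i k (fun e he => hx e (Or.inr he)) (fun e he => hy e (Or.inr he)) q hq
        (by omega)
  | add s t ihs iht =>
    intro k hx hy
    simp only [ge, List.mem_cons, List.mem_append] at hx hy
    have a := hx _ (Or.inl rfl)
    have a' := hy _ (Or.inl rfl)
    obtain ⟨b1, b2⟩ := ihs ht.1 _ (fun e he => hx e (Or.inr (Or.inl he)))
      fun e he => hy e (Or.inr (Or.inl he))
    obtain ⟨c1, c2⟩ := iht ht.2 _ (fun e he => hx e (Or.inr (Or.inr he)))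
      fun e he => hy e (Or.inr (Or.inr he))
    rw [ev_gAdd, sub_eq_zero] at a a'
    have key : x (n + 2 + (s.toks.length + t.toks.length + k)) =
      y (n + 2 + (s.toks.length + t.toks.length + k)) := by rw [← a, ← a', b1, c1]
    refine ⟨key, fun q hq hq' => ?_⟩
    simp only [Term.toks, List.length_cons, List.length_append] at hq'
    rcases Nat.lt_or_ge q (t.toks.length + k) with h3 | h3
    · exact c2 q hq h3
    · rcases Nat.lt_or_ge q (s.toks.length + (t.toks.length + k)) with h4 | h4
      · exact b2 q h3 h4
      · have : q = s.toks.length + t.toks.length + k := by omega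
        rw [this]; exact key
  | sub s t ihs iht =>
    intro k hx hy
    simp only [ge, List.mem_cons, List.mem_append] at hx hy
    have a := hx _ (Or.inl rfl)
    have a' := hy _ (Or.inl rfl)
    obtain ⟨b1, b2⟩ := ihs ht.1 _ (fun e he => hx e (Or.inr (Or.inl he)))
      fun e he => hy e (Or.inr (Or.inl he))
    obtain ⟨c1, c2⟩ := iht ht.2 _ (fun e he => hx e (Or.inr (Or.inr he)))
      fun e he => hy e (Or.inr (Or.inr he))
    rw [ev_gAdd] at a a'
    have key : x (n + 2 + (s.toks.length + t.toks.length + k)) =
      y (n + 2 + (s.toks.length + t.toks.length + k)) := by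
      rw [b1, c1] at a
      linear_combination a - a'
    refine ⟨key, fun q hq hq' => ?_⟩
    simp only [Term.toks, List.length_cons, List.length_append] at hq'
    rcases Nat.lt_or_ge q (t.toks.length + k) with h3 | h3
    · exact c2 q hq h3
    · rcases Nat.lt_or_ge q (s.toks.length + (t.toks.length + k)) with h4 | h4
      · exact b2 q h3 h4
      · have : q = s.toks.length + t.toks.length + k := by omega
        rw [this]; exact key
  | mul s t ihs iht =>
    intro k hx hy
    simp only [ge, List.mem_cons, List.mem_append] at hx hy
    have a := hx _ (Or.inl rfl)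
    have a' := hy _ (Or.inl rfl)
    obtain ⟨b1, b2⟩ := ihs ht.1 _ (fun e he => hx e (Or.inr (Or.inl he)))
      fun e he => hy e (Or.inr (Or.inl he))
    obtain ⟨c1, c2⟩ := iht ht.2 _ (fun e he => hx e (Or.inr (Or.inr he)))
      fun e he => hy e (Or.inr (Or.inr he))
    rw [ev_gMul, sub_eq_zero] at a a'
    have key : x (n + 2 + (s.toks.length + t.toks.length + k)) =
      y (n + 2 + (s.toks.length + t.toks.length + k)) := by rw [← a, ← a', b1, c1]
    refine ⟨key, fun q hq hq' => ?_⟩
    simp only [Term.toks, List.length_cons, List.length_append] at hq'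
    rcases Nat.lt_or_ge q (t.toks.length + k) with h3 | h3
    · exact c2 q hq h3
    · rcases Nat.lt_or_ge q (s.toks.length + (t.toks.length + k)) with h4 | h4
      · exact b2 q h3 h4
      · have : q = s.toks.length + t.toks.length + k := by omega
        rw [this]; exact key

/-- kernel vectors vanishing on the first variables vanish -/
theorem gn_ker (x v : ℕ → R) (i : ℕ) : ∀ k, (∀ e ∈ gn n i k, e.der x v = 0) →
    ∀ q, k ≤ q → q < i + 1 + k → v (n + 2 + q) = 0 := by
  induction i with
  | zero =>
    intro k hx q hq hq'
    have h := hx _ (List.mem_singleton.2 rfl)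
    rw [der_gOne] at h
    have : q = k := by omega
    rw [this, h]
  | succ i ih =>
    intro k hx q hq hq'
    simp only [gn, List.mem_cons] at hx
    by_cases hc : q = i + 1 + k
    · have h := hx _ (Or.inl rfl)
      rw [der_gOne] at h
      rw [hc, h]
    · exact ih k (fun e he => hx e (Or.inr he)) q hq (by omega)

theorem ge_ker (x v : ℕ → R) (h0 : v n = 0) (h1 : v (n + 1) = 0)
    (hv : ∀ i < n, v i = 0) (t : Term) (ht : t.Below n) : ∀ k,
    (∀ e ∈ ge n t k, e.der x v = 0) → v (ix n t k) = 0 ∧
      ∀ q, k ≤ q → q < t.toks.length + k → v (n + 2 + q) = 0 := by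
  induction t with
  | zero =>
    intro k hx
    refine ⟨h0, fun q hq hq' => ?_⟩
    have h := hx _ (List.mem_singleton.2 rfl)
    rw [der_gOne] at h
    simp only [Term.toks, List.length_singleton] at hq'
    have : q = k := by omega
    rw [this, h]
  | one =>
    intro k hx
    refine ⟨h1, fun q hq hq' => ?_⟩
    have h := hx _ (List.mem_singleton.2 rfl)
    rw [der_gOne] at h
    simp only [Term.toks, List.length_singleton] at hq'
    have : q = k := by omega
    rw [this, h]
  | var i =>
    intro k hx
    refine ⟨hv i ht, fun q hq hq' => ?_⟩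
    simp only [ge, List.mem_cons] at hx
    simp only [Term.toks, List.length_cons, List.length_append, List.length_replicate,
      List.length_nil] at hq'
    by_cases hc : q = i + 1 + k
    · have h := hx _ (Or.inl rfl)
      rw [der_gOne] at h
      rw [hc, h]
    · exact gn_ker n x v i k (fun e he => hx e (Or.inr he)) q hq (by omega)
  | add s t ihs iht | sub s t ihs iht | mul s t ihs iht =>
    intro k hx
    simp only [ge, List.mem_cons, List.mem_append] at hx
    have a := hx _ (Or.inl rfl)
    obtain ⟨b1, b2⟩ := ihs ht.1 _ (fun e he => hx e (Or.inr (Or.inl he)))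
    obtain ⟨c1, c2⟩ := iht ht.2 _ (fun e he => hx e (Or.inr (Or.inr he)))
    have key : v (n + 2 + (s.toks.length + t.toks.length + k)) = 0 := by
      simp only [der_gAdd, der_gMul, b1, c1, mul_zero, zero_mul, add_zero, zero_sub, neg_eq_zero,
        sub_zero] at a
      exact a
    refine ⟨key, fun q hq hq' => ?_⟩
    simp only [Term.toks, List.length_cons, List.length_append] at hq'
    rcases Nat.lt_or_ge q (t.toks.length + k) with h3 | h3
    · exact c2 q hq h3
    · rcases Nat.lt_or_ge q (s.toks.length + (t.toks.length + k)) with h4 | h4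
      · exact b2 q h3 h4
      · have : q = s.toks.length + t.toks.length + k := by omega
        rw [this]; exact key

end ring

end Pool.Agent.Helper54.ETR
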