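import Pool.Agent.Helper54.Rg.AlgP
import Pool.Agent.Helper54.Rg.Gate

open Pool.Agent.Helper54.Poly

namespace Pool.Agent.Helper54.ETR

/-! ### the algebra computing the basic equations -/

abbrev V3 := ℕ × List (List Tok)

def oneK (i : ℕ) : List Tok := Tok.sub :: (vt i ++ [Tok.one])
def addK (i j k : ℕ) : List Tok := Tok.sub :: ((Tok.add :: (vt i ++ vt j)) ++ vt k)
def mulK (i j k : ℕ) : List Tok := Tok.sub :: ((Tok.mul :: (vt i ++ vt j)) ++ vt k)

theorem oneK_eq (i : ℕ) : (gOne i).toks = oneK i := rfl
theorem addK_eq (i j k : ℕ) : (gAdd i j k).toks = addK i j k := rfl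
theorem mulK_eq (i j k : ℕ) : (gMul i j k).toks = mulK i j k := rfl

def hC0 (t : Tok) (n k : ℕ) : V3 :=
  match t with
  | Tok.zero => (n, [oneK (n + 2 + k)])
  | Tok.one => (n + 1, [oneK (n + 2 + k)])
  | _ => (0, [oneK (n + 2 + k)])

def hC1 (t : Tok) (n k : ℕ) (v : V3) : V3 :=
  match t with
  | Tok.s => (v.1 + 1, oneK (n + 2 + k) :: v.2)
  | Tok.x => (v.1, oneK (n + 2 + k) :: v.2)
  | _ => (0, oneK (n + 2 + k) :: v.2)

def hC2 (t : Tok) (n k : ℕ) (v w : V3) : V3 :=
  match t with
  | Tok.add => (n + 2 + k, addK v.1 w.1 (n + 2 + k) :: (v.2 ++ w.2))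
  | Tok.sub => (n + 2 + k, addK (n + 2 + k) w.1 v.1 :: (v.2 ++ w.2))
  | Tok.mul => (n + 2 + k, mulK v.1 w.1 (n + 2 + k) :: (v.2 ++ w.2))
  | Tok.and => (0, oneK (n + 2 + k) :: (v.2 ++ w.2))
  | Tok.or => (0, oneK (n + 2 + k) :: (v.2 ++ w.2))
  | _ => (0, oneK (n + 2 + k) :: addK v.1 v.1 v.1 :: (v.2 ++ w.2))

def A3 : Alg ℕ V3 where
  c0 := hC0
  c1 := hC1
  c2 := hC2

def sem3 (n : ℕ) : Ob → ℕ → V3
  | Ob.num i, k => (i, (gn n i k).map Term.toks)
  | Ob.tm t, k => (ix n t k, (ge n t k).map Term.toks)
  | Ob.fm p, k => (0, (gf n p k).map Term.toks)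

theorem sem3_ok (n : ℕ) : A3.Sem n (sem3 n) where
  zero _ := rfl
  one _ := rfl
  e _ := rfl
  s _ _ := rfl
  x _ _ := rfl
  not _ _ := rfl
  add a b k := by
    simp only [sem3, ge, ix, A3, hC2, List.map_cons, List.map_append, addK_eq]
  sub a b k := by
    simp only [sem3, ge, ix, A3, hC2, List.map_cons, List.map_append, addK_eq]
  mul a b k := by
    simp only [sem3, ge, ix, A3, hC2, List.map_cons, List.map_append, mulK_eq]
  lt a b k := by
    simp only [sem3, gf, ga, A3, hC2, List.map_cons, List.map_append, addK_eq, oneK_eq]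
  le a b k := by
    simp only [sem3, gf, ga, A3, hC2, List.map_cons, List.map_append, addK_eq, oneK_eq]
  eq a b k := by
    simp only [sem3, gf, ga, A3, hC2, List.map_cons, List.map_append, addK_eq, oneK_eq]
  ge a b k := by
    simp only [sem3, gf, ga, A3, hC2, List.map_cons, List.map_append, addK_eq, oneK_eq]
  gt a b k := by
    simp only [sem3, gf, ga, A3, hC2, List.map_cons, List.map_append, addK_eq, oneK_eq]
  and a b k := by
    simp only [sem3, gf, A3, hC2, List.map_cons, List.map_append, oneK_eq]
  or a b k := by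
    simp only [sem3, gf, A3, hC2, List.map_cons, List.map_append, oneK_eq]

section pts

variable {α : Type} [TEnc α]

theorem PToneK {i : α → ℕ} (hi : PT i) : PT (fun x => oneK (i x)) :=
  PTqb Tok.sub (PTvt hi) (PT.const _)

theorem PTaddK {i j k : α → ℕ} (hi : PT i) (hj : PT j) (hk : PT k) :
    PT (fun x => addK (i x) (j x) (k x)) :=
  PTqb Tok.sub (PTqb Tok.add (PTvt hi) (PTvt hj)) (PTvt hk)

theorem PTmulK {i j k : α → ℕ} (hi : PT i) (hj : PT j) (hk : PT k) :
    PT (fun x => mulK (i x) (j x) (k x)) :=
  PTqb Tok.sub (PTqb Tok.mul (PTvt hi) (PTvt hj)) (PTvt hk)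

end pts

theorem A3_pt : A3.IsPT where
  p0 t := by
    have hn : PT (fun z : ℕ × ℕ => z.1) := PT.id.fst
    have hp : PT (fun z : ℕ × ℕ => [oneK (z.1 + 2 + z.2)]) :=
      PT.lcons (PToneK (PT.add (PT.add hn (PT.const 2)) PT.id.snd)) (PT.const [])
    cases t
    case zero => exact hn.pair hp
    case one => exact (PT.succ hn).pair hp
    all_goals exact (PT.const 0).pair hp
  p1 t := by
    have hi : PT (fun z : (ℕ × ℕ) × V3 => z.1.1 + 2 + z.1.2) :=
      PT.add (PT.add PT.id.fst.fst (PT.const 2)) PT.id.fst.snd
    have hv : PT (fun z : (ℕ × ℕ) × V3 => z.2.1) := PT.id.snd.fst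
    have hp : PT (fun z : (ℕ × ℕ) × V3 => oneK (z.1.1 + 2 + z.1.2) :: z.2.2) :=
      PT.lcons (PToneK hi) PT.id.snd.snd
    cases t
    case s => exact (PT.succ hv).pair hp
    case x => exact hv.pair hp
    all_goals exact (PT.const 0).pair hp
  p2 t := by
    have hi : PT (fun z : (ℕ × ℕ) × (V3 × V3) => z.1.1 + 2 + z.1.2) :=
      PT.add (PT.add PT.id.fst.fst (PT.const 2)) PT.id.fst.snd
    have v1 : PT (fun z : (ℕ × ℕ) × (V3 × V3) => z.2.1.1) := PT.id.snd.fst.fst
    have w1 : PT (fun z : (ℕ × ℕ) × (V3 × V3) => z.2.2.1) := PT.id.snd.snd.fst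
    have hl : PT (fun z : (ℕ × ℕ) × (V3 × V3) => z.2.1.2 ++ z.2.2.2) :=
      PT.append PT.id.snd.fst.snd PT.id.snd.snd.snd
    have ho := PT.lcons (PToneK hi) hl
    have ha : PT (fun z : (ℕ × ℕ) × (V3 × V3) => ((0, oneK (z.1.1 + 2 + z.1.2) ::
        addK z.2.1.1 z.2.1.1 z.2.1.1 :: (z.2.1.2 ++ z.2.2.2)) : V3)) :=
      (PT.const 0).pair (PT.lcons (PToneK hi) (PT.lcons (PTaddK v1 v1 v1) hl))
    cases t
    case add => exact hi.pair (PT.lcons (PTaddK v1 w1 hi) hl)
    case sub => exact hi.pair (PT.lcons (PTaddK hi w1 v1) hl)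
    case mul => exact hi.pair (PT.lcons (PTmulK v1 w1 hi) hl)
    case and => exact (PT.const 0).pair ho
    case or => exact (PT.const 0).pair ho
    all_goals exact ha

/-! ### sizes -/

theorem sz_maps (l : List Term) (B : ℕ) (h : ∀ e ∈ l, e.toks.length ≤ B) :
    sz (l.map Term.toks) ≤ l.length * (18 * B + 2) + 1 := by
  induction l with
  | nil => simp [sz_nil]
  | cons e l ih =>
    rw [List.map_cons, sz_cons, List.length_cons]
    have h1 := h e (by simp)
    have h2 := ih fun e he => h e (by simp [he])
    have h3 := sz_toks e.toks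
    have h4 : (l.length + 1) * (18 * B + 2) = l.length * (18 * B + 2) + (18 * B + 2) := by ring
    omega

theorem vt_length (i : ℕ) : (vt i).length = i + 2 := by simp [vt]

theorem oneK_length (i : ℕ) : (oneK i).length = i + 4 := by
  simp only [oneK, List.length_cons, List.length_append, vt_length, List.length_nil]
theorem addK_length (i j k : ℕ) : (addK i j k).length = i + j + k + 8 := by
  simp only [addK, List.length_cons, List.length_append, vt_length]; omega
theorem mulK_length (i j k : ℕ) : (mulK i j k).length = i + j + k + 8 := by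
  simp only [mulK, List.length_cons, List.length_append, vt_length]; omega

/-- index bound without any assumption on the variables -/
theorem ix_le (n : ℕ) (t : Term) (k : ℕ) : ix n t k ≤ n + 2 + (t.toks.length + k) := by
  cases t with
  | zero => simp only [ix]; omega
  | one => simp only [ix]; omega
  | var i =>
    simp only [ix, Term.toks, List.length_cons, List.length_append, List.length_replicate,
      List.length_nil]
    omega
  | add s t | sub s t | mul s t =>
    simp only [ix, Term.toks, List.length_cons, List.length_append]; omega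

theorem gn_toks (n M : ℕ) (i k : ℕ) (h : i + 1 + k ≤ M) :
    ∀ e ∈ gn n i k, e.toks.length ≤ 3 * (n + 2 + M) + 8 := by
  induction i with
  | zero =>
    intro e he
    simp only [gn, List.mem_singleton] at he
    rw [he, oneK_eq, oneK_length]; omega
  | succ i ih =>
    intro e he
    simp only [gn, List.mem_cons] at he
    rcases he with he | he
    · rw [he, oneK_eq, oneK_length]; omega
    · exact ih (by omega) e he

theorem ge_toks (n M : ℕ) (t : Term) : ∀ k, t.toks.length + k ≤ M →
    ∀ e ∈ ge n t k, e.toks.length ≤ 3 * (n + 2 + M) + 8 := by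
  induction t with
  | zero | one =>
    intro k hk e he
    simp only [Term.toks, List.length_singleton] at hk
    simp only [ge, List.mem_singleton] at he
    rw [he, oneK_eq, oneK_length]; omega
  | var i =>
    intro k hk e he
    simp only [Term.toks, List.length_cons, List.length_append, List.length_replicate,
      List.length_nil] at hk
    simp only [ge, List.mem_cons] at he
    rcases he with he | he
    · rw [he, oneK_eq, oneK_length]; omega
    · exact gn_toks n M i k (by omega) e he
  | add s t ihs iht | sub s t ihs iht | mul s t ihs iht =>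
    intro k hk e he
    simp only [Term.toks, List.length_cons, List.length_append] at hk
    have h1 := ix_le n s (t.toks.length + k)
    have h2 := ix_le n t k
    simp only [ge, List.mem_cons, List.mem_append] at he
    rcases he with he | he | he
    · rw [he]
      first
        | (rw [addK_eq, addK_length]; omega)
        | (rw [mulK_eq, mulK_length]; omega)
    · exact ihs _ (by omega) e he
    · exact iht _ (by omega) e he

theorem gf_toks (n M : ℕ) (p : Form) : ∀ k, p.toks.length + k ≤ M →
    ∀ e ∈ gf n p k, e.toks.length ≤ 3 * (n + 2 + M) + 8 := by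
  have hat : ∀ (s t : Term) (k : ℕ), s.toks.length + t.toks.length + 1 + k ≤ M →
      ∀ e ∈ ga n s t k, e.toks.length ≤ 3 * (n + 2 + M) + 8 := by
    intro s t k hk e he
    have h1 := ix_le n s (t.toks.length + k)
    simp only [ga, List.mem_cons, List.mem_append] at he
    rcases he with he | he | he | he
    · rw [he, oneK_eq, oneK_length]; omega
    · rw [he, addK_eq, addK_length]; omega
    · exact ge_toks n M s _ (by omega) e he
    · exact ge_toks n M t _ (by omega) e he
  induction p with
  | lt s t | le s t | eq s t | ge s t | gt s t =>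
    intro k hk
    simp only [Form.toks, List.length_cons, List.length_append] at hk
    exact hat s t k (by omega)
  | and p q ihp ihq | or p q ihp ihq =>
    intro k hk e he
    simp only [Form.toks, List.length_cons, List.length_append] at hk
    simp only [gf, List.mem_cons, List.mem_append] at he
    rcases he with he | he | he
    · rw [he, oneK_eq, oneK_length]; omega
    · exact ihp _ (by omega) e he
    · exact ihq _ (by omega) e he
  | not p ih =>
    intro k hk e he
    simp only [Form.toks, List.length_cons] at hk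
    simp only [gf, List.mem_cons] at he
    rcases he with he | he
    · rw [he, oneK_eq, oneK_length]; omega
    · exact ih _ (by omega) e he

theorem atoms_le (p : Form) : p.atoms.length ≤ p.toks.length := by
  induction p with
  | lt s t | le s t | eq s t | ge s t | gt s t => simp [Form.atoms, Form.toks]
  | and p q ihp ihq | or p q ihp ihq =>
    simp only [Form.atoms, Form.toks, List.length_cons, List.length_append]; omega
  | not p ih => simp only [Form.atoms, Form.toks, List.length_cons]; omega

theorem sem3_sz (n : ℕ) (o : Ob) (k M : ℕ) (h : o.toks.length + k ≤ M) :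
    sz (sem3 n o k) ≤ 2 * (n + 2 + M) + (2 * M) * (18 * (3 * (n + 2 + M) + 8) + 2) + 3 := by
  set B := 3 * (n + 2 + M) + 8 with hB
  have key : ∀ (i : ℕ) (l : List Term), i ≤ n + 2 + M → l.length ≤ 2 * M →
      (∀ e ∈ l, e.toks.length ≤ B) →
      sz ((i, l.map Term.toks) : V3) ≤ 2 * (n + 2 + M) + (2 * M) * (18 * B + 2) + 3 := by
    intro i l hi hl he
    rw [sz_pair, sz_nat]
    have h1 := sz_maps l B he
    have h2 := Nat.mul_le_mul_right (18 * B + 2) hl
    omega
  cases o with
  | num i =>
    simp only [Ob.toks, List.length_append, List.length_replicate, List.length_singleton] at h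
    refine key _ _ (by omega) ?_ (gn_toks n M i k (by omega))
    rw [gn_length]; omega
  | tm t =>
    simp only [Ob.toks] at h
    refine key _ _ ((ix_le n t k).trans (by omega)) ?_ (ge_toks n M t k h)
    rw [ge_length]; omega
  | fm p =>
    simp only [Ob.toks] at h
    refine key _ _ (by omega) ?_ (gf_toks n M p k h)
    rw [gf_length]
    have := atoms_le p
    omega

/-- basic equations at the level of symbols -/
def gfK (n : ℕ) (l : List Tok) : List (List Tok) := (topV (0, []) (astate A3 n l)).2

theorem gfK_eq (n : ℕ) (p : Form) : gfK n p.toks = (gf n p 0).map Term.toks := by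
  unfold gfK
  have h := parse_form p [] [] rfl
  rw [List.append_nil] at h
  rw [astate_eq (sem3_ok n), h]
  rfl

theorem PTgfK {α : Type} [TEnc α] {n : α → ℕ} {l : α → List Tok} (hn : PT n) (hl : PT l) :
    PT (fun a => gfK (n a) (l a)) := by
  obtain ⟨L, hL⟩ := hl.bound
  obtain ⟨S, hS⟩ := hn.nbound
  refine (PTtopV _ (PTastate A3_pt hn hl sem3 sem3_ok
    (2 * (S + 2 + L) + (2 * L) * (18 * (3 * (S + 2 + L) + 8) + 2) + 3) ?_)).snd
  intro a o k hk
  have h1 : (l a).length ≤ L.eval (sz a) := (length_le_sz (l a)).trans (hL a)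
  refine (sem3_sz _ _ _ _ (hk.trans h1)).trans ?_
  have h2 := hS a
  have h3 : 18 * (3 * (n a + 2 + L.eval (sz a)) + 8) + 2 ≤
    18 * (3 * (S.eval (sz a) + 2 + L.eval (sz a)) + 8) + 2 := by omega
  have h4 := Nat.mul_le_mul_left (2 * L.eval (sz a)) h3
  simp only [Polynomial.eval_add, Polynomial.eval_mul, Polynomial.eval_ofNat]
  omega

end Pool.Agent.Helper54.ETR
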