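import Pool.Agent.Helper54.RootB

open Finset

namespace Pool.Agent.Helper54

section siegel

attribute [local instance] Matrix.seminormedAddCommGroup

theorem siegel {α β : Type} [Fintype α] [Fintype β] (A : Matrix α β ℤ)
    (hn : Fintype.card α < Fintype.card β) (B : ℕ) (hB : 1 ≤ B)
    (hA : ∀ i j, (A i j).natAbs ≤ B) :
    ∃ t : β → ℤ, t ≠ 0 ∧ A.mulVec t = 0 ∧
      ∀ j, (t j).natAbs ≤ (Fintype.card β * B) ^ Fintype.card β := by
  rcases Nat.eq_zero_or_pos (Fintype.card α) with h0 | hm
  · have hpos : 0 < Fintype.card β := by omega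
    have hα : IsEmpty α := Fintype.card_eq_zero_iff.1 h0
    obtain ⟨j0⟩ : Nonempty β := Fintype.card_pos_iff.1 hpos
    refine ⟨fun _ => 1, fun h => by simpa using congrFun h j0, ?_, fun j => ?_⟩
    · funext i; exact hα.elim i
    · simp only [Int.natAbs_one]
      exact Nat.one_le_pow _ _ (Nat.mul_pos hpos hB)
  · obtain ⟨t, ht0, ht1, ht2⟩ := Int.Matrix.exists_ne_zero_int_vec_norm_le A hn hm
    refine ⟨t, ht0, ht1, fun j => ?_⟩
    have hcast : (Fintype.card α : ℝ) + 1 ≤ Fintype.card β := by exact_mod_cast hn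
    have hBr : (1:ℝ) ≤ B := by exact_mod_cast hB
    have hAn : max 1 ‖A‖ ≤ (B : ℝ) := by
      refine max_le hBr ((Matrix.norm_le_iff (by linarith)).2 fun i j => ?_)
      rw [Int.norm_eq_abs]
      have := hA i j
      rw [← Int.cast_abs, Int.abs_eq_natAbs]
      exact_mod_cast this
    have hβ1 : (1:ℝ) ≤ Fintype.card β := by
      have : (0:ℝ) ≤ Fintype.card α := Nat.cast_nonneg _
      linarith
    have h1 : ‖t j‖ ≤ ‖t‖ := norm_le_pi_norm t j
    have h2 : ((Fintype.card β : ℝ) * max 1 ‖A‖) ^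
        ((Fintype.card α : ℝ) / (Fintype.card β - Fintype.card α)) ≤
        ((Fintype.card β : ℝ) * B) ^ (Fintype.card β) := by
      rw [← Real.rpow_natCast]
      have hα0 : (0:ℝ) ≤ Fintype.card α := Nat.cast_nonneg _
      have hexp : (Fintype.card α : ℝ) / (Fintype.card β - Fintype.card α) ≤
          (Fintype.card β : ℝ) := by
        rw [div_le_iff₀ (by linarith)]
        nlinarith
      have hexp0 : (0:ℝ) ≤ (Fintype.card α : ℝ) / (Fintype.card β - Fintype.card α) :=
        div_nonneg hα0 (by linarith)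
      refine (Real.rpow_le_rpow (by positivity)
        (mul_le_mul_of_nonneg_left hAn (by linarith)) hexp0).trans ?_
      refine Real.rpow_le_rpow_of_exponent_le ?_ hexp
      nlinarith
    have h3 : ‖t j‖ ≤ ((Fintype.card β : ℝ) * B) ^ (Fintype.card β) := (h1.trans ht2).trans h2
    rw [Int.norm_eq_abs, ← Int.cast_abs, Int.abs_eq_natAbs] at h3
    have h4 : (((t j).natAbs : ℕ) : ℝ) ≤ ((Fintype.card β * B : ℕ) : ℝ) ^ (Fintype.card β) := by
      push_cast
      exact_mod_cast h3
    exact_mod_cast h4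

end siegel

section annih

variable {W I : Type} [Fintype W] [DecidableEq W] [Fintype I] [DecidableEq I]

/-- the monomials in the given polynomials -/
noncomputable def mon {D : ℕ} (p : I → MvPolynomial W ℤ) (q : MvPolynomial W ℤ)
    (α : Fin D × (I → Fin D)) : MvPolynomial W ℤ :=
  q ^ (α.1 : ℕ) * ∏ i, p i ^ (α.2 i : ℕ)

/-- bound for the coefficients of an annihilating polynomial -/
def AH (K D h : ℕ) : ℕ := (D ^ K * h ^ (K * D)) ^ (D ^ K)

theorem annih (p : I → MvPolynomial W ℤ) (q : MvPolynomial W ℤ) (d h D : ℕ)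
    (hd : ∀ i, (p i).totalDegree ≤ d) (hqd : q.totalDegree ≤ d)
    (hh : ∀ i, (mvSN W intSN).f (p i) ≤ h) (hqh : (mvSN W intSN).f q ≤ h) (h1 : 1 ≤ h)
    (hD : ((Fintype.card I + 1) * D * d + 1) ^ Fintype.card W < D ^ (Fintype.card I + 1)) :
    ∃ a : Fin D × (I → Fin D) → ℤ, a ≠ 0 ∧
      ∑ α, MvPolynomial.C (a α) * mon p q α = 0 ∧
      ∀ α, (a α).natAbs ≤ AH (Fintype.card I + 1) D h := by
  classical
  set n := (Fintype.card I + 1) * D * d with hn
  have hPd : ∀ α : Fin D × (I → Fin D), (mon p q α).totalDegree ≤ n := by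
    intro α
    refine (MvPolynomial.totalDegree_mul _ _).trans ?_
    have e1 : (q ^ (α.1 : ℕ)).totalDegree ≤ D * d :=
      (MvPolynomial.totalDegree_pow _ _).trans (Nat.mul_le_mul α.1.2.le hqd)
    have e2 : (∏ i, p i ^ (α.2 i : ℕ)).totalDegree ≤ Fintype.card I * (D * d) := by
      refine (MvPolynomial.totalDegree_finsetProd _ _).trans ?_
      calc ∑ i, (p i ^ (α.2 i : ℕ)).totalDegree ≤ ∑ _i : I, D * d :=
            Finset.sum_le_sum fun i _ => (MvPolynomial.totalDegree_pow _ _).trans
              (Nat.mul_le_mul (α.2 i).2.le (hd i))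
        _ = Fintype.card I * (D * d) := by rw [Finset.sum_const, Finset.card_univ, smul_eq_mul]
    calc _ ≤ D * d + Fintype.card I * (D * d) := Nat.add_le_add e1 e2
      _ = n := by rw [hn]; ring
  have hPn : ∀ α : Fin D × (I → Fin D), (mvSN W intSN).f (mon p q α) ≤
      h ^ ((Fintype.card I + 1) * D) := by
    intro α
    refine ((mvSN W intSN).mul_le _ _).trans ?_
    have e1 : (mvSN W intSN).f (q ^ (α.1 : ℕ)) ≤ h ^ D :=
      ((mvSN W intSN).pow_le _ _).trans ((Nat.pow_le_pow_left hqh _).trans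
        (Nat.pow_le_pow_right h1 α.1.2.le))
    have e2 : (mvSN W intSN).f (∏ i, p i ^ (α.2 i : ℕ)) ≤ h ^ (Fintype.card I * D) := by
      refine ((mvSN W intSN).prod_le _ _).trans ?_
      calc ∏ i, (mvSN W intSN).f (p i ^ (α.2 i : ℕ)) ≤ ∏ _i : I, h ^ D := by
            refine Finset.prod_le_prod' fun i _ => ?_
            exact ((mvSN W intSN).pow_le _ _).trans ((Nat.pow_le_pow_left (hh i) _).trans
              (Nat.pow_le_pow_right h1 (α.2 i).2.le))
        _ = h ^ (Fintype.card I * D) := by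
            rw [Finset.prod_const, Finset.card_univ, ← pow_mul, mul_comm]
    calc _ ≤ h ^ D * h ^ (Fintype.card I * D) := Nat.mul_le_mul e1 e2
      _ = _ := by rw [← pow_add]; congr 1; ring
  let A : Matrix (W → Fin (n + 1)) (Fin D × (I → Fin D)) ℤ := fun μ α =>
    MvPolynomial.coeff (Finsupp.equivFunOnFinite.symm fun w => (μ w : ℕ)) (mon p q α)
  have hcard1 : Fintype.card (W → Fin (n + 1)) = (n + 1) ^ Fintype.card W := by
    rw [Fintype.card_fun, Fintype.card_fin]
  have hcard2 : Fintype.card (Fin D × (I → Fin D)) = D ^ (Fintype.card I + 1) := by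
    rw [Fintype.card_prod, Fintype.card_fun, Fintype.card_fin, pow_succ, mul_comm]
  obtain ⟨a, ha0, ha1, ha2⟩ := siegel A (by rw [hcard1, hcard2]; exact hD)
    (h ^ ((Fintype.card I + 1) * D)) (Nat.one_le_pow _ _ h1)
    (fun μ α => (coeff_le_mvSN intSN _ _).trans (hPn α))
  refine ⟨a, ha0, ?_, fun α => ?_⟩
  · ext m
    rw [MvPolynomial.coeff_sum, MvPolynomial.coeff_zero]
    by_cases hm : ∀ w, m w < n + 1
    · have h2 := congrFun ha1 (fun w => ⟨m w, hm w⟩)
      simp only [Matrix.mulVec, dotProduct, A, Pi.zero_apply] at h2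
      have h3 : (Finsupp.equivFunOnFinite.symm fun w => m w) = m := by
        ext w; rfl
      rw [← h2]
      refine Finset.sum_congr rfl fun α _ => ?_
      rw [MvPolynomial.coeff_C_mul, mul_comm, h3]
    · push Not at hm
      obtain ⟨w, hw⟩ := hm
      refine Finset.sum_eq_zero fun α _ => ?_
      rw [MvPolynomial.coeff_C_mul]
      have h4 : MvPolynomial.coeff m (mon p q α) = 0 := by
        apply MvPolynomial.coeff_eq_zero_of_totalDegree_lt
        refine lt_of_le_of_lt (hPd α) ?_
        have h5 : m w ≤ ∑ i ∈ m.support, m i := by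
          by_cases hs : w ∈ m.support
          · exact Finset.single_le_sum (f := fun i => m i) (fun _ _ => Nat.zero_le _) hs
          · rw [Finsupp.notMem_support_iff.1 hs]; exact Nat.zero_le _
        omega
      rw [h4, mul_zero]
  · have := ha2 α
    rw [hcard2] at this
    exact this

end annih

/-! ### Kronecker substitution -/

section kron

variable {I : Type} [Fintype I] [DecidableEq I]

theorem expo_inj (pos : I → ℕ) (hpos : Function.Injective pos) (D E : ℕ) (hE : 1 ≤ E)
    (hDE : D ≤ E) : Function.Injective (fun α : I → Fin D => ∑ i, (α i : ℕ) * E ^ pos i) := by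
  classical
  obtain ⟨M, hM⟩ : ∃ M, ∀ i, pos i < M := by
    refine ⟨(∑ i, pos i) + 1, fun i => ?_⟩
    have := Finset.single_le_sum (f := pos) (fun _ _ => Nat.zero_le _) (Finset.mem_univ i)
    omega
  let g : (I → Fin D) → ℕ → ℕ := fun α k => ∑ i, if pos i = k then (α i : ℕ) else 0
  have hg : ∀ α i, g α (pos i) = α i := by
    intro α i
    simp only [g]
    rw [Finset.sum_eq_single i]
    · simp
    · intro j _ hj
      rw [if_neg fun h => hj (hpos h)]
    · intro h; exact absurd (Finset.mem_univ _) h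
  have hlt : ∀ α k, g α k < E := by
    intro α k
    by_cases h : ∃ i, pos i = k
    · obtain ⟨i, rfl⟩ := h
      rw [hg]
      exact (α i).2.trans_le hDE
    · push Not at h
      simp only [g]
      rw [Finset.sum_eq_zero fun i _ => if_neg (h i)]
      exact hE
  have key : ∀ α : I → Fin D, ∑ i, (α i : ℕ) * E ^ pos i =
      ((finFunctionFinEquiv (fun k : Fin M => (⟨g α k, hlt α k⟩ : Fin E)) : Fin (E ^ M)) : ℕ) := by
    intro α
    rw [finFunctionFinEquiv_apply]
    simp only [g]
    have h1 : ∀ k : Fin M, (∑ i, if pos i = (k:ℕ) then (α i : ℕ) else 0) * E ^ (k:ℕ) =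
        ∑ i, if pos i = (k:ℕ) then (α i : ℕ) * E ^ pos i else 0 := by
      intro k
      rw [Finset.sum_mul]
      refine Finset.sum_congr rfl fun i _ => ?_
      split_ifs with h
      · rw [h]
      · simp
    simp only [h1]
    rw [Finset.sum_comm]
    refine Finset.sum_congr rfl fun i _ => ?_
    rw [Finset.sum_eq_single (⟨pos i, hM i⟩ : Fin M)]
    · simp
    · intro k _ hk
      rw [if_neg]
      intro h
      exact hk (Fin.ext h.symm)
    · intro h; exact absurd (Finset.mem_univ _) h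
  intro α β h
  simp only [key] at h
  have h2 := finFunctionFinEquiv.injective (Fin.ext h)
  funext i
  have h3 := congrFun h2 ⟨pos i, hM i⟩
  have h4 : g α (pos i) = g β (pos i) := congrArg Fin.val h3
  rw [hg, hg] at h4
  exact Fin.ext h4

theorem kron (pos : I → ℕ) (hpos : Function.Injective pos) (D E : ℕ) (hE : 1 ≤ E)
    (hDE : D ≤ E) (a : (I → Fin D) → ℤ) (ha : a ≠ 0) (H : ℕ) (hH : ∀ α, (a α).natAbs ≤ H)
    (B : ℕ) (hB : D ^ Fintype.card I * H < B) :
    ∑ α, (a α : ℂ) * ∏ i, ((B : ℂ) ^ (E ^ pos i)) ^ (α i : ℕ) ≠ 0 := by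
  classical
  have hinj := expo_inj pos hpos D E hE hDE
  set n : (I → Fin D) → ℕ := fun α => ∑ i, (α i : ℕ) * E ^ pos i with hn
  set P : Polynomial ℤ := ∑ α, Polynomial.C (a α) * Polynomial.X ^ n α with hP
  have hcoef : ∀ α, P.coeff (n α) = a α := by
    intro α
    rw [hP, Polynomial.finsetSum_coeff]
    rw [Finset.sum_eq_single α]
    · simp
    · intro β _ hβ
      rw [Polynomial.coeff_C_mul, Polynomial.coeff_X_pow, if_neg, mul_zero]
      intro h; exact hβ (hinj h).symm
    · intro h; exact absurd (Finset.mem_univ _) h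
  have hP0 : P ≠ 0 := by
    intro h
    apply ha
    funext α
    rw [← hcoef α, h]; rfl
  have hl1 : (pSN intSN).f P ≤ D ^ Fintype.card I * H := by
    rw [hP]
    refine ((pSN intSN).sum_le _ _).trans ?_
    calc ∑ α : I → Fin D, (pSN intSN).f (Polynomial.C (a α) * Polynomial.X ^ n α) ≤
        ∑ _α : I → Fin D, H := by
          refine Finset.sum_le_sum fun α _ => ?_
          rw [Polynomial.C_mul_X_pow_eq_monomial]
          exact (pF_monomial intSN _ _).trans (hH α)
      _ = _ := by
          rw [Finset.sum_const, Finset.card_univ, Fintype.card_fun, Fintype.card_fin, smul_eq_mul]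
  intro h
  have h2 : ((∑ α, a α * ∏ i, ((B : ℤ) ^ (E ^ pos i)) ^ (α i : ℕ) : ℤ) : ℂ) = 0 := by
    push_cast
    exact h
  have h3 : (∑ α, a α * ∏ i, ((B : ℤ) ^ (E ^ pos i)) ^ (α i : ℕ) : ℤ) = 0 := by
    exact_mod_cast h2
  have h4 : evZ (B : ℝ) P = 0 := by
    have h5 : evZ (B : ℝ) P = ((∑ α, a α * ∏ i, ((B : ℤ) ^ (E ^ pos i)) ^ (α i : ℕ) : ℤ) : ℝ) := by
      rw [hP]
      simp only [evZ, map_sum, map_mul, map_pow]
      push_cast
      refine Finset.sum_congr rfl fun α _ => ?_
      have e1 : ∏ i, ((B : ℝ) ^ (E ^ pos i)) ^ (α i : ℕ) = (B : ℝ) ^ n α := by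
        rw [hn]
        simp only
        rw [← Finset.prod_pow_eq_pow_sum]
        refine Finset.prod_congr rfl fun i _ => ?_
        rw [← pow_mul, mul_comm]
      rw [e1]
      simp
    rw [h5, h3]; simp
  have h6 := root_upper P hP0 (B : ℝ) h4
  rw [abs_of_nonneg (Nat.cast_nonneg B)] at h6
  have h7 : B ≤ (pSN intSN).f P := by exact_mod_cast h6
  omega

end kron

end Pool.Agent.Helper54
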