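import Pool.Agent.Helper54.Rg.Annih

open Finset

namespace Pool.Agent.Helper54

variable {W I : Type} [Fintype W] [DecidableEq W] [Fintype I] [DecidableEq I]

/-- the hypotheses on degrees, norms and numbers -/
structure Gen (p : I → MvPolynomial W ℤ) (q : MvPolynomial W ℤ) (pos : I → ℕ) (d h D E B : ℕ) :
    Prop where
  hd : ∀ i, (p i).totalDegree ≤ d
  hqd : q.totalDegree ≤ d
  hh : ∀ i, (mvSN W intSN).f (p i) ≤ h
  hqh : (mvSN W intSN).f q ≤ h
  h1 : 1 ≤ h
  hD : ((Fintype.card I + 1) * D * d + 1) ^ Fintype.card W < D ^ (Fintype.card I + 1)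
  hpos : Function.Injective pos
  hE : 1 ≤ E
  hDE : D ≤ E
  hB : D ^ (Fintype.card I + 1) * AH (Fintype.card I + 1) D h < B

variable {p : I → MvPolynomial W ℤ} {q : MvPolynomial W ℤ} {pos : I → ℕ} {d h D E B : ℕ}

namespace Gen

theorem D_pos (G : Gen p q pos d h D E B) : 0 < D := by
  rcases Nat.eq_zero_or_pos D with h0 | h0
  · have := G.hD
    rw [h0, zero_pow (Nat.succ_ne_zero _)] at this
    exact absurd this (Nat.not_lt_zero _)
  · exact h0

theorem kron' (G : Gen p q pos d h D E B) (a : Fin D × (I → Fin D) → ℤ)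
    (hab : ∀ α, (a α).natAbs ≤ AH (Fintype.card I + 1) D h) (k : Fin D)
    (hk : (fun α => a (k, α)) ≠ 0) :
    ∑ α : I → Fin D, (a (k, α) : ℂ) * ∏ i, ((B : ℂ) ^ (E ^ pos i)) ^ (α i : ℕ) ≠ 0 := by
  refine kron pos G.hpos D E G.hE G.hDE (fun α => a (k, α)) hk _ (fun α => hab _) B ?_
  refine lt_of_le_of_lt (Nat.mul_le_mul_right _ ?_) G.hB
  exact Nat.pow_le_pow_right G.D_pos (Nat.le_succ _)

/-- the identity after a specialisation -/
theorem spec {S : Type} [CommRing S] {a : Fin D × (I → Fin D) → ℤ}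
    (ha : ∑ α, MvPolynomial.C (a α) * mon p q α = 0) (ψ : MvPolynomial W ℤ →+* S) :
    ∑ k : Fin D, ψ q ^ (k : ℕ) * ∑ α : I → Fin D, (a (k, α) : S) * ∏ i, ψ (p i) ^ (α i : ℕ) =
      0 := by
  have h1 := congrArg ψ ha
  rw [map_zero, map_sum] at h1
  rw [← h1, Fintype.sum_prod_type]
  refine Finset.sum_congr rfl fun k _ => ?_
  rw [Finset.mul_sum]
  refine Finset.sum_congr rfl fun α _ => ?_
  have h2 : ψ (MvPolynomial.C (a (k, α))) = (a (k, α) : S) := by
    have h3 : (MvPolynomial.C (a (k, α)) : MvPolynomial W ℤ) =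
      ((a (k, α) : ℤ) : MvPolynomial W ℤ) := by simp
    rw [h3, map_intCast]
  simp only [mon, map_mul, h2, map_pow, map_prod]
  ring

theorem root_poly (G : Gen p q pos d h D E B) : ∃ Q : Polynomial ℂ, Q ≠ 0 ∧
    ∀ ψ : MvPolynomial W ℤ →+* ℂ, (∀ i, ψ (p i) = (B : ℂ) ^ (E ^ pos i)) → Q.eval (ψ q) = 0 := by
  obtain ⟨a, ha0, ha1, ha2⟩ := annih p q d h D G.hd G.hqd G.hh G.hqh G.h1 G.hD
  obtain ⟨⟨k, α0⟩, hk⟩ := Function.ne_iff.1 ha0
  have hk' : (fun α => a (k, α)) ≠ 0 := fun h => hk (congrFun h α0)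
  refine ⟨∑ k : Fin D, Polynomial.X ^ (k : ℕ) * Polynomial.C (∑ α : I → Fin D,
    (a (k, α) : ℂ) * ∏ i, ((B : ℂ) ^ (E ^ pos i)) ^ (α i : ℕ)), ?_, ?_⟩
  · intro h0
    have h1 := congrArg (fun P => Polynomial.coeff P (k : ℕ)) h0
    simp only [Polynomial.finsetSum_coeff, Polynomial.coeff_mul_C, Polynomial.coeff_X_pow,
      Polynomial.coeff_zero] at h1
    rw [Finset.sum_eq_single k] at h1
    · simp only [if_true, one_mul] at h1
      exact G.kron' a ha2 k hk' h1
    · intro l _ hl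
      rw [if_neg fun h => hl (Fin.ext h.symm), zero_mul]
    · intro h; exact absurd (Finset.mem_univ _) h
  · intro ψ hψ
    have h1 := spec ha1 ψ
    simp only [hψ] at h1
    rw [Polynomial.eval_finsetSum]
    simp only [Polynomial.eval_mul, Polynomial.eval_pow, Polynomial.eval_X, Polynomial.eval_C]
    exact h1

theorem avoid (G : Gen p q pos d h D E B) (k : ℕ) (hk : ∀ i, pos i ≠ k)
    (ψ : MvPolynomial W ℤ →+* ℂ) (hψ : ∀ i, ψ (p i) = (B : ℂ) ^ (E ^ pos i)) :
    ψ q ≠ (B : ℂ) ^ (E ^ k) := by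
  intro hq
  obtain ⟨a, ha0, ha1, ha2⟩ := annih p q d h D G.hd G.hqd G.hh G.hqh G.h1 G.hD
  have h1 := spec ha1 ψ
  simp only [hψ, hq] at h1
  let pos' : Option I → ℕ := fun o => o.elim k pos
  have hpos' : Function.Injective pos' := by
    intro a b hab
    cases a with
    | none => cases b with
      | none => rfl
      | some b => exact absurd hab.symm (hk b)
    | some a => cases b with
      | none => exact absurd hab (hk a)
      | some b => exact congrArg some (G.hpos hab)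
  let a' : (Option I → Fin D) → ℤ := fun β => a (β none, fun i => β (some i))
  have ha' : a' ≠ 0 := by
    intro h
    apply ha0
    funext ⟨l, α⟩
    have := congrFun h (fun o => o.elim l α)
    exact this
  refine kron pos' hpos' D E G.hE G.hDE a' ha' _ (fun α => ha2 _) B ?_ ?_
  · rw [Fintype.card_option]; exact G.hB
  · rw [← h1]
    simp only [Finset.mul_sum]
    rw [← Fintype.sum_prod_type (f := fun x : Fin D × (I → Fin D) =>
      ((B : ℂ) ^ (E ^ k)) ^ (x.1 : ℕ) * ((a (x.1, x.2) : ℂ) *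
        ∏ i, ((B : ℂ) ^ (E ^ pos i)) ^ (x.2 i : ℕ)))]
    refine Fintype.sum_equiv (Equiv.piOptionEquivProd (β := fun _ => Fin D)) _ _ fun β => ?_
    rw [Fintype.prod_option]
    simp only [a', pos', Option.elim, Equiv.piOptionEquivProd]
    change _ = ((B : ℂ) ^ (E ^ k)) ^ (β none : ℕ) * ((a (β none, fun i => β (some i)) : ℂ) *
      ∏ x, ((B : ℂ) ^ (E ^ pos x)) ^ (β (some x) : ℕ))
    ring

theorem nonvan (G : Gen p q pos d h D E B) (hq0 : q ≠ 0) (ψ : MvPolynomial W ℤ →+* ℂ)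
    (hψ : ∀ i, ψ (p i) = (B : ℂ) ^ (E ^ pos i)) : ψ q ≠ 0 := by
  classical
  intro hψq
  obtain ⟨a, ha0, ha1, ha2⟩ := annih p q d h D G.hd G.hqd G.hh G.hqh G.h1 G.hD
  -- smallest exponent
  have hex : ∃ k : ℕ, ∃ hk : k < D, (fun α => a (⟨k, hk⟩, α)) ≠ 0 := by
    obtain ⟨⟨k, α0⟩, hk⟩ := Function.ne_iff.1 ha0
    exact ⟨k, k.2, fun h => hk (congrFun h α0)⟩
  set k0 := Nat.find hex with hk0
  obtain ⟨hk0D, hk0a⟩ := Nat.find_spec hex
  have hmin : ∀ k : Fin D, (k : ℕ) < k0 → ∀ α, a (k, α) = 0 := by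
    intro k hk α
    by_contra h
    exact Nat.find_min hex hk ⟨k.2, fun h2 => h (congrFun h2 α)⟩
  let Ak : Fin D → MvPolynomial W ℤ := fun k =>
    ∑ α : I → Fin D, (a (k, α) : MvPolynomial W ℤ) * ∏ i, p i ^ (α i : ℕ)
  have hAk : ∀ k : Fin D, (k : ℕ) < k0 → Ak k = 0 := by
    intro k hk
    exact Finset.sum_eq_zero fun α _ => by rw [hmin k hk α]; simp
  have h1 := spec ha1 (RingHom.id (MvPolynomial W ℤ))
  simp only [RingHom.id_apply] at h1
  have h2 : q ^ k0 * ∑ k : Fin D, (if (k : ℕ) < k0 then 0 else q ^ ((k : ℕ) - k0) * Ak k) = 0 := by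
    refine Eq.trans ?_ h1
    rw [Finset.mul_sum]
    refine Finset.sum_congr rfl fun k _ => ?_
    by_cases hk : (k : ℕ) < k0
    · rw [if_pos hk, mul_zero]
      have := hAk k hk
      simp only [Ak] at this
      rw [this, mul_zero]
    · rw [if_neg hk, ← mul_assoc, ← pow_add]
      have : k0 + ((k : ℕ) - k0) = k := by omega
      rw [this]
  have h3 := (mul_eq_zero.1 h2).resolve_left (pow_ne_zero _ hq0)
  have h4 := congrArg ψ h3
  rw [map_zero, map_sum] at h4
  rw [Finset.sum_eq_single (⟨k0, hk0D⟩ : Fin D)] at h4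
  · rw [if_neg (lt_irrefl _)] at h4
    simp only [Nat.sub_self, pow_zero, one_mul] at h4
    simp only [Ak, map_sum, map_mul, map_intCast, map_prod, map_pow, hψ] at h4
    exact G.kron' a ha2 ⟨k0, hk0D⟩ hk0a h4
  · intro k _ hk
    by_cases hlt : (k : ℕ) < k0
    · rw [if_pos hlt, map_zero]
    · rw [if_neg hlt, map_mul, map_pow, hψq, zero_pow, zero_mul]
      intro h5
      exact hk (Fin.ext (by simp only; omega))
  · intro h; exact absurd (Finset.mem_univ _) h

end Gen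

end Pool.Agent.Helper54
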