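import Pool.Agent.Helper54.ETRDefs

namespace Pool.Agent.Helper54.ETR

/-- The value of a term in a commutative ring. -/
def Term.ev {R : Type} [CommRing R] (x : ℕ → R) : Term → R
  | zero => 0
  | one => 1
  | var i => x i
  | add s t => s.ev x + t.ev x
  | sub s t => s.ev x - t.ev x
  | mul s t => s.ev x * t.ev x

/-- The derivative of a term at the point `x` in the direction `v`. -/
def Term.der {R : Type} [CommRing R] (x v : ℕ → R) : Term → R
  | zero => 0
  | one => 0
  | var i => v i
  | add s t => s.der x v + t.der x v
  | sub s t => s.der x v - t.der x v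
  | mul s t => s.ev x * t.der x v + s.der x v * t.ev x

/-- All variables of the term are among `x_0, …, x_{n-1}`. -/
def Term.Below (n : ℕ) : Term → Prop
  | zero => True
  | one => True
  | var i => i < n
  | add s t => s.Below n ∧ t.Below n
  | sub s t => s.Below n ∧ t.Below n
  | mul s t => s.Below n ∧ t.Below n

/-- The list `S` of terms is a regular square system: `S.length` equations `t = 0` in the
variables `x_i`, `i < S.length`, with finitely many complex solutions, at each of which the
Jacobian matrix is nonsingular (its kernel is zero). -/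
structure Regular (S : List Term) : Prop where
  below : ∀ t ∈ S, t.Below S.length
  finite : {x : ℕ → ℂ | (∀ t ∈ S, t.ev x = 0) ∧ ∀ i, S.length ≤ i → x i = 0}.Finite
  nonsingular : ∀ x v : ℕ → ℂ, (∀ t ∈ S, t.ev x = 0) → (∀ t ∈ S, t.der x v = 0) →
    ∀ i < S.length, v i = 0

/-- The formula `t_1 = 0 ∧ (t_2 = 0 ∧ (⋯ ∧ t_k = 0))`. -/
def conj : Term → List Term → Form
  | t, [] => Form.eq t Term.zero
  | t, s :: l => Form.and (Form.eq t Term.zero) (conj s l)

/-- symbolic derivative with respect to `x_j` -/
def Term.dv (j : ℕ) : Term → Term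
  | zero => zero
  | one => zero
  | var i => if i = j then one else zero
  | add s t => add (s.dv j) (t.dv j)
  | sub s t => sub (s.dv j) (t.dv j)
  | mul s t => add (mul s (t.dv j)) (mul (s.dv j) t)

/-- number of nodes -/
def Term.nd : Term → ℕ
  | zero => 1
  | one => 1
  | var _ => 1
  | add s t => s.nd + t.nd + 1
  | sub s t => s.nd + t.nd + 1
  | mul s t => s.nd + t.nd + 1

section

variable {R : Type} [CommRing R]

theorem ev_real (x : ℕ → ℝ) (t : Term) : t.ev x = t.eval x := by
  induction t with
  | zero => rfl
  | one => rfl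
  | var i => rfl
  | add s t ihs iht | sub s t ihs iht | mul s t ihs iht =>
    simp only [Term.ev, Term.eval, ihs, iht]

theorem ev_hom {S : Type} [CommRing S] (f : R →+* S) (x : ℕ → R) (t : Term) :
    f (t.ev x) = t.ev (fun i => f (x i)) := by
  induction t with
  | zero => simp [Term.ev]
  | one => simp [Term.ev]
  | var i => rfl
  | add s t ihs iht => simp only [Term.ev, map_add, ihs, iht]
  | sub s t ihs iht => simp only [Term.ev, map_sub, ihs, iht]
  | mul s t ihs iht => simp only [Term.ev, map_mul, ihs, iht]

/-- unit vector -/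
def uv (j : ℕ) : ℕ → R := fun i => if i = j then 1 else 0

theorem ev_dv (x : ℕ → R) (j : ℕ) (t : Term) : (t.dv j).ev x = t.der x (uv j) := by
  induction t with
  | zero => rfl
  | one => rfl
  | var i =>
    simp only [Term.dv, Term.der, uv]
    split <;> rfl
  | add s t ihs iht | sub s t ihs iht => simp only [Term.dv, Term.ev, Term.der, ihs, iht]
  | mul s t ihs iht => simp only [Term.dv, Term.ev, Term.der, ihs, iht]

theorem der_add (x v w : ℕ → R) (t : Term) :
    t.der x (fun i => v i + w i) = t.der x v + t.der x w := by
  induction t with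
  | zero => simp [Term.der]
  | one => simp [Term.der]
  | var i => simp [Term.der]
  | add s t ihs iht => simp only [Term.der, ihs, iht]; ring
  | sub s t ihs iht => simp only [Term.der, ihs, iht]; ring
  | mul s t ihs iht => simp only [Term.der, ihs, iht]; ring

theorem der_smul (x v : ℕ → R) (c : R) (t : Term) :
    t.der x (fun i => c * v i) = c * t.der x v := by
  induction t with
  | zero => simp [Term.der]
  | one => simp [Term.der]
  | var i => simp [Term.der]
  | add s t ihs iht => simp only [Term.der, ihs, iht]; ring
  | sub s t ihs iht => simp only [Term.der, ihs, iht]; ring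
  | mul s t ihs iht => simp only [Term.der, ihs, iht]; ring

theorem der_sum {ι : Type*} (s : Finset ι) (x : ℕ → R) (c : ι → R) (v : ι → ℕ → R) (t : Term) :
    t.der x (fun i => ∑ j ∈ s, c j * v j i) = ∑ j ∈ s, c j * t.der x (v j) := by
  classical
  induction s using Finset.induction_on with
  | empty =>
    simp only [Finset.sum_empty]
    have := der_smul x (fun _ => 0) 0 t
    simpa using this
  | insert a s ha ih =>
    simp only [Finset.sum_insert ha]
    rw [der_add x (fun i => c a * v a i) (fun i => ∑ j ∈ s, c j * v j i), ih, der_smul]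

/-- the variable `i` occurs in the term -/
def Term.Occ (i : ℕ) : Term → Prop
  | zero => False
  | one => False
  | var j => j = i
  | add s t => s.Occ i ∨ t.Occ i
  | sub s t => s.Occ i ∨ t.Occ i
  | mul s t => s.Occ i ∨ t.Occ i

theorem ev_congr (x y : ℕ → R) (t : Term) (h : ∀ i, t.Occ i → x i = y i) : t.ev x = t.ev y := by
  induction t with
  | zero => rfl
  | one => rfl
  | var i => exact h i rfl
  | add s t ihs iht | sub s t ihs iht | mul s t ihs iht =>
    simp only [Term.ev, ihs fun i hi => h i (Or.inl hi), iht fun i hi => h i (Or.inr hi)]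

theorem der_congr (x v w : ℕ → R) (t : Term) (h : ∀ i, t.Occ i → v i = w i) :
    t.der x v = t.der x w := by
  induction t with
  | zero => rfl
  | one => rfl
  | var i => exact h i rfl
  | add s t ihs iht | sub s t ihs iht | mul s t ihs iht =>
    simp only [Term.der, ihs fun i hi => h i (Or.inl hi), iht fun i hi => h i (Or.inr hi)]

theorem below_iff (n : ℕ) (t : Term) : t.Below n ↔ ∀ i, t.Occ i → i < n := by
  induction t with
  | zero => simp [Term.Below, Term.Occ]
  | one => simp [Term.Below, Term.Occ]
  | var i =>
    simp only [Term.Below, Term.Occ]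
    exact ⟨fun h j hj => hj ▸ h, fun h => h i rfl⟩
  | add s t ihs iht | sub s t ihs iht | mul s t ihs iht =>
    simp only [Term.Below, Term.Occ, ihs, iht]
    exact ⟨fun h i hi => hi.elim (h.1 i) (h.2 i), fun h => ⟨fun i hi => h i (Or.inl hi),
      fun i hi => h i (Or.inr hi)⟩⟩

/-- derivative as a sum over a finite set of coordinates -/
theorem der_coord (s : Finset ℕ) (x v : ℕ → R) (t : Term) (h : ∀ i, t.Occ i → v i ≠ 0 → i ∈ s) :
    t.der x v = ∑ j ∈ s, v j * t.der x (uv j) := by
  classical
  rw [← der_sum s x v uv t]
  refine der_congr x _ _ t fun i hi => ?_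
  simp only [uv, mul_ite, mul_one, mul_zero]
  rw [Finset.sum_ite_eq]
  by_cases h0 : v i = 0
  · simp [h0]
  · simp [h i hi h0]

theorem occ_dv (j i : ℕ) (t : Term) (h : (t.dv j).Occ i) : t.Occ i := by
  induction t with
  | zero => exact h
  | one => exact h
  | var k =>
    simp only [Term.dv] at h
    split at h <;> exact absurd h (by simp [Term.Occ])
  | add s t ihs iht | sub s t ihs iht =>
    rcases h with h | h
    · exact Or.inl (ihs h)
    · exact Or.inr (iht h)
  | mul s t ihs iht =>
    rcases h with (h | h) | (h | h)
    · exact Or.inl h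
    · exact Or.inr (iht h)
    · exact Or.inl (ihs h)
    · exact Or.inr h

theorem nd_pos (t : Term) : 1 ≤ t.nd := by cases t <;> simp [Term.nd]

theorem nd_dv (j : ℕ) (t : Term) : (t.dv j).nd ≤ t.nd ^ 2 := by
  induction t with
  | zero => simp [Term.dv, Term.nd]
  | one => simp [Term.dv, Term.nd]
  | var i => simp only [Term.dv]; split <;> simp [Term.nd]
  | add s t ihs iht | sub s t ihs iht =>
    simp only [Term.dv, Term.nd]
    have := nd_pos s
    have := nd_pos t
    nlinarith
  | mul s t ihs iht =>
    simp only [Term.dv, Term.nd]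
    have := nd_pos s
    have := nd_pos t
    nlinarith

theorem below_mono {n m : ℕ} (h : n ≤ m) (t : Term) (ht : t.Below n) : t.Below m := by
  rw [below_iff] at ht ⊢
  exact fun i hi => (ht i hi).trans_le h

end

end Pool.Agent.Helper54.ETR
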