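import Pool.Agent.Helper54.Rg.Reg

open Finset

namespace Pool.Agent.Helper54

theorem kron_num {K T M1 M0 k : ℕ} (hk : k + 1 = K) (h1 : K * (K * T + 1) ≤ M1)
    (h0 : 2 * (M1 * K) + T * K + M1 + 2 ≤ M0) :
    (K * 2 ^ M1 * T + 1) ^ k < (2 ^ M1) ^ K ∧
      (2 ^ M1) ^ K * AH K (2 ^ M1) (2 ^ T) < 2 ^ 2 ^ M0 := by
  have hD1 : 1 ≤ 2 ^ M1 := Nat.one_le_two_pow
  constructor
  · have e1 : K * 2 ^ M1 * T + 1 ≤ 2 ^ M1 * (K * T + 1) := by nlinarith
    have e2 : (K * T + 1) ^ k < 2 ^ M1 := by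
      have h2 : (K * T + 1) ^ k ≤ (2 ^ (K * T + 1)) ^ k :=
        Nat.pow_le_pow_left (Nat.lt_two_pow_self).le k
      have h3 : (2 ^ (K * T + 1)) ^ k = 2 ^ ((K * T + 1) * k) := (pow_mul _ _ _).symm
      have h4 : (K * T + 1) * k < M1 := by
        have : (K * T + 1) * k < K * (K * T + 1) := by
          rw [mul_comm]
          exact Nat.mul_lt_mul_of_pos_right (by omega) (Nat.succ_pos _)
        omega
      rw [h3] at h2
      exact lt_of_le_of_lt h2 (Nat.pow_lt_pow_right (by norm_num) h4)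
    calc (K * 2 ^ M1 * T + 1) ^ k ≤ (2 ^ M1 * (K * T + 1)) ^ k := Nat.pow_le_pow_left e1 k
      _ = (2 ^ M1) ^ k * (K * T + 1) ^ k := mul_pow _ _ _
      _ < (2 ^ M1) ^ k * 2 ^ M1 := Nat.mul_lt_mul_of_pos_left e2 (by positivity)
      _ = (2 ^ M1) ^ K := by rw [← pow_succ, hk]
  · unfold AH
    have e1 : (2 ^ M1) ^ K = 2 ^ (M1 * K) := (pow_mul _ _ _).symm
    have e2 : (2 ^ T) ^ (K * 2 ^ M1) = 2 ^ (T * (K * 2 ^ M1)) := (pow_mul _ _ _).symm
    rw [e1, e2, ← pow_add, ← pow_mul, ← pow_add]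
    apply Nat.pow_lt_pow_right (by norm_num)
    have a1 : M1 * K ≤ 2 ^ (M1 * K) := (Nat.lt_two_pow_self).le
    have a2 : T * K ≤ 2 ^ (T * K) := (Nat.lt_two_pow_self).le
    have a3 : T * (K * 2 ^ M1) ≤ 2 ^ (T * K + M1) := by
      rw [pow_add, ← mul_assoc]
      exact Nat.mul_le_mul_right _ a2
    have a4 : 2 ^ (M1 * K) ≤ 2 ^ (M1 * K + T * K + M1) :=
      Nat.pow_le_pow_right (by norm_num) (by omega)
    have a5 : 2 ^ (T * K + M1) ≤ 2 ^ (M1 * K + T * K + M1) :=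
      Nat.pow_le_pow_right (by norm_num) (by omega)
    have a6 : (M1 * K + T * (K * 2 ^ M1)) * 2 ^ (M1 * K) ≤
        2 ^ (M1 * K + T * K + M1 + 1) * 2 ^ (M1 * K) := by
      apply Nat.mul_le_mul_right
      rw [pow_succ]
      omega
    rw [← pow_add] at a6
    have a7 : 2 ^ (M1 * K) ≤ 2 ^ (M1 * K + T * K + M1 + 1 + M1 * K) :=
      Nat.pow_le_pow_right (by norm_num) (by omega)
    have a8 : 2 ^ (M1 * K + T * K + M1 + 1 + M1 * K + 1) ≤ 2 ^ M0 :=
      Nat.pow_le_pow_right (by norm_num) (by omega)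
    have a9 : 2 ^ (M1 * K + T * K + M1 + 1 + M1 * K + 1) =
      2 * 2 ^ (M1 * K + T * K + M1 + 1 + M1 * K) := by rw [pow_succ]; ring
    have a10 : M1 * K < 2 ^ (M1 * K) := Nat.lt_two_pow_self
    omega

namespace ETR

section

variable {W : Type}

theorem deg_ev (x : ℕ → MvPolynomial W ℤ) (hx : ∀ i, (x i).totalDegree ≤ 1) (t : Term) :
    (t.ev x).totalDegree ≤ t.nd := by
  induction t with
  | zero => simp [Term.ev]
  | one => simp [Term.ev]
  | var i => exact hx i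
  | add s t ihs iht =>
    refine (MvPolynomial.totalDegree_add _ _).trans (max_le ?_ ?_) <;>
      simp only [Term.nd] <;> omega
  | sub s t ihs iht =>
    refine (MvPolynomial.totalDegree_sub _ _).trans (max_le ?_ ?_) <;>
      simp only [Term.nd] <;> omega
  | mul s t ihs iht =>
    refine (MvPolynomial.totalDegree_mul _ _).trans ?_
    simp only [Term.nd]; omega

theorem pow_add_le {c a b : ℕ} (hc : 2 ≤ c) : c ^ a + c ^ b ≤ c ^ (a + b + 1) := by
  have h1 : c ^ a ≤ c ^ (a + b) := Nat.pow_le_pow_right (by omega) (by omega)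
  have h2 : c ^ b ≤ c ^ (a + b) := Nat.pow_le_pow_right (by omega) (by omega)
  have h3 : 2 * c ^ (a + b) ≤ c * c ^ (a + b) := Nat.mul_le_mul_right _ hc
  rw [pow_succ, mul_comm (c ^ (a + b))]
  omega

theorem nrm_ev {R : Type} [CommRing R] (ν : SubNorm R) (c : ℕ) (hc : 2 ≤ c) (x : ℕ → R)
    (hx : ∀ i, ν.f (x i) ≤ c) (t : Term) : ν.f (t.ev x) ≤ c ^ t.nd := by
  induction t with
  | zero => simp [Term.ev, ν.map_zero]
  | one => exact ν.map_one_le.trans (by simp only [Term.nd, pow_one]; omega)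
  | var i => simpa [Term.nd, Term.ev] using hx i
  | add s t ihs iht =>
    exact (ν.add_le _ _).trans ((Nat.add_le_add ihs iht).trans (pow_add_le hc))
  | sub s t ihs iht =>
    exact (ν.sub_le _ _).trans ((Nat.add_le_add ihs iht).trans (pow_add_le hc))
  | mul s t ihs iht =>
    refine (ν.mul_le _ _).trans ((Nat.mul_le_mul ihs iht).trans ?_)
    rw [← pow_add]
    exact Nat.pow_le_pow_right (by omega) (by simp only [Term.nd]; omega)

theorem deg_det {n : Type} [Fintype n] [DecidableEq n] (A : Matrix n n (MvPolynomial W ℤ))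
    (d : ℕ) (hA : ∀ i j, (A i j).totalDegree ≤ d) : A.det.totalDegree ≤ Fintype.card n * d := by
  rw [Matrix.det_apply]
  refine MvPolynomial.totalDegree_finsetSum_le fun σ _ => ?_
  have h1 : (∏ i, A (σ i) i).totalDegree ≤ Fintype.card n * d := by
    refine (MvPolynomial.totalDegree_finsetProd _ _).trans ?_
    calc ∑ i, (A (σ i) i).totalDegree ≤ ∑ _i : n, d := Finset.sum_le_sum fun i _ => hA _ _
      _ = _ := by rw [Finset.sum_const, Finset.card_univ, smul_eq_mul]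
  rcases Int.units_eq_one_or (Equiv.Perm.sign σ) with h | h
  · rw [h, one_smul]; exact h1
  · rw [h, Units.neg_smul, one_smul, MvPolynomial.totalDegree_neg]; exact h1

theorem nrm_det {R : Type} [CommRing R] (ν : SubNorm R) {n : Type} [Fintype n] [DecidableEq n]
    (A : Matrix n n R) (c : ℕ) (hA : ∀ i j, ν.f (A i j) ≤ c) :
    ν.f A.det ≤ (Fintype.card n * c) ^ Fintype.card n := by
  refine (ν.det_le A).trans ?_
  calc ∏ i, ∑ j, ν.f (A i j) ≤ ∏ _i : n, (Fintype.card n * c) := by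
        refine Finset.prod_le_prod' fun i _ => ?_
        calc ∑ j, ν.f (A i j) ≤ ∑ _j : n, c := Finset.sum_le_sum fun j _ => hA _ _
          _ = _ := by rw [Finset.sum_const, Finset.card_univ, smul_eq_mul]
    _ = _ := by rw [Finset.prod_const, Finset.card_univ]

end

/-- degree bound -/
def T0 (nP m : ℕ) : ℕ := (m + 1) * (m + (nP + 12 * m + 14) ^ 4 + 2)

section

variable (P : Term) (m M0 M1 : ℕ)

theorem gp_deg (hM : 1 ≤ M1) (i : ℕ) : (gp m M0 M1 i).totalDegree ≤ 1 := by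
  by_cases h : ∃ w, gi m M0 M1 w = i
  · obtain ⟨w, rfl⟩ := h
    rw [gp_gi m M0 M1 hM, MvPolynomial.totalDegree_X]
  · unfold gp
    rw [Function.extend_apply' _ _ _ h]; simp

theorem gp_nrm (hM : 1 ≤ M1) (i : ℕ) : (mvSN (WV m) intSN).f (gp m M0 M1 i) ≤ 1 := by
  by_cases h : ∃ w, gi m M0 M1 w = i
  · obtain ⟨w, rfl⟩ := h
    rw [gp_gi m M0 M1 hM]
    exact mvSN_X (W := WV m) intSN w
  · unfold gp
    rw [Function.extend_apply' _ _ _ h]
    have : (mvSN (WV m) intSN).f (0 : MvPolynomial (WV m) ℤ) = 0 := (mvSN (WV m) intSN).map_zero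
    simp only [Pi.zero_apply]
    omega

theorem genH (hM1 : (m + 4) * ((m + 4) * T0 P.nd m + 1) ≤ M1)
    (hM0 : 2 * (M1 * (m + 4)) + T0 P.nd m * (m + 4) + M1 + 2 ≤ M0) :
    GenH P m M0 M1 (T0 P.nd m) (2 ^ T0 P.nd m) := by
  classical
  set nG := P.nd + 12 * m + 14 with hnG
  have hT : T0 P.nd m = (m + 1) * (m + nG ^ 4 + 2) := rfl
  set T := T0 P.nd m with hTdef
  have hG : (TG P m M0 M1).nd = nG := nd_TG P m M0 M1
  have hG1 : 1 ≤ nG := by omega
  have hT1 : 1 ≤ T := by rw [hT]; exact Nat.mul_pos (by omega) (by omega)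
  have hM : 1 ≤ M1 := by
    have : 1 ≤ (m + 4) * ((m + 4) * T + 1) := Nat.mul_pos (by omega) (by omega)
    omega
  have p2 : nG ^ 2 ≤ nG ^ 4 := Nat.pow_le_pow_right hG1 (by norm_num)
  have p1 : nG ≤ nG ^ 4 := by
    calc nG = nG ^ 1 := (pow_one _).symm
      _ ≤ nG ^ 4 := Nat.pow_le_pow_right hG1 (by norm_num)
  have q1 : m + nG ^ 4 + 2 ≤ T := by
    rw [hT]; exact Nat.le_mul_of_pos_left _ (by omega)
  have q2 : m * nG ^ 4 ≤ T := by
    rw [hT]; exact Nat.mul_le_mul (by omega) (by omega)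
  have q3 : m * (m + nG ^ 4) ≤ T := by
    rw [hT]; exact Nat.mul_le_mul (by omega) (by omega)
  have gd := gp_deg m M0 M1 hM
  have gn : ∀ i, (mvSN (WV m) intSN).f (gp m M0 M1 i) ≤ 2 := fun i =>
    (gp_nrm m M0 M1 hM i).trans (by norm_num)
  have nd1 : ∀ j, ((TG P m M0 M1).dv j).nd ≤ nG ^ 2 := fun j => by
    have := nd_dv j (TG P m M0 M1); rwa [hG] at this
  have nd2 : ∀ i j, (((TG P m M0 M1).dv i).dv j).nd ≤ nG ^ 4 := fun i j => by
    have h1 := nd_dv j ((TG P m M0 M1).dv i)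
    have h2 : ((TG P m M0 M1).dv i).nd ^ 2 ≤ (nG ^ 2) ^ 2 := Nat.pow_le_pow_left (nd1 i) 2
    have h3 : (nG ^ 2) ^ 2 = nG ^ 4 := by rw [← pow_mul]
    omega
  have hTT : ∀ {k}, k ≤ T → 2 ^ k ≤ 2 ^ T := fun h => Nat.pow_le_pow_right (by norm_num) h
  have ppd : ∀ w, (pp P m M0 M1 w).totalDegree ≤ T := by
    intro w
    rcases w with j | k
    · exact (deg_ev _ gd _).trans ((nd1 _).trans (by omega))
    · simp only [pp, MvPolynomial.totalDegree_X]; omega
  have ppn' : ∀ j : Fin m, (mvSN (WV m) intSN).f (pp P m M0 M1 (Sum.inl j)) ≤ 2 ^ nG ^ 2 :=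
    fun j => (nrm_ev _ 2 le_rfl _ gn _).trans (Nat.pow_le_pow_right (by norm_num) (nd1 _))
  have ppn : ∀ w, (mvSN (WV m) intSN).f (pp P m M0 M1 w) ≤ 2 ^ T := by
    intro w
    rcases w with j | k
    · exact (ppn' j).trans (hTT (by omega))
    · exact (mvSN_X (W := WV m) intSN _).trans Nat.one_le_two_pow
  obtain ⟨k1, k2⟩ := kron_num (k := m + 3) (K := m + 4) (T := T) (M1 := M1) (M0 := M0) rfl
    hM1 hM0
  have hcard : Fintype.card (WV m) = m + 3 := by simp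
  have mk : ∀ q : MvPolynomial (WV m) ℤ, q.totalDegree ≤ T →
      (mvSN (WV m) intSN).f q ≤ 2 ^ T →
      Gen (pp P m M0 M1) q (ps m) T (2 ^ T) (2 ^ M1) (2 ^ M1) (2 ^ 2 ^ M0) := by
    intro q h1 h2
    refine ⟨ppd, h1, ppn, h2, Nat.one_le_two_pow, ?_, ps_inj m, Nat.one_le_two_pow, le_rfl, ?_⟩
    · rw [hcard]; exact k1
    · rw [hcard]; exact k2
  refine ⟨hM, mk _ ?_ ?_, mk _ ?_ ?_, fun j => mk _ ?_ ?_⟩
  · refine (deg_det _ (nG ^ 4) fun i j => (deg_ev _ gd _).trans (nd2 _ _)).trans ?_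
    rw [Fintype.card_fin]; exact q2
  · refine (nrm_det (mvSN (WV m) intSN) _ (2 ^ nG ^ 4) fun i j =>
      (nrm_ev _ 2 le_rfl _ gn _).trans (Nat.pow_le_pow_right (by norm_num) (nd2 _ _))).trans ?_
    rw [Fintype.card_fin]
    have h1 : m * 2 ^ nG ^ 4 ≤ 2 ^ (m + nG ^ 4) := by
      rw [pow_add]; exact Nat.mul_le_mul_right _ (Nat.lt_two_pow_self).le
    refine (Nat.pow_le_pow_left h1 m).trans ?_
    rw [← pow_mul, mul_comm]
    exact hTT q3
  · refine (MvPolynomial.totalDegree_sub _ _).trans (max_le ?_ ?_)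
    · refine (deg_ev _ gd _).trans ?_
      rw [hG]; omega
    · refine MvPolynomial.totalDegree_finsetSum_le fun j _ => ?_
      refine (MvPolynomial.totalDegree_mul _ _).trans ?_
      rw [MvPolynomial.totalDegree_X]
      have h1 : (pp P m M0 M1 (Sum.inl j)).totalDegree ≤ nG ^ 2 :=
        (deg_ev _ gd _).trans (nd1 _)
      omega
  · refine ((mvSN (WV m) intSN).sub_le _ _).trans ?_
    have h1 : (mvSN (WV m) intSN).f ((TG P m M0 M1).ev (gp m M0 M1)) ≤ 2 ^ nG ^ 4 :=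
      (nrm_ev _ 2 le_rfl _ gn _).trans (Nat.pow_le_pow_right (by norm_num) (by rw [hG]; exact p1))
    have h2 : (mvSN (WV m) intSN).f (∑ j : Fin m, pp P m M0 M1 (Sum.inl j) *
        MvPolynomial.X (Sum.inl j)) ≤ m * 2 ^ nG ^ 4 := by
      refine ((mvSN (WV m) intSN).sum_le _ _).trans ?_
      calc ∑ j : Fin m, (mvSN (WV m) intSN).f (pp P m M0 M1 (Sum.inl j) *
            MvPolynomial.X (Sum.inl j)) ≤ ∑ _j : Fin m, 2 ^ nG ^ 4 := by
            refine Finset.sum_le_sum fun j _ => ?_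
            refine ((mvSN (WV m) intSN).mul_le _ _).trans ?_
            refine (Nat.mul_le_mul (ppn' j) (mvSN_X (W := WV m) intSN _)).trans ?_
            rw [mul_one]
            exact Nat.pow_le_pow_right (by norm_num) p2
        _ = _ := by rw [Finset.sum_const, Finset.card_univ, Fintype.card_fin, smul_eq_mul]
    have h3 : 2 ^ nG ^ 4 + m * 2 ^ nG ^ 4 ≤ 2 ^ (m + nG ^ 4) := by
      have h4 : m + 1 ≤ 2 ^ m := Nat.lt_two_pow_self
      have h5 := Nat.mul_le_mul_right (2 ^ nG ^ 4) h4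
      rw [pow_add]
      calc _ = (m + 1) * 2 ^ nG ^ 4 := by ring
        _ ≤ _ := h5
    exact (Nat.add_le_add h1 h2).trans (h3.trans (hTT (by omega)))
  · rw [MvPolynomial.totalDegree_X]; omega
  · exact (mvSN_X (W := WV m) intSN _).trans Nat.one_le_two_pow

end

end ETR

end Pool.Agent.Helper54
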