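import Pool.Agent.Helper54.Rg.Gate

open Finset

namespace Pool.Agent.Helper54.ETR

section ring

variable {R : Type} [CommRing R] (n : ℕ)

theorem mem_ga (s t : Term) (k : ℕ) (Q : Term → Prop) : (∀ e ∈ ga n s t k, Q e) ↔
    Q (gOne (n + 2 + (s.toks.length + t.toks.length + k))) ∧
    Q (gAdd (ix n s (t.toks.length + k)) (ix n s (t.toks.length + k))
      (ix n s (t.toks.length + k))) ∧
    (∀ e ∈ ge n s (t.toks.length + k), Q e) ∧ ∀ e ∈ ge n t k, Q e := by
  simp only [ga, List.mem_cons, List.mem_append]
  constructor
  · intro h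
    exact ⟨h _ (Or.inl rfl), h _ (Or.inr (Or.inl rfl)), fun e he => h e (Or.inr (Or.inr
      (Or.inl he))), fun e he => h e (Or.inr (Or.inr (Or.inr he)))⟩
  · rintro ⟨h1, h2, h3, h4⟩ e (he | he | he | he)
    · rw [he]; exact h1
    · rw [he]; exact h2
    · exact h3 e he
    · exact h4 e he

theorem mem_bin (e0 : Term) (A B : List Term) (Q : Term → Prop) :
    (∀ e ∈ e0 :: (A ++ B), Q e) ↔ Q e0 ∧ (∀ e ∈ A, Q e) ∧ ∀ e ∈ B, Q e := by
  simp only [List.mem_cons, List.mem_append]
  constructor
  · intro h
    exact ⟨h _ (Or.inl rfl), fun e he => h e (Or.inr (Or.inl he)),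
      fun e he => h e (Or.inr (Or.inr he))⟩
  · rintro ⟨h1, h2, h3⟩ e (he | he | he)
    · rw [he]; exact h1
    · exact h2 e he
    · exact h3 e he

theorem gf_val (x : ℕ → R) (h0 : x n = 0) (h1 : x (n + 1) = 1) (p : Form) : ∀ k,
    (∀ e ∈ gf n p k, e.ev x = 0) → ∀ a ∈ p.atoms, a.1.ev x = 0 := by
  have hat : ∀ (s t : Term) (k : ℕ), (∀ e ∈ ga n s t k, e.ev x = 0) → s.ev x = 0 := by
    intro s t k h
    rw [mem_ga] at h
    obtain ⟨-, h2, h3, -⟩ := h
    rw [ge_val n x h0 h1 s _ h3 |>.symm]
    rw [ev_gAdd] at h2
    linear_combination h2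
  induction p with
  | lt s t | le s t | eq s t | ge s t | gt s t =>
    intro k h a ha
    simp only [Form.atoms, List.mem_singleton] at ha
    rw [ha]
    exact hat s t k h
  | and p q ihp ihq | or p q ihp ihq =>
    intro k h a ha
    rw [gf, mem_bin] at h
    simp only [Form.atoms, List.mem_append] at ha
    rcases ha with ha | ha
    · exact ihp _ h.2.1 a ha
    · exact ihq _ h.2.2 a ha
  | not p ih =>
    intro k h a ha
    simp only [gf, List.mem_cons] at h
    exact ih _ (fun e he => h e (Or.inr he)) a ha

theorem gf_dval (x v : ℕ → R) (h0 : x n = 0) (h1 : x (n + 1) = 1) (d0 : v n = 0)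
    (d1 : v (n + 1) = 0) (p : Form) : ∀ k, (∀ e ∈ gf n p k, e.ev x = 0) →
    (∀ e ∈ gf n p k, e.der x v = 0) → ∀ a ∈ p.atoms, a.1.der x v = 0 := by
  have hat : ∀ (s t : Term) (k : ℕ), (∀ e ∈ ga n s t k, e.ev x = 0) →
      (∀ e ∈ ga n s t k, e.der x v = 0) → s.der x v = 0 := by
    intro s t k h hd
    rw [mem_ga] at h hd
    obtain ⟨-, h2, h3, -⟩ := h
    obtain ⟨-, d2, d3, -⟩ := hd
    rw [ge_dval n x v h0 h1 d0 d1 s _ h3 d3 |>.symm]
    rw [der_gAdd] at d2
    linear_combination d2
  induction p with
  | lt s t | le s t | eq s t | ge s t | gt s t =>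
    intro k h hd a ha
    simp only [Form.atoms, List.mem_singleton] at ha
    rw [ha]
    exact hat s t k h hd
  | and p q ihp ihq | or p q ihp ihq =>
    intro k h hd a ha
    rw [gf, mem_bin] at h hd
    simp only [Form.atoms, List.mem_append] at ha
    rcases ha with ha | ha
    · exact ihp _ h.2.1 hd.2.1 a ha
    · exact ihq _ h.2.2 hd.2.2 a ha
  | not p ih =>
    intro k h hd a ha
    simp only [gf, List.mem_cons] at h hd
    exact ih _ (fun e he => h e (Or.inr he)) (fun e he => hd e (Or.inr he)) a ha

theorem gf_agree (x y : ℕ → R) (h0 : x n = y n) (h1 : x (n + 1) = y (n + 1))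
    (hxy : ∀ i < n, x i = y i) (p : Form) (hp : FBelow n p) : ∀ k,
    (∀ e ∈ gf n p k, e.ev x = 0) → (∀ e ∈ gf n p k, e.ev y = 0) →
      ∀ q, k ≤ q → q < p.toks.length + k → x (n + 2 + q) = y (n + 2 + q) := by
  have hpin : ∀ q, (gOne (n + 2 + q)).ev x = 0 → (gOne (n + 2 + q)).ev y = 0 →
      x (n + 2 + q) = y (n + 2 + q) := by
    intro q h h'
    rw [ev_gOne, sub_eq_zero] at h h'
    rw [h, h']
  have hat : ∀ (s t : Term) (k : ℕ), s.Below n → t.Below n → (∀ e ∈ ga n s t k, e.ev x = 0) →
      (∀ e ∈ ga n s t k, e.ev y = 0) → ∀ q, k ≤ q → q < s.toks.length + t.toks.length + 1 + k →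
      x (n + 2 + q) = y (n + 2 + q) := by
    intro s t k hs ht hx hy q hq hq'
    rw [mem_ga] at hx hy
    rcases Nat.lt_or_ge q (t.toks.length + k) with h3 | h3
    · exact (ge_agree n x y h0 h1 hxy t ht _ hx.2.2.2 hy.2.2.2).2 q hq h3
    · rcases Nat.lt_or_ge q (s.toks.length + (t.toks.length + k)) with h4 | h4
      · exact (ge_agree n x y h0 h1 hxy s hs _ hx.2.2.1 hy.2.2.1).2 q h3 h4
      · have : q = s.toks.length + t.toks.length + k := by omega
        rw [this]; exact hpin _ hx.1 hy.1
  induction p with
  | lt s t | le s t | eq s t | ge s t | gt s t =>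
    intro k hx hy q hq hq'
    have h := hp (s, t) (by simp [Form.atoms])
    simp only [Form.toks, List.length_cons, List.length_append] at hq'
    exact hat s t k h.1 h.2 hx hy q hq (by omega)
  | and p r ihp ihr | or p r ihp ihr =>
    intro k hx hy q hq hq'
    have hp1 : FBelow n p := fun a ha => hp a (by simp [Form.atoms, ha])
    have hp2 : FBelow n r := fun a ha => hp a (by simp [Form.atoms, ha])
    simp only [Form.toks, List.length_cons, List.length_append] at hq'
    rw [gf, mem_bin] at hx hy
    rcases Nat.lt_or_ge q (r.toks.length + k) with h3 | h3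
    · exact ihr hp2 _ hx.2.2 hy.2.2 q hq h3
    · rcases Nat.lt_or_ge q (p.toks.length + (r.toks.length + k)) with h4 | h4
      · exact ihp hp1 _ hx.2.1 hy.2.1 q h3 h4
      · have : q = p.toks.length + r.toks.length + k := by omega
        rw [this]; exact hpin _ hx.1 hy.1
  | not p ih =>
    intro k hx hy q hq hq'
    simp only [Form.toks, List.length_cons] at hq'
    simp only [gf, List.mem_cons] at hx hy
    rcases Nat.lt_or_ge q (p.toks.length + k) with h3 | h3
    · exact ih hp _ (fun e he => hx e (Or.inr he)) (fun e he => hy e (Or.inr he)) q hq h3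
    · have : q = p.toks.length + k := by omega
      rw [this]; exact hpin _ (hx _ (Or.inl rfl)) (hy _ (Or.inl rfl))

theorem gf_ker (x v : ℕ → R) (h0 : v n = 0) (h1 : v (n + 1) = 0)
    (hv : ∀ i < n, v i = 0) (p : Form) (hp : FBelow n p) : ∀ k,
    (∀ e ∈ gf n p k, e.der x v = 0) →
      ∀ q, k ≤ q → q < p.toks.length + k → v (n + 2 + q) = 0 := by
  have hat : ∀ (s t : Term) (k : ℕ), s.Below n → t.Below n → (∀ e ∈ ga n s t k, e.der x v = 0) →
      ∀ q, k ≤ q → q < s.toks.length + t.toks.length + 1 + k → v (n + 2 + q) = 0 := by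
    intro s t k hs ht hx q hq hq'
    rw [mem_ga] at hx
    rcases Nat.lt_or_ge q (t.toks.length + k) with h3 | h3
    · exact (ge_ker n x v h0 h1 hv t ht _ hx.2.2.2).2 q hq h3
    · rcases Nat.lt_or_ge q (s.toks.length + (t.toks.length + k)) with h4 | h4
      · exact (ge_ker n x v h0 h1 hv s hs _ hx.2.2.1).2 q h3 h4
      · have : q = s.toks.length + t.toks.length + k := by omega
        rw [this, ← hx.1, der_gOne]
  induction p with
  | lt s t | le s t | eq s t | ge s t | gt s t =>
    intro k hx q hq hq'
    have h := hp (s, t) (by simp [Form.atoms])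
    simp only [Form.toks, List.length_cons, List.length_append] at hq'
    exact hat s t k h.1 h.2 hx q hq (by omega)
  | and p r ihp ihr | or p r ihp ihr =>
    intro k hx q hq hq'
    have hp1 : FBelow n p := fun a ha => hp a (by simp [Form.atoms, ha])
    have hp2 : FBelow n r := fun a ha => hp a (by simp [Form.atoms, ha])
    simp only [Form.toks, List.length_cons, List.length_append] at hq'
    rw [gf, mem_bin] at hx
    rcases Nat.lt_or_ge q (r.toks.length + k) with h3 | h3
    · exact ihr hp2 _ hx.2.2 q hq h3
    · rcases Nat.lt_or_ge q (p.toks.length + (r.toks.length + k)) with h4 | h4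
      · exact ihp hp1 _ hx.2.1 q h3 h4
      · have : q = p.toks.length + r.toks.length + k := by omega
        rw [this, ← hx.1, der_gOne]
  | not p ih =>
    intro k hx q hq hq'
    simp only [Form.toks, List.length_cons] at hq'
    simp only [gf, List.mem_cons] at hx
    rcases Nat.lt_or_ge q (p.toks.length + k) with h3 | h3
    · exact ih hp _ (fun e he => hx e (Or.inr he)) q hq h3
    · have : q = p.toks.length + k := by omega
      rw [this, ← hx _ (Or.inl rfl), der_gOne]

/-! ### existence of the extension -/

/-- values of the new variables -/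
def wt (y : ℕ → R) : Term → ℕ → ℕ → R
  | Term.add s t, k, q => if q = s.toks.length + t.toks.length + k then
      (Term.add s t).ev y else if q < t.toks.length + k then wt y t k q else
      wt y s (t.toks.length + k) q
  | Term.sub s t, k, q => if q = s.toks.length + t.toks.length + k then
      (Term.sub s t).ev y else if q < t.toks.length + k then wt y t k q else
      wt y s (t.toks.length + k) q
  | Term.mul s t, k, q => if q = s.toks.length + t.toks.length + k then
      (Term.mul s t).ev y else if q < t.toks.length + k then wt y t k q else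
      wt y s (t.toks.length + k) q
  | _, _, _ => 1

def wa (y : ℕ → R) (s t : Term) (k q : ℕ) : R :=
  if q = s.toks.length + t.toks.length + k then 1 else if q < t.toks.length + k then wt y t k q
    else wt y s (t.toks.length + k) q

def wf (y : ℕ → R) : Form → ℕ → ℕ → R
  | Form.lt s t, k, q => wa y s t k q
  | Form.le s t, k, q => wa y s t k q
  | Form.eq s t, k, q => wa y s t k q
  | Form.ge s t, k, q => wa y s t k q
  | Form.gt s t, k, q => wa y s t k q
  | Form.and p r, k, q => if q = p.toks.length + r.toks.length + k then 1 else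
      if q < r.toks.length + k then wf y r k q else wf y p (r.toks.length + k) q
  | Form.or p r, k, q => if q = p.toks.length + r.toks.length + k then 1 else
      if q < r.toks.length + k then wf y r k q else wf y p (r.toks.length + k) q
  | Form.not p, k, q => if q = p.toks.length + k then 1 else wf y p k q

variable {n} in
theorem gn_ex (x : ℕ → R) (i : ℕ) : ∀ k, (∀ q, k ≤ q → q < i + 1 + k → x (n + 2 + q) = 1) →
    ∀ e ∈ gn n i k, e.ev x = 0 := by
  induction i with
  | zero =>
    intro k h e he
    simp only [gn, List.mem_singleton] at he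
    rw [he, ev_gOne, h k (by omega) (by omega), sub_self]
  | succ i ih =>
    intro k h e he
    simp only [gn, List.mem_cons] at he
    rcases he with he | he
    · rw [he, ev_gOne, h _ (by omega) (by omega), sub_self]
    · exact ih k (fun q hq hq' => h q hq (by omega)) e he

variable {n} in
theorem ge_ex (x y : ℕ → R) (h0 : x n = 0) (h1 : x (n + 1) = 1) (hxy : ∀ i < n, x i = y i)
    (t : Term) (ht : t.Below n) : ∀ k, (∀ q, k ≤ q → q < t.toks.length + k →
      x (n + 2 + q) = wt y t k q) → (∀ e ∈ ge n t k, e.ev x = 0) ∧ x (ix n t k) = t.ev y := by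
  induction t with
  | zero =>
    intro k h
    refine ⟨fun e he => ?_, h0⟩
    simp only [ge, List.mem_singleton] at he
    rw [he, ev_gOne, h k le_rfl (by simp only [Term.toks, List.length_singleton]; omega), wt,
      sub_self]
    all_goals simp
  | one =>
    intro k h
    refine ⟨fun e he => ?_, h1⟩
    simp only [ge, List.mem_singleton] at he
    rw [he, ev_gOne, h k le_rfl (by simp only [Term.toks, List.length_singleton]; omega), wt,
      sub_self]
    all_goals simp
  | var i =>
    intro k h
    refine ⟨fun e he => ?_, hxy i ht⟩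
    have h' : ∀ q, k ≤ q → q < i + 2 + k → x (n + 2 + q) = 1 := by
      intro q hq hq'
      rw [h q hq (by simp only [Term.toks, List.length_cons, List.length_append,
        List.length_replicate, List.length_nil]; omega), wt]
      all_goals simp
    simp only [ge, List.mem_cons] at he
    rcases he with he | he
    · rw [he, ev_gOne, h' _ (by omega) (by omega), sub_self]
    · exact gn_ex x i k (fun q hq hq' => h' q hq (by omega)) e he
  | add s t ihs iht =>
    intro k h
    simp only [Term.toks, List.length_cons, List.length_append] at h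
    have hhead := h (s.toks.length + t.toks.length + k) (by omega) (by omega)
    obtain ⟨b1, b2⟩ := ihs ht.1 (t.toks.length + k) fun q hq hq' => by
      rw [h q (by omega) (by omega), wt, if_neg (by omega), if_neg (by omega)]
    obtain ⟨c1, c2⟩ := iht ht.2 k fun q hq hq' => by
      rw [h q (by omega) (by omega), wt, if_neg (by omega), if_pos (by omega)]
    rw [wt, if_pos rfl] at hhead
    refine ⟨?_, hhead⟩
    rw [ge, mem_bin]
    refine ⟨?_, b1, c1⟩
    rw [ev_gAdd, b2, c2, hhead]
    exact sub_self _
  | sub s t ihs iht =>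
    intro k h
    simp only [Term.toks, List.length_cons, List.length_append] at h
    have hhead := h (s.toks.length + t.toks.length + k) (by omega) (by omega)
    obtain ⟨b1, b2⟩ := ihs ht.1 (t.toks.length + k) fun q hq hq' => by
      rw [h q (by omega) (by omega), wt, if_neg (by omega), if_neg (by omega)]
    obtain ⟨c1, c2⟩ := iht ht.2 k fun q hq hq' => by
      rw [h q (by omega) (by omega), wt, if_neg (by omega), if_pos (by omega)]
    rw [wt, if_pos rfl] at hhead
    refine ⟨?_, hhead⟩
    rw [ge, mem_bin]
    refine ⟨?_, b1, c1⟩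
    rw [ev_gAdd, b2, c2, hhead]
    simp only [Term.ev]
    ring
  | mul s t ihs iht =>
    intro k h
    simp only [Term.toks, List.length_cons, List.length_append] at h
    have hhead := h (s.toks.length + t.toks.length + k) (by omega) (by omega)
    obtain ⟨b1, b2⟩ := ihs ht.1 (t.toks.length + k) fun q hq hq' => by
      rw [h q (by omega) (by omega), wt, if_neg (by omega), if_neg (by omega)]
    obtain ⟨c1, c2⟩ := iht ht.2 k fun q hq hq' => by
      rw [h q (by omega) (by omega), wt, if_neg (by omega), if_pos (by omega)]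
    rw [wt, if_pos rfl] at hhead
    refine ⟨?_, hhead⟩
    rw [ge, mem_bin]
    refine ⟨?_, b1, c1⟩
    rw [ev_gMul, b2, c2, hhead]
    exact sub_self _

variable {n} in
theorem gf_ex (x y : ℕ → R) (h0 : x n = 0) (h1 : x (n + 1) = 1) (hxy : ∀ i < n, x i = y i)
    (p : Form) (hp : FBelow n p) (ha : ∀ a ∈ p.atoms, a.1.ev y = 0) : ∀ k,
      (∀ q, k ≤ q → q < p.toks.length + k → x (n + 2 + q) = wf y p k q) →
      ∀ e ∈ gf n p k, e.ev x = 0 := by
  have hat : ∀ (s t : Term) (k : ℕ), s.Below n → t.Below n → s.ev y = 0 →
      (∀ q, k ≤ q → q < s.toks.length + t.toks.length + 1 + k → x (n + 2 + q) = wa y s t k q) →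
      ∀ e ∈ ga n s t k, e.ev x = 0 := by
    intro s t k hs ht hs0 h
    rw [mem_ga]
    have hhead := h (s.toks.length + t.toks.length + k) (by omega) (by omega)
    obtain ⟨b1, b2⟩ := ge_ex x y h0 h1 hxy s hs (t.toks.length + k) fun q hq hq' => by
      rw [h q (by omega) (by omega), wa, if_neg (by omega), if_neg (by omega)]
    obtain ⟨c1, c2⟩ := ge_ex x y h0 h1 hxy t ht k fun q hq hq' => by
      rw [h q (by omega) (by omega), wa, if_neg (by omega), if_pos (by omega)]
    rw [wa, if_pos rfl] at hhead
    refine ⟨?_, ?_, b1, c1⟩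
    · rw [ev_gOne, hhead, sub_self]
    · rw [ev_gAdd, b2, hs0]; ring
  induction p with
  | lt s t | le s t | eq s t | ge s t | gt s t =>
    intro k h
    have hb := hp (s, t) (by simp [Form.atoms])
    have ha0 := ha (s, t) (by simp [Form.atoms])
    simp only [Form.toks, List.length_cons, List.length_append] at h
    exact hat s t k hb.1 hb.2 ha0 fun q hq hq' => h q hq (by omega)
  | and p r ihp ihr | or p r ihp ihr =>
    intro k h
    have hp1 : FBelow n p := fun a ha => hp a (by simp [Form.atoms, ha])
    have hp2 : FBelow n r := fun a ha => hp a (by simp [Form.atoms, ha])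
    have ha1 : ∀ a ∈ p.atoms, a.1.ev y = 0 := fun a h => ha a (by simp [Form.atoms, h])
    have ha2 : ∀ a ∈ r.atoms, a.1.ev y = 0 := fun a h => ha a (by simp [Form.atoms, h])
    simp only [Form.toks, List.length_cons, List.length_append] at h
    have hhead := h (p.toks.length + r.toks.length + k) (by omega) (by omega)
    have b := ihp hp1 ha1 (r.toks.length + k) fun q hq hq' => by
      rw [h q (by omega) (by omega), wf, if_neg (by omega), if_neg (by omega)]
    have c := ihr hp2 ha2 k fun q hq hq' => by
      rw [h q (by omega) (by omega), wf, if_neg (by omega), if_pos (by omega)]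
    rw [wf, if_pos rfl] at hhead
    rw [gf, mem_bin]
    refine ⟨?_, b, c⟩
    rw [ev_gOne, hhead, sub_self]
  | not p ih =>
    intro k h e he
    simp only [Form.toks, List.length_cons] at h
    have hhead := h (p.toks.length + k) (by omega) (by omega)
    have b := ih hp ha k fun q hq hq' => by
      rw [h q (by omega) (by omega), wf, if_neg (by omega)]
    rw [wf, if_pos rfl] at hhead
    simp only [gf, List.mem_cons] at he
    rcases he with he | he
    · rw [he, ev_gOne, hhead, sub_self]
    · exact b e he

end ring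

end Pool.Agent.Helper54.ETR
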