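import Pool.Agent.Helper54.Rg.Real2

open Finset

namespace Pool.Agent.Helper54.ETR

theorem T0_mono {a b m : ℕ} (h : a ≤ b) : T0 a m ≤ T0 b m := by
  unfold T0
  have h1 : (a + 12 * m + 14) ^ 4 ≤ (b + 12 * m + 14) ^ 4 := Nat.pow_le_pow_left (by omega) 4
  exact Nat.mul_le_mul_left _ (by omega)

/-- parameters as functions of the number of symbols -/
def pT (N : ℕ) : ℕ := T0 (27 * N) (2 * N + 1)
def pQ (N : ℕ) : ℕ := Qb (n1b N) (2 * N + 1)
def pM1 (N : ℕ) : ℕ := (2 * N + 5) * ((2 * N + 5) * pT N + 1) + (pQ N + (2 * N + 4))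
def pM0 (N : ℕ) : ℕ := (2 * (pM1 N * (2 * N + 5)) + pT N * (2 * N + 5)) + (pM1 N + (2 + pQ N))

theorem parOK (N : ℕ) : ParOK N (pM0 N) (pM1 N) := by
  refine ⟨?_, ?_, ?_⟩
  · change pQ N ≤ pM0 N
    unfold pM0; omega
  · change pQ N + 3 ≤ pM1 N
    unfold pM1; omega
  · unfold pM1; omega

/-- the system attached to a formula -/
def mainSys (φ : Form) : List Term :=
  sysT (PF φ (pM0 φ.toks.length) (pM1 φ.toks.length)) (2 * φ.toks.length + 1)
    (pM0 φ.toks.length) (pM1 φ.toks.length)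

theorem mainSys_regular (φ : Form) : Regular (mainSys φ) := by
  set N := φ.toks.length with hN
  have h0 := PF_nd φ (pM0 N) (pM1 N)
  have h1 : T0 (PF φ (pM0 N) (pM1 N)).nd (2 * N + 1) ≤ pT N := T0_mono h0
  refine regular_sys (PF_occ φ (pM0 N) (pM1 N)) (genH _ _ _ _ ?_ ?_)
  · rw [← hN]
    change (2 * N + 5) * ((2 * N + 5) * T0 (PF φ (pM0 N) (pM1 N)).nd (2 * N + 1) + 1) ≤ pM1 N
    have h2 : (2 * N + 5) * ((2 * N + 5) * T0 (PF φ (pM0 N) (pM1 N)).nd (2 * N + 1) + 1) ≤
        (2 * N + 5) * ((2 * N + 5) * pT N + 1) :=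
      Nat.mul_le_mul_left _ (Nat.add_le_add_right (Nat.mul_le_mul_left _ h1) 1)
    refine h2.trans ?_
    rw [pM1]
    exact Nat.le_add_right _ _
  · rw [← hN]
    change 2 * (pM1 N * (2 * N + 5)) + T0 (PF φ (pM0 N) (pM1 N)).nd (2 * N + 1) * (2 * N + 5) +
      pM1 N + 2 ≤ pM0 N
    have h2 : T0 (PF φ (pM0 N) (pM1 N)).nd (2 * N + 1) * (2 * N + 5) ≤ pT N * (2 * N + 5) :=
      Nat.mul_le_mul_right _ h1
    have h3 : (2 * (pM1 N * (2 * N + 5)) + pT N * (2 * N + 5)) + (pM1 N + (2 + pQ N)) = pM0 N := rfl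
    generalize pM0 N = M at *
    omega

theorem mainSys_iff (φ : Form) : (∃ y : ℕ → ℝ, φ.Holds y) ↔
    ∃ x : ℕ → ℝ, ∀ t ∈ mainSys φ, t.eval x = 0 := by
  constructor
  · rintro ⟨y, hy⟩
    obtain ⟨x, hx⟩ := forward φ _ _ (parOK _) y hy
    exact ⟨x, fun t ht => by rw [← ev_real]; exact hx t ht⟩
  · rintro ⟨x, hx⟩
    exact backward φ _ _ (parOK _) x fun t ht => by rw [ev_real]; exact hx t ht

/-- a regular system without real solution -/
def badT : Term := Term.add (Term.mul (Term.var 0) (Term.var 0)) Term.one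

theorem bad_regular : Regular [badT] := by
  have hx0 : ∀ x : ℕ → ℂ, (∀ t ∈ [badT], t.ev x = 0) → x 0 * x 0 = -1 := by
    intro x hx
    have h := hx badT (by simp)
    simp only [badT, Term.ev] at h
    linear_combination h
  refine ⟨?_, ?_, ?_⟩
  · intro t ht
    simp only [List.mem_singleton] at ht
    subst ht
    simp [badT, Term.Below]
  · refine Set.Finite.subset (s := {(fun i => if i = 0 then Complex.I else 0),
      (fun i => if i = 0 then -Complex.I else 0)}) (by simp) ?_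
    rintro x ⟨h1, h2⟩
    have h3 := hx0 x h1
    have h4 : (x 0 - Complex.I) * (x 0 + Complex.I) = 0 := by
      linear_combination h3 - Complex.I_mul_I
    rcases mul_eq_zero.1 h4 with h5 | h5
    · left
      funext i
      by_cases hi : i = 0
      · subst hi; rw [if_pos rfl]; exact sub_eq_zero.1 h5
      · rw [if_neg hi]; exact h2 i (by simp; omega)
    · right
      change x = _
      funext i
      by_cases hi : i = 0
      · subst hi; rw [if_pos rfl]; exact eq_neg_of_add_eq_zero_left h5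
      · rw [if_neg hi]; exact h2 i (by simp; omega)
  · intro x v h1 h2 i hi
    have h3 := hx0 x h1
    have h4 := h2 badT (by simp)
    simp only [badT, Term.der, Term.ev, add_zero] at h4
    have hi0 : i = 0 := by simpa using hi
    subst hi0
    have h5 : x 0 ≠ 0 := by
      intro h6
      rw [h6] at h3
      norm_num at h3
    have h6 : x 0 * v 0 = 0 := by
      have : 2 * (x 0 * v 0) = 0 := by linear_combination h4
      have h7 : (2 : ℂ) ≠ 0 := by norm_num
      exact (mul_eq_zero.1 this).resolve_left h7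
    exact (mul_eq_zero.1 h6).resolve_left h5

theorem bad_real (x : ℕ → ℝ) : ¬ ∀ t ∈ [badT], t.eval x = 0 := by
  intro h
  have h1 := h badT (by simp)
  simp only [badT, Term.eval] at h1
  nlinarith [mul_self_nonneg (x 0)]

end Pool.Agent.Helper54.ETR
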