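import Pool.Agent.Helper54.Rg.Pol
import Pool.Agent.Helper54.Rg.Sys

open Finset

namespace Pool.Agent.Helper54.ETR

theorem pol_congr (rI Z N : ℕ) (x y : ℕ → ℝ) (p : Form) : ∀ (b : Bool) (k : ℕ),
    k + p.toks.length ≤ N → (∀ j < 2 * N, x rI * x (Z + j) = y rI * y (Z + j)) →
    (pol rI Z N b p k).ev x = (pol rI Z N b p k).ev y := by
  have hs : ∀ t : Term, t.toks.length ≤ N →
      (∀ j < 2 * N, x rI * x (Z + j) = y rI * y (Z + j)) →
      (sc rI Z t).ev x = (sc rI Z t).ev y := by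
    intro t ht h
    rw [ev_sc, ev_sc]
    exact eval_agree _ _ _ fun i hi => h i (by omega)
  have hat : ∀ (g : Tok) (b : Bool) (s t : Term) (k : ℕ), k < N → s.toks.length ≤ N →
      t.toks.length ≤ N → (∀ j < 2 * N, x rI * x (Z + j) = y rI * y (Z + j)) →
      (atomT g b (sc rI Z s) (sc rI Z t) (sl rI Z N k)).ev x =
        (atomT g b (sc rI Z s) (sc rI Z t) (sl rI Z N k)).ev y := by
    intro g b s t k hk hs1 ht1 h
    have e1 := hs s hs1 h
    have e2 := hs t ht1 h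
    have e3 : (sl rI Z N k).ev x = (sl rI Z N k).ev y := by
      rw [ev_sl, ev_sl]; exact h (N + k) (by omega)
    cases g <;> cases b <;>
      simp only [atomT, ev_tPos, ev_tNn, ev_tZr, ev_tNz, e1, e2, e3]
  induction p with
  | lt s t | le s t | eq s t | ge s t | gt s t =>
    intro b k hk h
    simp only [Form.toks, List.length_cons, List.length_append] at hk
    cases b <;> exact hat _ _ s t _ (by omega) (by omega) (by omega) h
  | and p q ihp ihq | or p q ihp ihq =>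
    intro b k hk h
    simp only [Form.toks, List.length_cons, List.length_append] at hk
    have h1 := ihp b (q.toks.length + k) (by omega) h
    have h2 := ihq b k (by omega) h
    cases b <;> simp only [pol, Term.ev, h1, h2]
  | not p ih =>
    intro b k hk h
    simp only [Form.toks, List.length_cons] at hk
    have h1 := ih (!b) k (by omega) h
    cases b <;> exact h1

theorem hasDeriv_ev (x w : ℕ → ℝ) (t : Term) :
    HasDerivAt (fun s : ℝ => t.ev (fun i => x i + s * w i)) (t.der x w) 0 := by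
  have h0 : ∀ t : Term, t.ev (fun i => x i + 0 * w i) = t.ev x := by
    intro t; congr 1; funext i; ring
  induction t with
  | zero => exact hasDerivAt_const _ _
  | one => exact hasDerivAt_const _ _
  | var i =>
    have h : HasDerivAt (fun s : ℝ => x i + s * w i) (1 * w i) 0 :=
      ((hasDerivAt_id (0:ℝ)).mul_const (w i)).const_add (x i)
    rw [one_mul] at h
    exact h
  | add s t ihs iht => exact ihs.add iht
  | sub s t ihs iht => exact ihs.sub iht
  | mul s t ihs iht =>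
    have h := ihs.mul iht
    simp only [h0] at h
    refine h.congr_deriv ?_
    simp only [Term.der]
    ring

theorem cont_ev {α : Type*} [TopologicalSpace α] (x : α → ℕ → ℝ)
    (hx : ∀ i, Continuous fun a => x a i) (t : Term) : Continuous fun a => t.ev (x a) := by
  induction t with
  | zero => exact continuous_const
  | one => exact continuous_const
  | var i => exact hx i
  | add s t ihs iht => exact ihs.add iht
  | sub s t ihs iht => exact ihs.sub iht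
  | mul s t ihs iht => exact ihs.mul iht

section

variable (m M0 M1 : ℕ)

/-- the `k`-th parameter -/
def pv' (k : ℕ) : ℕ := 2 ^ 2 ^ cv M0 M1 k

theorem pv_ge (k : ℕ) : 2 ≤ pv' M0 M1 k := by
  unfold pv'
  calc 2 = 2 ^ 1 := rfl
    _ ≤ 2 ^ 2 ^ cv M0 M1 k := Nat.pow_le_pow_right (by norm_num) Nat.one_le_two_pow

theorem cv_succ (k : ℕ) : 2 ^ cv M0 M1 (k + 1) = 2 ^ cv M0 M1 k * 2 ^ M1 := by
  rw [← pow_add]; congr 1; unfold cv; ring

theorem n2 (hM : 1 ≤ M1) (k : ℕ) : 2 * pv' M0 M1 k ≤ pv' M0 M1 (k + 1) := by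
  unfold pv'
  have h1 : 1 + 2 ^ cv M0 M1 k ≤ 2 ^ cv M0 M1 (k + 1) := by
    rw [cv_succ]
    have h2 : 2 ≤ 2 ^ M1 := by
      calc 2 = 2 ^ 1 := rfl
        _ ≤ 2 ^ M1 := Nat.pow_le_pow_right (by norm_num) hM
    have h3 : 1 ≤ 2 ^ cv M0 M1 k := Nat.one_le_two_pow
    nlinarith
  calc 2 * 2 ^ 2 ^ cv M0 M1 k = 2 ^ (1 + 2 ^ cv M0 M1 k) := by rw [pow_add]; ring
    _ ≤ _ := Nat.pow_le_pow_right (by norm_num) h1

theorem pv_mono {k l : ℕ} (h : k ≤ l) : pv' M0 M1 k ≤ pv' M0 M1 l := by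
  unfold pv' cv
  apply Nat.pow_le_pow_right (by norm_num)
  apply Nat.pow_le_pow_right (by norm_num)
  have := Nat.mul_le_mul_right M1 h
  omega

theorem n1' (hM : m ≤ M1) : 2 * ∑ j ∈ range m, pv' M0 M1 (j + 1) ≤ pv' M0 M1 (m + 1) := by
  rcases Nat.eq_zero_or_pos m with h0 | hm
  · rw [h0]; simp
  have h1 : ∑ j ∈ range m, pv' M0 M1 (j + 1) ≤ m * pv' M0 M1 m := by
    calc _ ≤ ∑ _j ∈ range m, pv' M0 M1 m := Finset.sum_le_sum fun j hj =>
          pv_mono M0 M1 (by have := Finset.mem_range.1 hj; omega)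
      _ = _ := by rw [Finset.sum_const, Finset.card_range, smul_eq_mul]
  have h2 : 1 + m + 2 ^ cv M0 M1 m ≤ 2 ^ cv M0 M1 (m + 1) := by
    rw [cv_succ]
    have h3 : M1 + 1 ≤ 2 ^ M1 := Nat.lt_two_pow_self
    have h4 : 2 ≤ 2 ^ cv M0 M1 m := by
      calc 2 = 2 ^ 1 := rfl
        _ ≤ 2 ^ cv M0 M1 m := Nat.pow_le_pow_right (by norm_num) (by
          unfold cv
          have : 1 ≤ m * M1 := Nat.mul_pos hm (by omega)
          omega)
    have h5 : m + 1 ≤ 2 ^ M1 := by omega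
    have h6 : 2 ^ cv M0 M1 m * (m + 1) ≤ 2 ^ cv M0 M1 m * 2 ^ M1 := Nat.mul_le_mul_left _ h5
    nlinarith
  calc 2 * ∑ j ∈ range m, pv' M0 M1 (j + 1) ≤ 2 * (m * pv' M0 M1 m) :=
        Nat.mul_le_mul_left _ h1
    _ ≤ 2 * (2 ^ m * pv' M0 M1 m) :=
        Nat.mul_le_mul_left _ (Nat.mul_le_mul_right _ (Nat.lt_two_pow_self).le)
    _ = 2 ^ (1 + m + 2 ^ cv M0 M1 m) := by unfold pv'; rw [pow_add, pow_add]; ring
    _ ≤ _ := Nat.pow_le_pow_right (by norm_num) h2

theorem n3 (Q : ℕ) (hM : Q + 3 ≤ M1) (k : ℕ) :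
    2 ^ 2 ^ (M0 + Q) * pv' M0 M1 k ^ 4 ≤ pv' M0 M1 (k + 1) := by
  unfold pv'
  rw [← pow_mul, ← pow_add]
  apply Nat.pow_le_pow_right (by norm_num)
  rw [cv_succ]
  have h1 : 2 ^ (Q + 3) ≤ 2 ^ M1 := Nat.pow_le_pow_right (by norm_num) hM
  have h2 : 2 ^ M0 ≤ 2 ^ cv M0 M1 k := Nat.pow_le_pow_right (by norm_num) (by unfold cv; omega)
  have h3 : 1 ≤ 2 ^ Q := Nat.one_le_two_pow
  rw [pow_add] at h1
  rw [pow_add]
  generalize 2 ^ cv M0 M1 k = A at *
  generalize 2 ^ M0 = B at *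
  generalize 2 ^ M1 = C at *
  generalize 2 ^ Q = D at *
  calc B * D + A * 4 ≤ A * D + A * (4 * D) :=
        Nat.add_le_add (Nat.mul_le_mul_right _ h2) (Nat.mul_le_mul_left _ (by omega))
    _ ≤ A * (D * 2 ^ 3) := by nlinarith
    _ ≤ A * C := Nat.mul_le_mul_left _ h1

/-- the point with chain values and given coordinates -/
noncomputable def fullp (v : ℕ → ℝ) (i : ℕ) : ℝ :=
  if i < zz m M0 M1 then 2 ^ 2 ^ i else v (i - zz m M0 M1)

theorem fullp_lt (v : ℕ → ℝ) (i : ℕ) (h : i < zz m M0 M1) : fullp m M0 M1 v i = 2 ^ 2 ^ i :=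
  if_pos h

theorem fullp_x (v : ℕ → ℝ) (j : ℕ) : fullp m M0 M1 v (zz m M0 M1 + j) = v j := by
  unfold fullp
  rw [if_neg (by omega)]
  congr 1
  omega

/-- the objective -/
noncomputable def Ph (P : Term) (x : ℕ → ℝ) : ℝ :=
  (TG P m M0 M1).ev x - (lin (fun j => cv M0 M1 (j + 1)) (zz m M0 M1) m).ev x

theorem ev_TG (P : Term) (x : ℕ → ℝ) (hx : ∀ i < zz m M0 M1, x i = 2 ^ 2 ^ i) :
    (TG P m M0 M1).ev x = (pv' M0 M1 (m + 3) : ℝ) * (P.ev x +
      (∑ j ∈ range m, x (zz m M0 M1 + j) ^ 2 - 1) ^ 2) +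
      (pv' M0 M1 (m + 1) : ℝ) * ∑ j ∈ range m, x (zz m M0 M1 + j) ^ 2 := by
  simp only [TG, Term.ev, ev_sqs, hx _ (cv_lt_zz (show m + 3 ≤ m + 3 by omega)),
    hx _ (cv_lt_zz (show m + 1 ≤ m + 3 by omega)), pv']
  push_cast
  ring

theorem ev_linP (x : ℕ → ℝ) (hx : ∀ i < zz m M0 M1, x i = 2 ^ 2 ^ i) :
    (lin (fun j => cv M0 M1 (j + 1)) (zz m M0 M1) m).ev x =
      ∑ j ∈ range m, (pv' M0 M1 (j + 1) : ℝ) * x (zz m M0 M1 + j) := by
  rw [ev_lin]
  refine Finset.sum_congr rfl fun j hj => ?_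
  have := Finset.mem_range.1 hj
  rw [hx _ (cv_lt_zz (by omega))]
  simp [pv']

/-- bound for the linear form -/
theorem lin_le (v : ℕ → ℝ) (t : ℝ) (hv : ∀ j < m, |v j| ≤ t) :
    |∑ j ∈ range m, (pv' M0 M1 (j + 1) : ℝ) * v j| ≤
      ((∑ j ∈ range m, pv' M0 M1 (j + 1) : ℕ) : ℝ) * t := by
  refine (Finset.abs_sum_le_sum_abs _ _).trans ?_
  push_cast
  rw [Finset.sum_mul]
  refine Finset.sum_le_sum fun j hj => ?_
  rw [abs_mul, abs_of_nonneg (Nat.cast_nonneg _)]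
  exact mul_le_mul_of_nonneg_left (hv j (Finset.mem_range.1 hj)) (Nat.cast_nonneg _)

end

end Pool.Agent.Helper54.ETR
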