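import Pool.Agent.Helper54.Rg.Bnd
import Pool.Agent.Helper54.ETRFin
import Pool.Agent.Helper54.Rg.Real

section
open Finset

namespace Pool.Agent.Helper54.ETR

section

variable (Z rI m : ℕ) (r : ℕ)

/-- the point with polynomial coordinates -/
noncomputable def ptp (i : ℕ) : MvPolynomial (Option (Fin m)) ℤ :=
  if i = rI then MvPolynomial.C (r : ℤ) else
    if h : Z ≤ i ∧ i - Z < m then MvPolynomial.X (some ⟨i - Z, h.2⟩) else 0

theorem ptp_deg (i : ℕ) : (ptp Z rI m r i).totalDegree ≤ 1 := by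
  unfold ptp
  split_ifs
  · rw [MvPolynomial.totalDegree_C]; omega
  · rw [MvPolynomial.totalDegree_X]
  · simp

theorem ptp_nrm (hr : 2 ≤ max 2 r) (i : ℕ) :
    (mvSN (Option (Fin m)) intSN).f (ptp Z rI m r i) ≤ max 2 r := by
  unfold ptp
  split_ifs
  · refine (mvSN_C (W := Option (Fin m)) intSN _).trans ?_
    exact le_max_right _ _
  · exact (mvSN_X (W := Option (Fin m)) intSN _).trans (by omega)
  · have : (mvSN (Option (Fin m)) intSN).f (0 : MvPolynomial (Option (Fin m)) ℤ) = 0 :=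
      (mvSN (Option (Fin m)) intSN).map_zero
    omega

/-- the real point attached to coordinates -/
noncomputable def ptr (v : Option (Fin m) → ℝ) (i : ℕ) : ℝ :=
  if i = rI then r else if h : Z ≤ i ∧ i - Z < m then v (some ⟨i - Z, h.2⟩) else 0

theorem iv_ptp (v : Option (Fin m) → ℝ) (t : Term) :
    iv v (t.ev (ptp Z rI m r)) = t.ev (ptr Z rI m r v) := by
  rw [ev_hom]
  refine ev_congr _ _ t fun i _ => ?_
  unfold ptp ptr
  split_ifs
  · rw [iv_C]; simp
  · rw [iv_X]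
  · rw [map_zero]

theorem ptr_rI (v : Option (Fin m) → ℝ) : ptr Z rI m r v rI = r := by simp [ptr]

theorem ptr_x (hrZ : rI < Z) (v : Option (Fin m) → ℝ) (j : Fin m) :
    ptr Z rI m r v (Z + j) = v (some j) := by
  unfold ptr
  rw [if_neg (by omega), dif_pos ⟨by omega, by have := j.2; omega⟩]
  congr 2
  exact Fin.ext (by simp only; omega)

/-- the final bound -/
def Qb (n1 m : ℕ) : ℕ :=
  (6 * (n1 + 2) + 1) * (m + 1) +
    (1 + (9 + 6 * ((n1 + 2) + (n1 + 3))) * ((m + 1) * (6 * (n1 + 2) + 1)))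

theorem HH_bound (n1 m a : ℕ) (c : ℕ) (hc : c ≤ 2 ^ 2 ^ a) :
    HH (Fintype.card (Option (Fin m))) (Fintype.card Empty) (Fintype.card Bool)
      (Fintype.card Empty) (n1 + 2) ((n1 + 2) * c ^ (n1 + 3)) ≤ 2 ^ 2 ^ (a + Qb n1 m) := by
  have e1 : Fintype.card (Option (Fin m)) = m + 1 := by simp
  have e2 : Fintype.card Empty = 0 := by simp
  have e3 : Fintype.card Bool = 2 := by simp
  rw [e1, e2, e3]
  unfold HH
  set d := n1 + 2 with hd
  set h := d * c ^ (n1 + 3) with hh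
  have hA : 1 ≤ 2 ^ a := Nat.one_le_two_pow
  have hE : h ≤ 2 ^ (d + 2 ^ a * (n1 + 3)) := by
    rw [pow_add, pow_mul]
    exact Nat.mul_le_mul (Nat.lt_two_pow_self).le (Nat.pow_le_pow_left hc _)
  have hC : Cbn 0 2 0 h ≤ 2 ^ (9 + 6 * (d + 2 ^ a * (n1 + 3))) := by
    have h1 : Cbn 0 2 0 h = 324 * h ^ 6 := by unfold Cbn; ring
    rw [h1, pow_add, mul_comm 6, pow_mul]
    exact Nat.mul_le_mul (by norm_num) (Nat.pow_le_pow_left hE 6)
  have hN : Nb 0 d = 6 * d + 1 := by unfold Nb; ring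
  refine (Hb_le hC).trans ?_
  rw [hN]
  apply Nat.pow_le_pow_right (by norm_num)
  have h2 : (6 * d + 1) ^ (m + 1) ≤ 2 ^ ((6 * d + 1) * (m + 1)) := by
    rw [pow_mul]
    exact Nat.pow_le_pow_left (Nat.lt_two_pow_self).le _
  have h3 : 1 + (9 + 6 * (d + 2 ^ a * (n1 + 3))) * ((m + 1 + 0) * (6 * d + 1)) ≤
      2 ^ a * (1 + (9 + 6 * (d + (n1 + 3))) * ((m + 1) * (6 * d + 1))) := by
    rw [Nat.add_zero]
    have e : 2 ^ a * (1 + (9 + 6 * (d + (n1 + 3))) * ((m + 1) * (6 * d + 1))) =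
        2 ^ a + (2 ^ a * (9 + 6 * (d + (n1 + 3)))) * ((m + 1) * (6 * d + 1)) := by ring
    rw [e]
    refine Nat.add_le_add hA (Nat.mul_le_mul_right _ ?_)
    nlinarith
  have h4 : 2 ^ a * (1 + (9 + 6 * (d + (n1 + 3))) * ((m + 1) * (6 * d + 1))) ≤
      2 ^ a * 2 ^ (1 + (9 + 6 * (d + (n1 + 3))) * ((m + 1) * (6 * d + 1))) :=
    Nat.mul_le_mul_left _ (Nat.lt_two_pow_self).le
  calc _ ≤ (2 ^ a * 2 ^ (1 + (9 + 6 * (d + (n1 + 3))) * ((m + 1) * (6 * d + 1)))) *
        2 ^ ((6 * d + 1) * (m + 1)) := Nat.mul_le_mul (h3.trans h4) h2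
    _ = 2 ^ (a + Qb n1 m) := by
      rw [← pow_add, ← pow_add]
      congr 1
      unfold Qb
      rw [← hd]
      ring

/-- constraint from a polynomial -/
noncomputable def bq (β : MvPolynomial (Option (Fin m)) ℤ) : QP (Option (Fin m)) Empty :=
  QP.base β

theorem bnd_bq (β : MvPolynomial (Option (Fin m)) ℤ) (n1 c : ℕ) 
    (hd : β.totalDegree ≤ n1 + 2) (hn : (mvSN (Option (Fin m)) intSN).f β ≤ c ^ (n1 + 3)) :
    Bnd (bq m β) (n1 + 2) ((n1 + 2) * c ^ (n1 + 3)) := by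
  classical
  apply bnd_of (bq m β) (by omega) (deg_base β hd)
  rw [bq, nrm_base]
  exact hn

theorem small_nrm (c n1 : ℕ) (hc : 2 ≤ c) (β γ : MvPolynomial (Option (Fin m)) ℤ)
    (hβ : (mvSN (Option (Fin m)) intSN).f β ≤ c ^ n1)
    (hγ : (mvSN (Option (Fin m)) intSN).f γ ≤ 4) :
    (mvSN (Option (Fin m)) intSN).f (β - γ) ≤ c ^ (n1 + 3) := by
  refine ((mvSN (Option (Fin m)) intSN).sub_le _ _).trans ((Nat.add_le_add hβ hγ).trans ?_)
  have h1 : 1 ≤ c ^ n1 := Nat.one_le_pow _ _ (by omega)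
  have h2 : 8 ≤ c ^ 3 := by
    calc 8 = 2 ^ 3 := by norm_num
      _ ≤ c ^ 3 := Nat.pow_le_pow_left hc 3
  rw [pow_add]
  nlinarith

/-- bounded solutions -/
theorem ball (hrZ : rI < Z) (P : Term) (n1 : ℕ) (hn1 : P.nd ≤ n1) (hs : 4 * m + 1 ≤ n1)
    (hocc : ∀ i, P.Occ i → i = rI ∨ ∃ j < m, i = Z + j)
    (hnn : ∀ x : ℕ → ℝ, 0 ≤ P.ev x) (x0 : ℕ → ℝ) (hx0 : x0 rI = 1) (h0 : P.ev x0 = 0) :
    ∃ x : ℕ → ℝ, x rI = 1 ∧ P.ev x = 0 ∧ ∑ j ∈ range m, x (Z + j) ^ 2 ≤ 2 ^ 2 ^ (Qb n1 m) := by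
  classical
  let β1 : MvPolynomial (Option (Fin m)) ℤ := P.ev (ptp Z rI m 1)
  let β2 : MvPolynomial (Option (Fin m)) ℤ := (sqs Z m).ev (ptp Z rI m 1) - MvPolynomial.X none
  let eL : Bool → QP (Option (Fin m)) Empty := fun b => if b then bq m β1 else bq m β2
  let eQ : Empty → QP (Option (Fin m)) Empty := fun e => e.elim
  have pd := ptp_deg Z rI m 1
  have pn : ∀ i, (mvSN (Option (Fin m)) intSN).f (ptp Z rI m 1 i) ≤ 2 := fun i => by
    have := ptp_nrm Z rI m 1 (le_max_left _ _) i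
    simpa using this
  have hβ1d : β1.totalDegree ≤ n1 + 2 := (deg_ev _ pd _).trans (by omega)
  have hsn : (sqs Z m).nd ≤ n1 := by rw [nd_sqs]; exact hs
  have hβ2d : β2.totalDegree ≤ n1 + 2 := by
    refine (MvPolynomial.totalDegree_sub _ _).trans (max_le ((deg_ev _ pd _).trans (by omega)) ?_)
    rw [MvPolynomial.totalDegree_X]; omega
  have hβ1n : (mvSN (Option (Fin m)) intSN).f β1 ≤ 2 ^ (n1 + 3) :=
    (nrm_ev _ 2 le_rfl _ pn _).trans (Nat.pow_le_pow_right (by norm_num) (by omega))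
  have hβ2n : (mvSN (Option (Fin m)) intSN).f β2 ≤ 2 ^ (n1 + 3) := by
    refine small_nrm m 2 n1 le_rfl _ _ ?_ ?_
    · exact (nrm_ev _ 2 le_rfl _ pn _).trans (Nat.pow_le_pow_right (by norm_num) hsn)
    · exact (mvSN_X (W := Option (Fin m)) intSN _).trans (by norm_num)
  have hL : ∀ b, Bnd (eL b) (n1 + 2) ((n1 + 2) * 2 ^ (n1 + 3)) := by
    intro b
    cases b
    · exact bnd_bq m β2 n1 2 hβ2d hβ2n
    · exact bnd_bq m β1 n1 2 hβ1d hβ1n
  have hconT : ∀ z : (Option (Fin m) → ℝ) × (Empty → ℝ), con eL eQ (Sum.inl true) z =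
      P.ev (ptr Z rI m 1 z.1) := by
    intro z
    change (bq m β1).ev1 z.1 z.2 = _
    rw [bq, ev1_base, iv_ptp]
  have hconF : ∀ z : (Option (Fin m) → ℝ) × (Empty → ℝ), con eL eQ (Sum.inl false) z =
      ∑ j : Fin m, z.1 (some j) ^ 2 - z.1 none := by
    intro z
    change (bq m β2).ev1 z.1 z.2 = _
    rw [bq, ev1_base, map_sub, iv_ptp, iv_X, ev_sqs, Finset.sum_range]
    congr 1
    exact Finset.sum_congr rfl fun j _ => by rw [ptr_x Z rI m 1 hrZ]
  -- the starting point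
  let v0 : Option (Fin m) → ℝ := fun o => o.elim (∑ j : Fin m, x0 (Z + j) ^ 2) fun j => x0 (Z + j)
  have hv0 : P.ev (ptr Z rI m 1 v0) = P.ev x0 := by
    refine ev_congr _ _ P fun i hi => ?_
    rcases hocc i hi with rfl | ⟨j, hj, rfl⟩
    · rw [ptr_rI, hx0]; simp
    · exact ptr_x Z rI m 1 hrZ v0 ⟨j, hj⟩
  have hfeas : ∀ i, con eL eQ i (v0, fun e => e.elim) ≤ 0 := by
    rintro (b | e)
    · cases b
      · rw [hconF]; simp [v0]
      · rw [hconT, hv0, h0]
    · exact e.elim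
  obtain ⟨z, hz1, hz2, P0, hP0, hP1, hP2⟩ := mini eL eQ none (by omega)
    (Nat.mul_pos (by omega) (Nat.pos_of_ne_zero (by positivity))) hL (fun e => e.elim)
    (v0, fun e => e.elim) hfeas (1 + v0 none) (by
      intro z hz hz'
      have h1 := hz (Sum.inl false)
      rw [hconF] at h1
      have h2 : 0 ≤ ∑ j : Fin m, z.1 (some j) ^ 2 := Finset.sum_nonneg fun _ _ => sq_nonneg _
      have h3 : z.1 none ≤ v0 none := hz'
      refine ⟨fun o => ?_, fun e => e.elim⟩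
      cases o with
      | none => rw [abs_le]; constructor <;> linarith
      | some j =>
        have h4 : z.1 (some j) ^ 2 ≤ ∑ j : Fin m, z.1 (some j) ^ 2 :=
          Finset.single_le_sum (f := fun j : Fin m => z.1 (some j) ^ 2) (fun _ _ => sq_nonneg _)
            (Finset.mem_univ j)
        have h5 : z.1 (some j) ^ 2 ≤ v0 none := by linarith
        rw [abs_le]; constructor <;> nlinarith [sq_nonneg (z.1 (some j) - 1),
          sq_nonneg (z.1 (some j) + 1)])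
  have hb := HH_bound n1 m 0 2 (by norm_num)
  rw [Nat.zero_add] at hb
  have hub := root_upper P0 hP0 _ hP2
  refine ⟨ptr Z rI m 1 z.1, by rw [ptr_rI]; simp, ?_, ?_⟩
  · have h1 := hz1 (Sum.inl true)
    rw [hconT] at h1
    exact le_antisymm h1 (hnn _)
  · have h1 := hz1 (Sum.inl false)
    rw [hconF] at h1
    rw [Finset.sum_range]
    have h2 : ∑ j : Fin m, ptr Z rI m 1 z.1 (Z + j) ^ 2 = ∑ j : Fin m, z.1 (some j) ^ 2 :=
      Finset.sum_congr rfl fun j _ => by rw [ptr_x Z rI m 1 hrZ]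
    rw [h2]
    have h3 : (((pSN intSN).f P0 : ℕ) : ℝ) ≤ 2 ^ 2 ^ Qb n1 m := by
      exact_mod_cast hP1.trans hb
    have h4 := le_abs_self (z.1 none)
    linarith

/-- lower bound for positive polynomials on a ball -/
theorem gap (hrZ : rI < Z) (F : Term) (n1 a : ℕ) (hr : 2 ≤ r) (hra : r ≤ 2 ^ 2 ^ a)
    (hn1 : F.nd ≤ n1) (hs : 4 * m + 1 ≤ n1)
    (hocc : ∀ i, F.Occ i → i = rI ∨ ∃ j < m, i = Z + j)
    (hpos : ∀ x : ℕ → ℝ, x rI = r → 0 < F.ev x) (x0 : ℕ → ℝ) (hx0 : x0 rI = r)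
    (h4 : ∑ j ∈ range m, x0 (Z + j) ^ 2 ≤ 4) :
    1 ≤ F.ev x0 * 2 ^ 2 ^ (a + Qb n1 m) := by
  classical
  let β1 : MvPolynomial (Option (Fin m)) ℤ := F.ev (ptp Z rI m r) - MvPolynomial.X none
  let β2 : MvPolynomial (Option (Fin m)) ℤ := (sqs Z m).ev (ptp Z rI m r) - MvPolynomial.C 4
  let eL : Bool → QP (Option (Fin m)) Empty := fun b => if b then bq m β1 else bq m β2
  let eQ : Empty → QP (Option (Fin m)) Empty := fun e => e.elim
  have pd := ptp_deg Z rI m r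
  have pn : ∀ i, (mvSN (Option (Fin m)) intSN).f (ptp Z rI m r i) ≤ r := fun i => by
    have := ptp_nrm Z rI m r (le_max_left _ _) i
    rwa [max_eq_right hr] at this
  have hβ1d : β1.totalDegree ≤ n1 + 2 := by
    refine (MvPolynomial.totalDegree_sub _ _).trans (max_le ((deg_ev _ pd _).trans (by omega)) ?_)
    rw [MvPolynomial.totalDegree_X]; omega
  have hsn : (sqs Z m).nd ≤ n1 := by rw [nd_sqs]; exact hs
  have hβ2d : β2.totalDegree ≤ n1 + 2 := by
    refine (MvPolynomial.totalDegree_sub _ _).trans (max_le ((deg_ev _ pd _).trans (by omega)) ?_)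
    rw [MvPolynomial.totalDegree_C]; omega
  have hβ1n : (mvSN (Option (Fin m)) intSN).f β1 ≤ r ^ (n1 + 3) := by
    refine small_nrm m r n1 hr _ _ ?_ ?_
    · exact (nrm_ev _ r hr _ pn _).trans (Nat.pow_le_pow_right (by omega) hn1)
    · exact (mvSN_X (W := Option (Fin m)) intSN _).trans (by norm_num)
  have hβ2n : (mvSN (Option (Fin m)) intSN).f β2 ≤ r ^ (n1 + 3) := by
    refine small_nrm m r n1 hr _ _ ?_ ?_
    · exact (nrm_ev _ r hr _ pn _).trans (Nat.pow_le_pow_right (by omega) hsn)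
    · exact (mvSN_C (W := Option (Fin m)) intSN _).trans (by norm_num [intSN])
  have hL : ∀ b, Bnd (eL b) (n1 + 2) ((n1 + 2) * r ^ (n1 + 3)) := by
    intro b
    cases b
    · exact bnd_bq m β2 n1 r hβ2d hβ2n
    · exact bnd_bq m β1 n1 r hβ1d hβ1n
  have hconT : ∀ z : (Option (Fin m) → ℝ) × (Empty → ℝ), con eL eQ (Sum.inl true) z =
      F.ev (ptr Z rI m r z.1) - z.1 none := by
    intro z
    change (bq m β1).ev1 z.1 z.2 = _
    rw [bq, ev1_base, map_sub, iv_ptp, iv_X]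
  have hconF : ∀ z : (Option (Fin m) → ℝ) × (Empty → ℝ), con eL eQ (Sum.inl false) z =
      ∑ j : Fin m, z.1 (some j) ^ 2 - 4 := by
    intro z
    change (bq m β2).ev1 z.1 z.2 = _
    rw [bq, ev1_base, map_sub, iv_ptp, iv_C, ev_sqs, Finset.sum_range]
    congr 1
    exact Finset.sum_congr rfl fun j _ => by rw [ptr_x Z rI m r hrZ]
  let v0 : Option (Fin m) → ℝ := fun o => o.elim (F.ev x0) fun j => x0 (Z + j)
  have hv0 : F.ev (ptr Z rI m r v0) = F.ev x0 := by
    refine ev_congr _ _ F fun i hi => ?_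
    rcases hocc i hi with rfl | ⟨j, hj, rfl⟩
    · rw [ptr_rI, hx0]
    · exact ptr_x Z rI m r hrZ v0 ⟨j, hj⟩
  have hfeas : ∀ i, con eL eQ i (v0, fun e => e.elim) ≤ 0 := by
    rintro (b | e)
    · cases b
      · rw [hconF]
        rw [Finset.sum_range] at h4
        change ∑ j : Fin m, x0 (Z + j) ^ 2 - 4 ≤ 0
        linarith
      · rw [hconT, hv0]
        simp [v0]
    · exact e.elim
  have hcast : ∀ z : (Option (Fin m) → ℝ) × (Empty → ℝ), 0 < F.ev (ptr Z rI m r z.1) :=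
    fun z => hpos _ (ptr_rI _ _ _ _ _)
  obtain ⟨z, hz1, hz2, P0, hP0, hP1, hP2⟩ := mini eL eQ none (by omega)
    (Nat.mul_pos (by omega) (Nat.pos_of_ne_zero (pow_ne_zero _ (by omega)))) hL
    (fun e => e.elim) (v0, fun e => e.elim) hfeas (5 + v0 none) (by
      intro z hz hz'
      have h1 := hz (Sum.inl false)
      have h1' := hz (Sum.inl true)
      rw [hconF] at h1
      rw [hconT] at h1'
      have hp := hcast z
      have h2 : 0 ≤ ∑ j : Fin m, z.1 (some j) ^ 2 := Finset.sum_nonneg fun _ _ => sq_nonneg _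
      have h3 : z.1 none ≤ v0 none := hz'
      refine ⟨fun o => ?_, fun e => e.elim⟩
      cases o with
      | none => rw [abs_le]; constructor <;> linarith
      | some j =>
        have h4 : z.1 (some j) ^ 2 ≤ ∑ j : Fin m, z.1 (some j) ^ 2 :=
          Finset.single_le_sum (f := fun j : Fin m => z.1 (some j) ^ 2) (fun _ _ => sq_nonneg _)
            (Finset.mem_univ j)
        have h5 : z.1 (some j) ^ 2 ≤ 4 := by linarith
        rw [abs_le]; constructor <;> nlinarith [sq_nonneg (z.1 (some j) - 1),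
          sq_nonneg (z.1 (some j) + 1)])
  have hb := HH_bound n1 m a r hra
  have h1 := hz1 (Sum.inl true)
  rw [hconT] at h1
  have hp := hcast z
  have hzpos : 0 < z.1 none := by linarith
  have hlow := root_lower P0 hP0 _ hzpos.ne' hP2
  rw [abs_of_pos hzpos] at hlow
  have h3 : (((pSN intSN).f P0 : ℕ) : ℝ) ≤ 2 ^ 2 ^ (a + Qb n1 m) := by
    exact_mod_cast hP1.trans hb
  have hz3 : z.1 none ≤ F.ev x0 := hz2
  calc (1:ℝ) ≤ z.1 none * ((pSN intSN).f P0 : ℕ) := hlow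
    _ ≤ z.1 none * 2 ^ 2 ^ (a + Qb n1 m) := mul_le_mul_of_nonneg_left h3 hzpos.le
    _ ≤ F.ev x0 * 2 ^ 2 ^ (a + Qb n1 m) := mul_le_mul_of_nonneg_right hz3 (by positivity)

end

end Pool.Agent.Helper54.ETR
end

section
open Finset

namespace Pool.Agent.Helper54.ETR

theorem der_lin {R : Type} [CommRing R] (x : ℕ → R) (b : ℕ → ℕ) (Z j : ℕ) : ∀ k,
    (∀ i < k, b i < Z) → (lin b Z k).der x (uv (Z + j)) = if j < k then x (b j) else 0
  | 0 => by intro _; simp [lin, Term.der]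
  | k + 1 => by
    intro hb
    have ih := der_lin x b Z j k fun i hi => hb i (by omega)
    have h1 := hb k (by omega)
    simp only [lin, Term.der, Term.ev, ih, uv]
    rw [if_neg (show ¬ b k = Z + j by omega)]
    by_cases h2 : j < k
    · rw [if_pos h2, if_neg (by omega), if_pos (by omega)]; ring
    · by_cases h3 : j = k
      · subst h3; rw [if_neg h2, if_pos rfl, if_pos (by omega)]; ring
      · rw [if_neg h2, if_neg (by omega), if_neg (by omega)]; ring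

/-- the node bound -/
def n1b (N : ℕ) : ℕ := 27 * N + 12 * (2 * N + 1) + 14

/-- the polynomial of a formula -/
def PF (φ : Form) (M0 M1 : ℕ) : Term :=
  pol (cv M0 M1 0) (zz (2 * φ.toks.length + 1) M0 M1) φ.toks.length true φ 0

theorem PF_nd (φ : Form) (M0 M1 : ℕ) : (PF φ M0 M1).nd ≤ 27 * φ.toks.length := nd_pol _ _ _ _ _ _

theorem PF_occ (φ : Form) (M0 M1 : ℕ) (i : ℕ) (h : (PF φ M0 M1).Occ i) : i = cv M0 M1 0 ∨
    ∃ j < 2 * φ.toks.length + 1, i = zz (2 * φ.toks.length + 1) M0 M1 + j := by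
  rcases occ_pol _ _ _ _ _ _ _ h with h | ⟨j, hj, h⟩ | ⟨j, hj, hj', h⟩
  · exact Or.inl h
  · exact Or.inr ⟨j, by omega, h⟩
  · exact Or.inr ⟨_, by omega, h⟩

theorem cv_zero (M0 M1 : ℕ) : cv M0 M1 0 = M0 := by unfold cv; omega

/-- minimiser of the objective -/
theorem exists_min (P : Term) (m M0 M1 : ℕ) (hMm : m ≤ M1)
    (hP : ∀ i, P.Occ i → i = cv M0 M1 0 ∨ ∃ j < m, i = zz m M0 M1 + j)
    (hnn : ∀ x : ℕ → ℝ, 0 ≤ P.ev x) (v0 : ℕ → ℝ) :
    ∃ v : ℕ → ℝ, Ph m M0 M1 P (fullp m M0 M1 v) ≤ Ph m M0 M1 P (fullp m M0 M1 v0) ∧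
      ∀ j < m, ((TG P m M0 M1).dv (zz m M0 M1 + j)).ev (fullp m M0 M1 v) =
        pv' M0 M1 (j + 1) := by
  classical
  let ext : (Fin m → ℝ) → ℕ → ℝ := fun v j => if h : j < m then v ⟨j, h⟩ else 0
  have hext : ∀ (v : Fin m → ℝ) (j : Fin m), ext v j = v j := by
    intro v j; simp [ext]
  let f : (Fin m → ℝ) → ℝ := fun v => Ph m M0 M1 P (fullp m M0 M1 (ext v))
  have hfv : ∀ v, f v = (pv' M0 M1 (m + 3) : ℝ) * (P.ev (fullp m M0 M1 (ext v)) +
      (∑ j : Fin m, v j ^ 2 - 1) ^ 2) + (pv' M0 M1 (m + 1) : ℝ) * ∑ j : Fin m, v j ^ 2 -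
      ∑ j ∈ range m, (pv' M0 M1 (j + 1) : ℝ) * ext v j := by
    intro v
    simp only [f, Ph]
    rw [ev_TG m M0 M1 P _ (fullp_lt m M0 M1 _), ev_linP m M0 M1 _ (fullp_lt m M0 M1 _)]
    simp only [fullp_x]
    rw [Finset.sum_range (fun j => ext v j ^ 2)]
    simp only [hext]
  have hfc : Continuous f := by
    have h1 : ∀ i, Continuous fun v : Fin m → ℝ => fullp m M0 M1 (ext v) i := by
      intro i
      by_cases hi : i < zz m M0 M1
      · have : (fun v : Fin m → ℝ => fullp m M0 M1 (ext v) i) = fun _ => 2 ^ 2 ^ i := by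
          funext v; exact fullp_lt m M0 M1 _ i hi
        rw [this]; exact continuous_const
      · have : (fun v : Fin m → ℝ => fullp m M0 M1 (ext v) i) = fun v => ext v (i - zz m M0 M1) := by
          funext v; exact if_neg hi
        rw [this]
        simp only [ext]
        split_ifs
        · exact continuous_apply _
        · exact continuous_const
    exact (cont_ev _ h1 _).sub (cont_ev _ h1 _)
  set c : ℝ := (pv' M0 M1 (m + 1) : ℝ) with hc
  have hc2 : 2 ≤ c := by rw [hc]; exact_mod_cast pv_ge M0 M1 (m + 1)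
  set bs : ℝ := ((∑ j ∈ range m, pv' M0 M1 (j + 1) : ℕ) : ℝ) with hbs
  have hbs0 : 0 ≤ bs := Nat.cast_nonneg _
  have hbc : 2 * bs ≤ c := by
    rw [hbs, hc]; exact_mod_cast n1' m M0 M1 hMm
  have hlow : ∀ v, ∑ j : Fin m, v j ^ 2 ≤ f v + c / 2 := by
    intro v
    set S := ∑ j : Fin m, v j ^ 2 with hS
    have hS0 : 0 ≤ S := Finset.sum_nonneg fun _ _ => sq_nonneg _
    have h1 : ∀ j < m, |ext v j| ≤ 1 + S := by
      intro j hj
      have e : ext v j = v ⟨j, hj⟩ := by simp [ext, hj]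
      rw [e]
      have h2 : v ⟨j, hj⟩ ^ 2 ≤ S := Finset.single_le_sum (f := fun j : Fin m => v j ^ 2)
        (fun _ _ => sq_nonneg _) (Finset.mem_univ _)
      rw [abs_le]; constructor <;> nlinarith [sq_nonneg (v ⟨j, hj⟩ - 1), sq_nonneg (v ⟨j, hj⟩ + 1)]
    have h2 := abs_le.1 (lin_le m M0 M1 (ext v) (1 + S) h1)
    rw [hfv]
    have h3 : 0 ≤ (pv' M0 M1 (m + 3) : ℝ) * (P.ev (fullp m M0 M1 (ext v)) + (S - 1) ^ 2) :=
      mul_nonneg (Nat.cast_nonneg _) (add_nonneg (hnn _) (sq_nonneg _))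
    rw [← hbs] at h2
    nlinarith [h2.2]
  let v1 : Fin m → ℝ := fun j => v0 j
  have hv1 : f v1 = Ph m M0 M1 P (fullp m M0 M1 v0) := by
    have hcg : ∀ t : Term, (∀ i, t.Occ i → i < zz m M0 M1 ∨ ∃ j < m, i = zz m M0 M1 + j) →
        t.ev (fullp m M0 M1 (ext v1)) = t.ev (fullp m M0 M1 v0) := by
      intro t ht
      refine ev_congr _ _ t fun i hi => ?_
      rcases ht i hi with h | ⟨j, hj, rfl⟩
      · rw [fullp_lt m M0 M1 _ i h, fullp_lt m M0 M1 _ i h]
      · rw [fullp_x, fullp_x]; simp [ext, hj, v1]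
    simp only [f, Ph]
    rw [hcg _ (fun i hi => ?_), hcg _ (fun i hi => ?_)]
    · rcases occ_lin _ _ _ _ hi with ⟨j, hj, h⟩ | ⟨j, hj, h⟩
      · exact Or.inl (by rw [h]; exact cv_lt_zz (by omega))
      · exact Or.inr ⟨j, hj, h⟩
    · rcases occ_TG hP i hi with (h | h | h) | h
      · exact Or.inl (by rw [h]; exact cv_lt_zz (by omega))
      · exact Or.inl (by rw [h]; exact cv_lt_zz (by omega))
      · exact Or.inl (by rw [h]; exact cv_lt_zz (by omega))
      · exact Or.inr h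
  have hK : IsCompact {v | f v ≤ f v1} := by
    have hb := (isCompact_univ_pi fun _ : Fin m => isCompact_Icc
      (a := -(1 + (f v1 + c / 2))) (b := 1 + (f v1 + c / 2)))
    apply hb.of_isClosed_subset (isClosed_le hfc continuous_const)
    intro v hv j _
    have hv' : f v ≤ f v1 := hv
    have h1 := hlow v
    have h2 : v j ^ 2 ≤ ∑ j : Fin m, v j ^ 2 := Finset.single_le_sum
      (f := fun j : Fin m => v j ^ 2) (fun _ _ => sq_nonneg _) (Finset.mem_univ _)
    constructor <;> nlinarith [sq_nonneg (v j - 1), sq_nonneg (v j + 1)]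
  obtain ⟨v, hv, hvmin⟩ := hK.exists_isMinOn ⟨v1, le_refl (f v1)⟩ hfc.continuousOn
  have hmin : ∀ w, f v ≤ f w := by
    intro w
    by_cases hw : f w ≤ f v1
    · exact hvmin hw
    · push Not at hw
      exact (show f v ≤ f v1 from hv).trans hw.le
  refine ⟨ext v, by rw [← hv1]; exact hv, fun j hj => ?_⟩
  -- the derivative in the direction j
  set x := fullp m M0 M1 (ext v) with hx
  have hline : ∀ s : ℝ, (fun i => x i + s * uv (zz m M0 M1 + j) i) =
      fullp m M0 M1 (ext (fun k => v k + if k = (⟨j, hj⟩ : Fin m) then s else 0)) := by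
    intro s
    funext i
    rw [hx]
    unfold fullp uv
    by_cases hi : i < zz m M0 M1
    · rw [if_pos hi, if_pos hi, if_neg (by omega)]; ring
    · rw [if_neg hi, if_neg hi]
      simp only [ext]
      by_cases hi2 : i - zz m M0 M1 < m
      · rw [dif_pos hi2, dif_pos hi2]
        by_cases hi3 : i = zz m M0 M1 + j
        · rw [if_pos hi3, if_pos (Fin.ext (by simp only; omega))]; ring
        · rw [if_neg hi3, if_neg (fun h => hi3 (by
            have := congrArg Fin.val h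
            simp only at this
            omega))]; ring
      · rw [dif_neg hi2, dif_neg hi2, if_neg (by omega)]; ring
  have hd1 := hasDeriv_ev x (uv (zz m M0 M1 + j)) (TG P m M0 M1)
  have hd2 := hasDeriv_ev x (uv (zz m M0 M1 + j))
    (lin (fun j => cv M0 M1 (j + 1)) (zz m M0 M1) m)
  have hd := hd1.sub hd2
  have hlm : IsLocalMin (fun s : ℝ => (TG P m M0 M1).ev (fun i => x i + s *
      uv (zz m M0 M1 + j) i) - (lin (fun j => cv M0 M1 (j + 1)) (zz m M0 M1) m).ev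
      (fun i => x i + s * uv (zz m M0 M1 + j) i)) 0 := by
    refine Filter.Eventually.of_forall fun s => ?_
    simp only [hline]
    have h0 := hline 0
    have h1 := hmin (fun k => v k + if k = (⟨j, hj⟩ : Fin m) then s else 0)
    have h2 : (fun k => v k + if k = (⟨j, hj⟩ : Fin m) then (0:ℝ) else 0) = v := by
      funext k; simp
    rw [h2]
    exact h1
  have hz := hlm.hasDerivAt_eq_zero hd
  rw [ev_dv]
  rw [der_lin x _ _ j m (fun i hi => cv_lt_zz (by omega)), if_pos hj] at hz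
  have e1 : x (cv M0 M1 (j + 1)) = pv' M0 M1 (j + 1) := by
    rw [hx, fullp_lt m M0 M1 _ _ (cv_lt_zz (by omega))]
    simp [pv']
  rw [e1] at hz
  linarith

/-- hypotheses on the parameters -/
structure ParOK (N M0 M1 : ℕ) : Prop where
  q0 : Qb (n1b N) (2 * N + 1) ≤ M0
  q1 : Qb (n1b N) (2 * N + 1) + 3 ≤ M1
  qm : 2 * N + 1 ≤ M1

theorem forward (φ : Form) (M0 M1 : ℕ) (hp : ParOK φ.toks.length M0 M1) (y : ℕ → ℝ)
    (hy : φ.Holds y) : ∃ x : ℕ → ℝ, ∀ t ∈ sysT (PF φ M0 M1) (2 * φ.toks.length + 1) M0 M1,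
      t.ev x = 0 := by
  classical
  set N := φ.toks.length with hN
  set m := 2 * N + 1 with hm
  set P := PF φ M0 M1 with hPdef
  have hPe : P = pol (cv M0 M1 0) (zz m M0 M1) N true φ 0 := rfl
  have hM : 1 ≤ M1 := by have := hp.q1; omega
  have hPocc := PF_occ φ M0 M1
  rw [← hPdef, ← hN, ← hm] at hPocc
  have hnn : ∀ x : ℕ → ℝ, 0 ≤ P.ev x := fun x => pol_nonneg _ _ _ x φ true 0
  have hrZ : cv M0 M1 0 < zz m M0 M1 := cv_lt_zz (by omega)
  -- a solution with R = 1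
  obtain ⟨u, hu⟩ := pol_complete (cv M0 M1 0) (zz m M0 M1) N y φ true 0 (by simpa [sgn] using hy)
  let x0 : ℕ → ℝ := fun i => if i < zz m M0 M1 then 1 else
    if i - zz m M0 M1 < N then y (i - zz m M0 M1) else u (i - zz m M0 M1 - N)
  have hx0r : x0 (cv M0 M1 0) = 1 := if_pos hrZ
  have hx0P : P.ev x0 = 0 := by
    rw [hPe]
    refine hu x0 (fun i hi => ?_) (fun j _ hj => ?_)
    · rw [hx0r, one_mul]
      simp only [x0]
      rw [if_neg (by omega), if_pos (by omega)]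
      congr 1; omega
    · rw [hx0r, one_mul]
      simp only [x0]
      rw [if_neg (by omega), if_neg (by omega)]
      congr 1; omega
  obtain ⟨x1, hx1r, hx1P, hx1S⟩ := ball (zz m M0 M1) (cv M0 M1 0) m hrZ P (n1b N)
    ((PF_nd φ M0 M1).trans (by unfold n1b; omega)) (by unfold n1b; omega) hPocc hnn x0 hx0r hx0P
  set B : ℝ := 2 ^ 2 ^ M0 with hB
  have hB1 : 1 ≤ B := one_le_pow₀ (by norm_num)
  have hx1S' : ∑ j ∈ range m, x1 (zz m M0 M1 + j) ^ 2 ≤ B := by
    refine hx1S.trans ?_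
    rw [hB]
    exact pow_le_pow_right₀ (by norm_num) (Nat.pow_le_pow_right (by norm_num) hp.q0)
  set S : ℝ := ∑ j ∈ range (2 * N), x1 (zz m M0 M1 + j) ^ 2 with hS
  have hS1 : S ≤ B := by
    rw [hm, Finset.sum_range_succ] at hx1S'
    have := sq_nonneg (x1 (zz (2 * N + 1) M0 M1 + 2 * N))
    rw [← hm] at hx1S' this
    linarith
  have hS0 : 0 ≤ S := Finset.sum_nonneg fun _ _ => sq_nonneg _
  have hSB : S / B ^ 2 ≤ 1 := by
    rw [div_le_one (by positivity)]
    nlinarith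
  -- the scaled point
  let v2 : ℕ → ℝ := fun j => if j < 2 * N then x1 (zz m M0 M1 + j) / B else
    Real.sqrt (1 - S / B ^ 2)
  have hv2S : ∑ j ∈ range m, v2 j ^ 2 = 1 := by
    rw [hm, Finset.sum_range_succ]
    have e1 : ∑ j ∈ range (2 * N), v2 j ^ 2 = S / B ^ 2 := by
      rw [hS, Finset.sum_div]
      refine Finset.sum_congr rfl fun j hj => ?_
      simp only [v2]
      rw [if_pos (Finset.mem_range.1 hj), div_pow]
    have e2 : v2 (2 * N) ^ 2 = 1 - S / B ^ 2 := by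
      simp only [v2]
      rw [if_neg (lt_irrefl _), Real.sq_sqrt (by linarith)]
    rw [e1, e2]; ring
  have hP2 : P.ev (fullp m M0 M1 v2) = 0 := by
    rw [← hx1P, hPe]
    refine pol_congr _ _ _ _ _ φ true 0 (by omega) fun j hj => ?_
    rw [hx1r, one_mul, fullp_lt m M0 M1 _ _ hrZ, fullp_x, cv_zero, ← hB]
    simp only [v2]
    rw [if_pos hj]
    field_simp
  obtain ⟨v, hv1, hv2⟩ := exists_min P m M0 M1 hp.qm hPocc hnn v2
  -- the value at the scaled point
  set c : ℝ := (pv' M0 M1 (m + 1) : ℝ) with hc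
  set bs : ℝ := ((∑ j ∈ range m, pv' M0 M1 (j + 1) : ℕ) : ℝ) with hbs
  set e : ℝ := (pv' M0 M1 (m + 2) : ℝ) with he
  have hbc : 2 * bs ≤ c := by
    rw [hbs, hc]; exact_mod_cast n1' m M0 M1 hp.qm
  have hce : 2 * c ≤ e := by
    rw [he, hc]; exact_mod_cast n2 M0 M1 hM (m + 1)
  have hc0 : 0 ≤ c := Nat.cast_nonneg _
  have hval : Ph m M0 M1 P (fullp m M0 M1 v2) ≤ e := by
    unfold Ph
    rw [ev_TG m M0 M1 P _ (fullp_lt m M0 M1 _), ev_linP m M0 M1 _ (fullp_lt m M0 M1 _)]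
    simp only [fullp_x]
    rw [hP2, hv2S]
    have h1 : ∀ j < m, |v2 j| ≤ 1 := by
      intro j hj
      have h2 : v2 j ^ 2 ≤ ∑ j ∈ range m, v2 j ^ 2 := Finset.single_le_sum
        (f := fun j => v2 j ^ 2) (fun _ _ => sq_nonneg _) (Finset.mem_range.2 hj)
      rw [hv2S] at h2
      exact abs_le_one_iff_mul_self_le_one.2 (by nlinarith)
    have h3 := abs_le.1 (lin_le m M0 M1 v2 1 h1)
    rw [← hbs] at h3
    have h4 := h3.1
    linarith
  set s : ℝ := Real.sqrt (e - Ph m M0 M1 P (fullp m M0 M1 v)) with hs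
  have hs2 : s * s = e - Ph m M0 M1 P (fullp m M0 M1 v) :=
    Real.mul_self_sqrt (by linarith)
  let w : ℕ → ℝ := fun j => if j = m then s else v j
  have hcg : ∀ t : Term, (∀ i, t.Occ i → i < zz m M0 M1 ∨ ∃ j < m, i = zz m M0 M1 + j) →
      t.ev (fullp m M0 M1 w) = t.ev (fullp m M0 M1 v) := by
    intro t ht
    refine ev_congr _ _ t fun i hi => ?_
    rcases ht i hi with h | ⟨j, hj, rfl⟩
    · rw [fullp_lt m M0 M1 _ i h, fullp_lt m M0 M1 _ i h]
    · rw [fullp_x, fullp_x]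
      simp only [w]
      rw [if_neg (by omega)]
  have hTGo : ∀ i, (TG P m M0 M1).Occ i → i < zz m M0 M1 ∨ ∃ j < m, i = zz m M0 M1 + j := by
    intro i hi
    rcases occ_TG hPocc i hi with (h | h | h) | h
    · exact Or.inl (by rw [h]; exact cv_lt_zz (by omega))
    · exact Or.inl (by rw [h]; exact cv_lt_zz (by omega))
    · exact Or.inl (by rw [h]; exact cv_lt_zz (by omega))
    · exact Or.inr h
  refine ⟨fullp m M0 M1 w, ?_⟩
  rw [forall_sysT]
  refine ⟨chain_sat (fullp_lt m M0 M1 w), fun j hj => ?_, ?_⟩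
  · simp only [gradT, Term.ev]
    rw [hcg _ (fun i hi => hTGo i (occ_dv _ _ _ hi)), hv2 j hj,
      fullp_lt m M0 M1 _ _ (cv_lt_zz (by omega))]
    simp [pv']
  · simp only [lastT, Term.ev]
    rw [hcg _ hTGo, hcg _ (fun i hi => by
      rcases occ_lin _ _ _ _ hi with ⟨j, hj, h⟩ | ⟨j, hj, h⟩
      · exact Or.inl (by rw [h]; exact cv_lt_zz (by omega))
      · exact Or.inr ⟨j, hj, h⟩), fullp_x, fullp_lt m M0 M1 _ _ (cv_lt_zz (by omega))]
    have e1 : w m = s := if_pos rfl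
    rw [e1, hs2]
    have e2 : e = (2:ℝ) ^ 2 ^ cv M0 M1 (m + 2) := by rw [he]; simp [pv']
    rw [e2]
    unfold Ph
    ring

theorem backward (φ : Form) (M0 M1 : ℕ) (hp : ParOK φ.toks.length M0 M1) (x : ℕ → ℝ)
    (hx : ∀ t ∈ sysT (PF φ M0 M1) (2 * φ.toks.length + 1) M0 M1, t.ev x = 0) :
    ∃ y, φ.Holds y := by
  classical
  set N := φ.toks.length with hN
  set m := 2 * N + 1 with hm
  set P := PF φ M0 M1 with hPdef
  have hPe : P = pol (cv M0 M1 0) (zz m M0 M1) N true φ 0 := rfl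
  have hM : 1 ≤ M1 := by have := hp.q1; omega
  have hPocc := PF_occ φ M0 M1
  rw [← hPdef, ← hN, ← hm] at hPocc
  have hnn : ∀ x : ℕ → ℝ, 0 ≤ P.ev x := fun x => pol_nonneg _ _ _ x φ true 0
  have hrZ : cv M0 M1 0 < zz m M0 M1 := cv_lt_zz (by omega)
  by_contra hno
  have hPpos : ∀ x : ℕ → ℝ, 0 < P.ev x := by
    intro x
    refine lt_of_le_of_ne (hnn x) fun h => hno ?_
    have := pol_sound _ _ _ x φ true 0 h.symm
    exact ⟨_, by simpa [sgn] using this⟩
  rw [forall_sysT] at hx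
  obtain ⟨h1, h2, h3⟩ := hx
  have hc := chain_valR h1
  set S : ℝ := ∑ j ∈ range m, x (zz m M0 M1 + j) ^ 2 with hS
  have hS0 : 0 ≤ S := Finset.sum_nonneg fun _ _ => sq_nonneg _
  set c : ℝ := (pv' M0 M1 (m + 1) : ℝ) with hcdef
  set bs : ℝ := ((∑ j ∈ range m, pv' M0 M1 (j + 1) : ℕ) : ℝ) with hbs
  set e : ℝ := (pv' M0 M1 (m + 2) : ℝ) with he
  set L : ℝ := (pv' M0 M1 (m + 3) : ℝ) with hL
  have hbc : 2 * bs ≤ c := by
    rw [hbs, hcdef]; exact_mod_cast n1' m M0 M1 hp.qm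
  have hce : 2 * c ≤ e := by
    rw [he, hcdef]; exact_mod_cast n2 M0 M1 hM (m + 1)
  have hc0 : 0 ≤ c := Nat.cast_nonneg _
  have hbs0 : 0 ≤ bs := Nat.cast_nonneg _
  have he2 : 2 ≤ e := by rw [he]; exact_mod_cast pv_ge M0 M1 (m + 2)
  have hLe : 2 ^ 2 ^ (M0 + Qb (n1b N) m) * e ^ 4 ≤ L := by
    rw [he, hL]
    exact_mod_cast n3 M0 M1 (Qb (n1b N) m) hp.q1 (m + 2)
  have hlast : (TG P m M0 M1).ev x - (lin (fun j => cv M0 M1 (j + 1)) (zz m M0 M1) m).ev x ≤ e := by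
    simp only [lastT, Term.ev] at h3
    rw [hc _ (cv_lt_zz (show m + 2 ≤ m + 3 by omega))] at h3
    have e2 : e = (2:ℝ) ^ 2 ^ cv M0 M1 (m + 2) := by rw [he]; simp [pv']
    rw [e2]
    nlinarith [mul_self_nonneg (x (zz m M0 M1 + m))]
  rw [ev_TG m M0 M1 P x hc, ev_linP m M0 M1 x hc] at hlast
  have habs : ∀ j < m, |x (zz m M0 M1 + j)| ≤ 1 + S := by
    intro j hj
    have h2 : x (zz m M0 M1 + j) ^ 2 ≤ S := Finset.single_le_sum
      (f := fun j => x (zz m M0 M1 + j) ^ 2) (fun _ _ => sq_nonneg _) (Finset.mem_range.2 hj)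
    rw [abs_le]; constructor <;> nlinarith [sq_nonneg (x (zz m M0 M1 + j) - 1),
      sq_nonneg (x (zz m M0 M1 + j) + 1)]
  have hlin := abs_le.1 (lin_le m M0 M1 (fun j => x (zz m M0 M1 + j)) (1 + S) habs)
  rw [← hbs] at hlin
  have hlin2 := hlin.2
  rw [← hS, ← hL, ← hcdef] at hlast
  have he4 : 8 * e ≤ e ^ 4 := by nlinarith [sq_nonneg (e - 2), mul_nonneg (show 0 ≤ e by linarith) (sq_nonneg (e-2)), pow_le_pow_left₀ (by norm_num : (0:ℝ) ≤ 2) he2 3, mul_le_mul_of_nonneg_left (pow_le_pow_left₀ (by norm_num : (0:ℝ) ≤ 2) he2 3) (show 0 ≤ e by linarith)]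
  have hLpos : 0 ≤ L := Nat.cast_nonneg _
  have hcS : 0 ≤ c * S := mul_nonneg hc0 hS0
  rcases le_or_gt S 4 with hS4 | hS4
  · -- small
    have hnd : (Term.add P (Term.mul (Term.sub (sqs (zz m M0 M1) m) Term.one)
        (Term.sub (sqs (zz m M0 M1) m) Term.one))).nd ≤ n1b N := by
      have hPnd : P.nd ≤ 27 * N := PF_nd φ M0 M1
      simp only [Term.nd, nd_sqs]
      unfold n1b
      omega
    have hg := gap (zz m M0 M1) (cv M0 M1 0) m (2 ^ 2 ^ M0) hrZ
      (Term.add P (Term.mul (Term.sub (sqs (zz m M0 M1) m) Term.one)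
        (Term.sub (sqs (zz m M0 M1) m) Term.one))) (n1b N) M0 (by
          calc 2 = 2 ^ 1 := rfl
            _ ≤ 2 ^ 2 ^ M0 := Nat.pow_le_pow_right (by norm_num) Nat.one_le_two_pow) le_rfl hnd
      (by unfold n1b; omega) (by
        intro i hi
        rcases hi with hi | ((hi | hi) | (hi | hi))
        · exact hPocc i hi
        · exact Or.inr (occ_sqs _ _ _ hi)
        · exact absurd hi (by simp [Term.Occ])
        · exact Or.inr (occ_sqs _ _ _ hi)
        · exact absurd hi (by simp [Term.Occ])) (by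
        intro x _
        simp only [Term.ev]
        have := hPpos x
        have := mul_self_nonneg ((sqs (zz m M0 M1) m).ev x - 1)
        linarith) x (by
        rw [hc _ hrZ, cv_zero]; push_cast; rfl) hS4
    simp only [Term.ev, ev_sqs] at hg
    rw [← hS] at hg
    set T : ℝ := P.ev x + (S - 1) * (S - 1) with hT
    have hT0 : 0 ≤ T := add_nonneg (hnn x) (mul_self_nonneg _)
    have hLT : e ^ 4 ≤ L * T := by
      have h5 : 2 ^ 2 ^ (M0 + Qb (n1b N) m) * e ^ 4 * T ≤ L * T :=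
        mul_le_mul_of_nonneg_right hLe hT0
      have h6 : e ^ 4 * 1 ≤ e ^ 4 * (T * 2 ^ 2 ^ (M0 + Qb (n1b N) m)) :=
        mul_le_mul_of_nonneg_left hg (by positivity)
      nlinarith
    have hbS : bs * (1 + S) ≤ bs * 5 := mul_le_mul_of_nonneg_left (by linarith) hbs0
    have hTT : P.ev x + (S - 1) ^ 2 = T := by rw [hT]; ring
    rw [hTT] at hlast
    linarith
  · -- large
    have h5 : S ≤ P.ev x + (S - 1) ^ 2 := by nlinarith [hnn x]
    have h6 : L * S ≤ L * (P.ev x + (S - 1) ^ 2) := mul_le_mul_of_nonneg_left h5 hLpos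
    have h7 : e ^ 4 ≤ L := by
      have h8 : (1:ℝ) ≤ 2 ^ 2 ^ (M0 + Qb (n1b N) m) := one_le_pow₀ (by norm_num)
      have h9 : 1 * e ^ 4 ≤ 2 ^ 2 ^ (M0 + Qb (n1b N) m) * e ^ 4 :=
        mul_le_mul_of_nonneg_right h8 (by positivity)
      linarith
    have h10 : e ^ 4 * S ≤ L * S := mul_le_mul_of_nonneg_right h7 hS0
    have h11 : 8 * e * S ≤ e ^ 4 * S := mul_le_mul_of_nonneg_right he4 hS0
    have h12 : bs * (1 + S) ≤ e * (1 + S) := mul_le_mul_of_nonneg_right (by linarith) (by linarith)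
    nlinarith

end Pool.Agent.Helper54.ETR
end
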