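import Pool.Agent.Helper54.Rg.Annih2
import Pool.Agent.Helper54.Rg.Sys

open Finset

namespace Pool.Agent.Helper54.ETR

section

variable (P : Term) (m M0 M1 : ℕ)

/-- generic variables: the coordinates, and three parameters -/
abbrev WV (m : ℕ) : Type := Fin m ⊕ Fin 3

/-- positions of the parameters -/
def ps : WV m → ℕ
  | Sum.inl j => j + 1
  | Sum.inr k => if k = 0 then 0 else if k = 1 then m + 1 else m + 3

/-- index of the variable -/
def gi : WV m → ℕ
  | Sum.inl j => zz m M0 M1 + j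
  | Sum.inr k => cv M0 M1 (ps m (Sum.inr k))

theorem ps_inj : Function.Injective (ps m) := by
  intro a b h
  rcases a with i | k <;> rcases b with j | l
  · simp only [ps] at h
    congr 1
    exact Fin.ext (by omega)
  · have := i.2
    fin_cases l <;> simp [ps] at h <;> omega
  · have := j.2
    fin_cases k <;> simp [ps] at h <;> omega
  · fin_cases k <;> fin_cases l <;> simp [ps] at h ⊢

theorem ps_le (w : WV m) : ps m w ≤ m + 3 := by
  rcases w with i | k
  · simp only [ps]; omega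
  · fin_cases k <;> simp [ps]

theorem ps_ne (w : WV m) : ps m w ≠ m + 2 := by
  rcases w with i | k
  · simp only [ps]; omega
  · fin_cases k <;> simp [ps]

theorem gi_inj (hM : 1 ≤ M1) : Function.Injective (gi m M0 M1) := by
  intro a b h
  rcases a with i | k <;> rcases b with j | l
  · simp only [gi] at h
    congr 1
    exact Fin.ext (by omega)
  · have h1 := cv_lt_zz (m := m) (M0 := M0) (M1 := M1) (ps_le m (Sum.inr l))
    simp only [gi] at h
    omega
  · have h1 := cv_lt_zz (m := m) (M0 := M0) (M1 := M1) (ps_le m (Sum.inr k))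
    simp only [gi] at h
    omega
  · have h2 : ps m (Sum.inr k) = ps m (Sum.inr l) := by
      simp only [gi] at h
      rcases Nat.lt_trichotomy (ps m (Sum.inr k)) (ps m (Sum.inr l)) with h3 | h3 | h3
      · have := cv_lt (M0 := M0) hM h3; omega
      · exact h3
      · have := cv_lt (M0 := M0) hM h3; omega
    exact ps_inj m h2

/-- the generic point -/
noncomputable def gp : ℕ → MvPolynomial (WV m) ℤ :=
  Function.extend (gi m M0 M1) (fun w => MvPolynomial.X w) 0

theorem gp_gi (hM : 1 ≤ M1) (w : WV m) : gp m M0 M1 (gi m M0 M1 w) = MvPolynomial.X w :=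
  (gi_inj m M0 M1 hM).extend_apply _ _ _

/-- evaluation at a point -/
noncomputable def psi {S : Type} [CommRing S] (x : ℕ → S) : MvPolynomial (WV m) ℤ →+* S :=
  MvPolynomial.eval₂Hom (Int.castRingHom S) (fun w => x (gi m M0 M1 w))

theorem psi_X {S : Type} [CommRing S] (x : ℕ → S) (w : WV m) :
    psi m M0 M1 x (MvPolynomial.X w) = x (gi m M0 M1 w) := by
  simp [psi]

theorem psi_ev {S : Type} [CommRing S] (hM : 1 ≤ M1) (x : ℕ → S) (t : Term)
    (ht : ∀ i, t.Occ i → ∃ w, gi m M0 M1 w = i) : psi m M0 M1 x (t.ev (gp m M0 M1)) = t.ev x := by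
  rw [ev_hom]
  refine ev_congr _ _ t fun i hi => ?_
  obtain ⟨w, rfl⟩ := ht i hi
  rw [gp_gi m M0 M1 hM, psi_X]

/-- the generic gradient and the parameters -/
noncomputable def pp : WV m → MvPolynomial (WV m) ℤ
  | Sum.inl j => ((TG P m M0 M1).dv (zz m M0 M1 + j)).ev (gp m M0 M1)
  | Sum.inr k => MvPolynomial.X (Sum.inr k)

/-- the generic Hessian determinant -/
noncomputable def Jp : MvPolynomial (WV m) ℤ :=
  (Matrix.of fun i j : Fin m =>
    (((TG P m M0 M1).dv (zz m M0 M1 + i)).dv (zz m M0 M1 + j)).ev (gp m M0 M1)).det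

/-- the generic critical value -/
noncomputable def up : MvPolynomial (WV m) ℤ :=
  (TG P m M0 M1).ev (gp m M0 M1) - ∑ j : Fin m, pp P m M0 M1 (Sum.inl j) *
    MvPolynomial.X (Sum.inl j)

variable {P m M0 M1}

theorem occ_gi (hP : ∀ i, P.Occ i → i = cv M0 M1 0 ∨ ∃ j < m, i = zz m M0 M1 + j) (i : ℕ)
    (h : (TG P m M0 M1).Occ i) : ∃ w, gi m M0 M1 w = i := by
  rcases occ_TG hP i h with (h | h | h) | ⟨j, hj, h⟩
  · exact ⟨Sum.inr 0, by simp [gi, ps, h]⟩
  · exact ⟨Sum.inr 1, by simp [gi, ps, h]⟩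
  · exact ⟨Sum.inr 2, by simp [gi, ps, h]⟩
  · exact ⟨Sum.inl ⟨j, hj⟩, by simp [gi, h]⟩

theorem Jp_ne (hM : 1 ≤ M1) (hP : ∀ i, P.Occ i → i = cv M0 M1 0 ∨
    ∃ j < m, i = zz m M0 M1 + j) : Jp P m M0 M1 ≠ 0 := by
  classical
  intro h0
  let y : ℕ → ℤ := fun i => if i = cv M0 M1 (m + 1) then 1 else 0
  have h1 := congrArg (psi m M0 M1 y) h0
  rw [map_zero, Jp, RingHom.map_det] at h1
  have h2 : (psi m M0 M1 y).mapMatrix (Matrix.of fun i j : Fin m =>
      (((TG P m M0 M1).dv (zz m M0 M1 + i)).dv (zz m M0 M1 + j)).ev (gp m M0 M1)) =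
      Matrix.diagonal fun _ => 2 := by
    ext i j
    rw [RingHom.mapMatrix_apply, Matrix.map_apply, Matrix.of_apply,
      psi_ev m M0 M1 hM y _ (fun i hi => occ_gi hP i (occ_dv _ _ _ (occ_dv _ _ _ hi)))]
    have hl : y (cv M0 M1 (m + 3)) = 0 := by
      have := cv_lt (M0 := M0) hM (show m + 1 < m + 3 by omega)
      simp only [y]
      rw [if_neg (by omega)]
    have hc : y (cv M0 M1 (m + 1)) = 1 := by simp [y]
    have n1 : ∀ k, ¬ cv M0 M1 (m + 3) = zz m M0 M1 + k := by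
      intro k
      have := cv_lt_zz (m := m) (M0 := M0) (M1 := M1) (le_refl (m + 3))
      omega
    have n2 : ∀ k, ¬ cv M0 M1 (m + 1) = zz m M0 M1 + k := by
      intro k
      have := cv_lt_zz (m := m) (M0 := M0) (M1 := M1) (show m + 1 ≤ m + 3 by omega)
      omega
    simp only [TG, Term.dv, n1, n2, if_false, Term.ev, hl, hc, zero_mul, mul_zero, add_zero,
      zero_add, one_mul, ev_dv2_sqs]
    by_cases hij : i = j
    · subst hij
      rw [Matrix.diagonal_apply_eq, if_pos ⟨i.2, rfl⟩]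
    · rw [Matrix.diagonal_apply_ne _ hij, if_neg]
      rintro ⟨_, h⟩
      exact hij (Fin.ext h)
  rw [h2, Matrix.det_diagonal, Finset.prod_const] at h1
  exact absurd h1 (pow_ne_zero _ (by norm_num))

theorem finite_of_coord {N : ℕ} (S : Set (ℕ → ℂ)) (h : ∀ x ∈ S, ∀ i, N ≤ i → x i = 0)
    (hF : ∀ i < N, {y | ∃ x ∈ S, x i = y}.Finite) : S.Finite := by
  classical
  apply Set.Finite.of_finite_image (f := fun (x : ℕ → ℂ) (i : Fin N) => x i)
  · have h1 : (Set.pi Set.univ fun i : Fin N => {y | ∃ x ∈ S, x i = y}).Finite :=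
      Set.Finite.pi fun i => hF i i.2
    refine h1.subset ?_
    rintro _ ⟨x, hx, rfl⟩ i _
    exact ⟨x, hx, rfl⟩
  · intro x hx y hy hxy
    funext i
    by_cases hi : i < N
    · exact congrFun hxy ⟨i, hi⟩
    · rw [h x hx i (by omega), h y hy i (by omega)]

theorem finite_sq (c : ℂ) : {s : ℂ | s ^ 2 = c}.Finite := by
  classical
  have h0 : (Polynomial.X ^ 2 - Polynomial.C c : Polynomial ℂ) ≠ 0 :=
    Polynomial.X_pow_sub_C_ne_zero (by norm_num) c
  refine (Polynomial.X ^ 2 - Polynomial.C c : Polynomial ℂ).roots.toFinset.finite_toSet.subset ?_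
  intro s hs
  have hs' : s ^ 2 = c := hs
  simp [Polynomial.mem_roots h0, hs']

/-- the genericity hypotheses needed for the system -/
structure GenH (P : Term) (m M0 M1 d h : ℕ) : Prop where
  hM : 1 ≤ M1
  J : Gen (pp P m M0 M1) (Jp P m M0 M1) (ps m) d h (2 ^ M1) (2 ^ M1) (2 ^ 2 ^ M0)
  u : Gen (pp P m M0 M1) (up P m M0 M1) (ps m) d h (2 ^ M1) (2 ^ M1) (2 ^ 2 ^ M0)
  X : ∀ j : Fin m, Gen (pp P m M0 M1) (MvPolynomial.X (Sum.inl j)) (ps m) d h (2 ^ M1) (2 ^ M1)
    (2 ^ 2 ^ M0)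

theorem cv_val (k : ℕ) : (((2 ^ 2 ^ M0 : ℕ) : ℂ)) ^ ((2 ^ M1) ^ k) = 2 ^ 2 ^ (cv M0 M1 k) := by
  push_cast
  rw [← pow_mul]
  congr 1
  rw [← pow_mul, ← pow_add]
  congr 1
  unfold cv
  ring

theorem psi_pp (hM : 1 ≤ M1) (hP : ∀ i, P.Occ i → i = cv M0 M1 0 ∨
    ∃ j < m, i = zz m M0 M1 + j) (x : ℕ → ℂ) (h1 : ∀ i < zz m M0 M1, x i = 2 ^ 2 ^ i)
    (h2 : ∀ j < m, (gradT P m M0 M1 j).ev x = 0) (w : WV m) :
    psi m M0 M1 x (pp P m M0 M1 w) = ((2 ^ 2 ^ M0 : ℕ) : ℂ) ^ ((2 ^ M1) ^ (ps m w)) := by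
  rw [cv_val]
  rcases w with j | k
  · simp only [pp]
    rw [psi_ev m M0 M1 hM x _ (fun i hi => occ_gi hP i (occ_dv _ _ _ hi))]
    have h3 := h2 j j.2
    simp only [gradT, Term.ev] at h3
    rw [sub_eq_zero.1 h3, h1 _ (cv_lt_zz (by omega))]
    rfl
  · simp only [pp]
    rw [psi_X]
    exact h1 _ (cv_lt_zz (ps_le m _))

theorem psi_up (hM : 1 ≤ M1) (hP : ∀ i, P.Occ i → i = cv M0 M1 0 ∨
    ∃ j < m, i = zz m M0 M1 + j) (x : ℕ → ℂ) (h1 : ∀ i < zz m M0 M1, x i = 2 ^ 2 ^ i)
    (h2 : ∀ j < m, (gradT P m M0 M1 j).ev x = 0) :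
    psi m M0 M1 x (up P m M0 M1) = (TG P m M0 M1).ev x -
      (lin (fun j => cv M0 M1 (j + 1)) (zz m M0 M1) m).ev x := by
  rw [up, map_sub, psi_ev m M0 M1 hM x _ (fun i hi => occ_gi hP i hi), ev_lin, map_sum,
    Finset.sum_range]
  congr 1
  refine Finset.sum_congr rfl fun j _ => ?_
  rw [map_mul, psi_pp hM hP x h1 h2, psi_X, cv_val]
  simp only [ps, gi]
  rw [h1 _ (cv_lt_zz (by omega))]

theorem regular_sys {d h : ℕ} (hP : ∀ i, P.Occ i → i = cv M0 M1 0 ∨
    ∃ j < m, i = zz m M0 M1 + j) (G : GenH P m M0 M1 d h) : Regular (sysT P m M0 M1) := by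
  classical
  have hM := G.hM
  have hlast : ∀ x : ℕ → ℂ, (∀ i < zz m M0 M1, x i = 2 ^ 2 ^ i) →
      (∀ j < m, (gradT P m M0 M1 j).ev x = 0) → (lastT P m M0 M1).ev x = 0 →
      x (zz m M0 M1 + m) ^ 2 = 2 ^ 2 ^ (cv M0 M1 (m + 2)) - psi m M0 M1 x (up P m M0 M1) := by
    intro x h1 h2 h3
    rw [psi_up hM hP x h1 h2]
    simp only [lastT, Term.ev] at h3
    rw [h1 (cv M0 M1 (m + 2)) (cv_lt_zz (by omega))] at h3
    linear_combination h3
  refine ⟨below_sysT hP, ?_, ?_⟩
  · -- finiteness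
    refine finite_of_coord (N := zz m M0 M1 + m + 1) _ (fun x hx i hi => ?_) ?_
    · exact hx.2 i (by rw [sysT_length]; exact hi)
    · intro i hi
      have hbase : ∀ x : ℕ → ℂ, ((∀ t ∈ sysT P m M0 M1, t.ev x = 0) ∧
          ∀ i, (sysT P m M0 M1).length ≤ i → x i = 0) →
          (∀ i < zz m M0 M1, x i = 2 ^ 2 ^ i) ∧ (∀ j < m, (gradT P m M0 M1 j).ev x = 0) ∧
          (lastT P m M0 M1).ev x = 0 := by
        rintro x ⟨hx, _⟩
        rw [forall_sysT] at hx
        exact ⟨chain_val hx.1, hx.2.1, hx.2.2⟩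
      by_cases hi1 : i < zz m M0 M1
      · refine (Set.finite_singleton ((2:ℂ) ^ 2 ^ i)).subset ?_
        rintro y ⟨x, hx, rfl⟩
        exact (hbase x hx).1 i hi1
      by_cases hi2 : i < zz m M0 M1 + m
      · obtain ⟨Q, hQ0, hQ⟩ := (G.X ⟨i - zz m M0 M1, by omega⟩).root_poly
        refine Q.roots.toFinset.finite_toSet.subset ?_
        rintro y ⟨x, hx, rfl⟩
        obtain ⟨e1, e2, _⟩ := hbase x hx
        have h3 := hQ (psi m M0 M1 x) (psi_pp hM hP x e1 e2)
        rw [psi_X] at h3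
        simp only [gi] at h3
        have h4 : zz m M0 M1 + (i - zz m M0 M1) = i := by omega
        rw [h4] at h3
        simp [Polynomial.mem_roots hQ0, h3]
      · have hi3 : i = zz m M0 M1 + m := by omega
        subst hi3
        obtain ⟨Q, hQ0, hQ⟩ := G.u.root_poly
        have hfin : (⋃ r ∈ (Q.roots.toFinset : Set ℂ),
            {s : ℂ | s ^ 2 = 2 ^ 2 ^ (cv M0 M1 (m + 2)) - r}).Finite :=
          Set.Finite.biUnion (Finset.finite_toSet _) fun r _ => finite_sq _
        refine hfin.subset ?_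
        rintro y ⟨x, hx, rfl⟩
        obtain ⟨e1, e2, e3⟩ := hbase x hx
        rw [Set.mem_iUnion₂]
        refine ⟨psi m M0 M1 x (up P m M0 M1), ?_, hlast x e1 e2 e3⟩
        have h3 := hQ (psi m M0 M1 x) (psi_pp hM hP x e1 e2)
        simp [Polynomial.mem_roots hQ0, h3]
  · -- nonsingularity
    intro x v hx hv
    rw [forall_sysT] at hx hv
    obtain ⟨hx1, hx2, hx3⟩ := hx
    obtain ⟨hv1, hv2, hv3⟩ := hv
    have e1 := chain_val hx1
    have e2 := chain_ker hv1
    have hJ := G.J.nonvan (Jp_ne hM hP) (psi m M0 M1 x) (psi_pp hM hP x e1 hx2)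
    set A : Matrix (Fin m) (Fin m) ℂ := Matrix.of fun i j =>
      (((TG P m M0 M1).dv (zz m M0 M1 + i)).dv (zz m M0 M1 + j)).ev x with hA
    have hdet : A.det ≠ 0 := by
      have h2 : psi m M0 M1 x (Jp P m M0 M1) = A.det := by
        rw [Jp, RingHom.map_det]
        congr 1
        ext i j
        rw [RingHom.mapMatrix_apply, Matrix.map_apply, Matrix.of_apply, hA, Matrix.of_apply,
          psi_ev m M0 M1 hM x _ (fun i hi => occ_gi hP i (occ_dv _ _ _ (occ_dv _ _ _ hi)))]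
      rwa [h2] at hJ
    have hocc : ∀ i, (TG P m M0 M1).Occ i → v i ≠ 0 →
        i ∈ (range m).image fun j => zz m M0 M1 + j := by
      intro i hi hvi
      rcases occ_TG hP i hi with (h | h | h) | ⟨j, hj, h⟩
      · exact absurd (e2 i (by rw [h]; exact cv_lt_zz (by omega))) hvi
      · exact absurd (e2 i (by rw [h]; exact cv_lt_zz (by omega))) hvi
      · exact absurd (e2 i (by rw [h]; exact cv_lt_zz (by omega))) hvi
      · rw [Finset.mem_image]
        exact ⟨j, Finset.mem_range.2 hj, h.symm⟩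
    have hmul : A.mulVec (fun j : Fin m => v (zz m M0 M1 + j)) = 0 := by
      funext i
      have h3 := hv2 i i.2
      simp only [gradT, Term.der] at h3
      rw [e2 (cv M0 M1 (i + 1)) (cv_lt_zz (by omega)), sub_zero] at h3
      rw [der_coord ((range m).image fun j => zz m M0 M1 + j) x v _
        (fun k hk => hocc k (occ_dv _ _ _ hk)), Finset.sum_image (by
          intro a _ b _ hab; simpa using hab), Finset.sum_range] at h3
      simp only [Matrix.mulVec, dotProduct, hA, Matrix.of_apply, Pi.zero_apply]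
      rw [← h3]
      refine Finset.sum_congr rfl fun j _ => ?_
      rw [ev_dv, mul_comm]
    have hvec := Matrix.eq_zero_of_mulVec_eq_zero hdet hmul
    have hvx : ∀ j < m, v (zz m M0 M1 + j) = 0 := fun j hj => congrFun hvec ⟨j, hj⟩
    have hzero : ∀ i, (TG P m M0 M1).Occ i → v i ≠ 0 → i ∈ (∅ : Finset ℕ) := by
      intro i hi hvi
      have := hocc i hi hvi
      rw [Finset.mem_image] at this
      obtain ⟨j, hj, rfl⟩ := this
      exact absurd (hvx j (Finset.mem_range.1 hj)) hvi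
    have hs0 : x (zz m M0 M1 + m) ≠ 0 := by
      intro h0
      have h4 := hlast x e1 hx2 hx3
      rw [h0] at h4
      have h5 := G.u.avoid (m + 2) (ps_ne m) (psi m M0 M1 x) (psi_pp hM hP x e1 hx2)
      rw [cv_val] at h5
      apply h5
      linear_combination h4
    have hvs : v (zz m M0 M1 + m) = 0 := by
      simp only [lastT, Term.der, Term.ev] at hv3
      have h6 := der_coord ∅ x v _ hzero
      rw [Finset.sum_empty] at h6
      have h7 : (lin (fun j => cv M0 M1 (j + 1)) (zz m M0 M1) m).der x v = 0 := by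
        have h8 := der_coord ∅ x v (lin (fun j => cv M0 M1 (j + 1)) (zz m M0 M1) m) (by
          intro i hi hvi
          rcases occ_lin _ _ _ _ hi with ⟨j, hj, h⟩ | ⟨j, hj, h⟩
          · exact absurd (e2 i (by rw [h]; exact cv_lt_zz (by omega))) hvi
          · exact absurd (by rw [h]; exact hvx j hj) hvi)
        rwa [Finset.sum_empty] at h8
      rw [h6, h7, e2 (cv M0 M1 (m + 2)) (cv_lt_zz (by omega))] at hv3
      have h9 : 2 * (x (zz m M0 M1 + m) * v (zz m M0 M1 + m)) = 0 := by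
        linear_combination hv3
      have h10 := (mul_eq_zero.1 h9).resolve_left two_ne_zero
      exact (mul_eq_zero.1 h10).resolve_left hs0
    intro i hi
    rw [sysT_length] at hi
    by_cases hi1 : i < zz m M0 M1
    · exact e2 i hi1
    by_cases hi2 : i < zz m M0 M1 + m
    · have := hvx (i - zz m M0 M1) (by omega)
      have h4 : zz m M0 M1 + (i - zz m M0 M1) = i := by omega
      rwa [h4] at this
    · have hi3 : i = zz m M0 M1 + m := by omega
      rw [hi3]; exact hvs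

end

end Pool.Agent.Helper54.ETR
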